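import Pool.Agent.W833.BD.Mix

/-! The failure of decorrelation. -/

namespace Pool.Agent.W833.BD

set_option linter.unusedSectionVars false

open MeasureTheory Filter Topology ProbabilityTheory
open scoped ENNReal

variable {d : ℕ} [NeZero d]

/-- truncation -/
noncomputable def trn (R : ℕ) (r : ℝ) : ℝ := max (-(R : ℝ)) (min r R)

lemma abs_trn_le (R : ℕ) (r : ℝ) : |trn R r| ≤ R := by
  have hR : (0 : ℝ) ≤ R := Nat.cast_nonneg R
  unfold trn
  rw [abs_le]
  constructor
  · exact le_max_left _ _
  · exact max_le (by linarith) (min_le_right _ _)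

lemma abs_trn_le' (R : ℕ) (r : ℝ) : |trn R r| ≤ |r| := by
  have hR : (0 : ℝ) ≤ R := Nat.cast_nonneg R
  unfold trn
  rw [abs_le]
  have h1 := neg_abs_le r
  have h2 := le_abs_self r
  have h3 := abs_nonneg r
  constructor
  · rcases le_total r R with h | h
    · rw [min_eq_left h]
      exact h1.trans (le_max_right _ _)
    · rw [min_eq_right h]
      refine le_trans ?_ (le_max_right _ _)
      linarith
  · exact max_le (by linarith) ((min_le_left _ _).trans h2)

lemma trn_neg (R : ℕ) (r : ℝ) : trn R (-r) = - trn R r := by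
  have hR : (0 : ℝ) ≤ R := Nat.cast_nonneg R
  unfold trn
  rcases le_total r R with h | h
  · rcases le_total (-(R : ℝ)) r with h' | h'
    · rw [min_eq_left h, max_eq_right h', min_eq_left (by linarith : -r ≤ R),
        max_eq_right (by linarith)]
    · rw [min_eq_left h, max_eq_left h', min_eq_right (by linarith : (R : ℝ) ≤ -r),
        max_eq_right (by linarith)]
      ring
  · have h1 : max (-(R : ℝ)) (min r R) = R := by
      rw [min_eq_right h]
      exact max_eq_right (by linarith)
    have h2 : max (-(R : ℝ)) (min (-r) R) = -R := by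
      rw [min_eq_left (by linarith : -r ≤ R)]
      exact max_eq_left (by linarith)
    rw [h1, h2]

lemma tendsto_trn (r : ℝ) : Tendsto (fun R : ℕ => trn R r) atTop (𝓝 r) := by
  refine tendsto_const_nhds.congr' ?_
  obtain ⟨R0, hR0⟩ := exists_nat_ge |r|
  filter_upwards [eventually_ge_atTop R0] with R hR
  have h1 : |r| ≤ R := hR0.trans (by exact_mod_cast hR)
  rw [abs_le] at h1
  unfold trn
  rw [min_eq_left h1.2, max_eq_right h1.1]

/-- the test function -/
noncomputable def phi (R : ℕ) (v : Fin d → ℤ) : ℝ := trn R (v 0)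

lemma loc_phi (R : ℕ) (x : V d) : Loc (fun g : Om d => phi R (grad g x)) := by
  unfold phi grad
  exact (loc_eval (x + Pi.single 0 1)).comp₂ (loc_eval x)
    (fun a b : ℤ => trn R (((a - b : ℤ) : ℝ)))

lemma abs_phi_le (R : ℕ) (v : Fin d → ℤ) : |phi R v| ≤ R := abs_trn_le R _

lemma grad_Tz (z x : V d) (g : Om d) : grad (Tz z g) x = grad g (x + z) := by
  funext i
  simp only [grad, Tz]
  rw [add_right_comm]
  ring

/-- integrals of functions of the gradient field are translation invariant -/
lemma Nice.integral_Tz {μ : Measure (Om d)} (h : Nice μ) (z : V d) {F : Om d → ℝ}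
    (hF : Measurable F) : ∫ g, F (Tz z g) ∂μ = ∫ g, F g ∂μ := by
  conv_rhs => rw [← h.trans z]
  rw [integral_map (measurable_of_loc (loc_Tz z)).aemeasurable hF.aestronglyMeasurable]

/-- the group of signed permutations, as an index set -/
abbrev SG (d : ℕ) := Equiv.Perm (Fin d) × (Fin d → ℤˣ)

/-- the symmetrised law -/
noncomputable def symm (ν : Measure (Om d)) : Measure (Om d) :=
  avg (fun h : SG d => ν.map (Sp h.1 h.2))

lemma Nice.symm {ν : Measure (Om d)} (h : Nice ν) : Nice (BD.symm ν) :=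
  Nice.avg fun k => h.map_Sp k.1 k.2

/-- right multiplication in the group of signed permutations -/
def mulR (π : Equiv.Perm (Fin d)) (s : Fin d → ℤˣ) : SG d ≃ SG d where
  toFun h := (h.1.trans π, fun k => h.2 k * s (h.1 k))
  invFun h := (h.1.trans π.symm, fun k => h.2 k * (s ((h.1.trans π.symm) k))⁻¹)
  left_inv h := by
    obtain ⟨ρ, t⟩ := h
    refine Prod.ext ?_ ?_
    · ext k
      simp
    · funext k
      simp [mul_assoc]
  right_inv h := by
    obtain ⟨ρ, t⟩ := h
    refine Prod.ext ?_ ?_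
    · ext k
      simp
    · funext k
      simp [mul_assoc]

lemma Sp_Sp (π : Equiv.Perm (Fin d)) (s : Fin d → ℤˣ) (h : SG d) :
    Sp π s ∘ Sp h.1 h.2 = (Sp (mulR π s h).1 (mulR π s h).2 : Om d → Om d) := by
  funext f y
  show f _ = f _
  congr 1
  funext k
  simp only [sp, mulR, Equiv.coe_fn_mk, Equiv.trans_apply, Units.val_mul]
  ring

lemma symm_map (ν : Measure (Om d)) (π : Equiv.Perm (Fin d)) (s : Fin d → ℤˣ) :
    (symm ν).map (Sp π s) = symm ν := by
  unfold symm
  rw [map_avg (measurable_Sp π s)]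
  have h1 : ∀ h : SG d, (ν.map (Sp h.1 h.2)).map (Sp π s)
      = ν.map (Sp (mulR π s h).1 (mulR π s h).2) := by
    intro h
    rw [Measure.map_map (measurable_Sp π s) (measurable_Sp _ _), Sp_Sp]
  simp only [h1]
  unfold avg
  congr 1
  exact Equiv.sum_comp (mulR π s) (fun h : SG d => ν.map (Sp h.1 h.2))

section main

variable {ν : Measure (Om d)} (hν : Nice ν) (R : ℕ)

include hν

lemma int_phi (x : V d) : Integrable (fun g : Om d => phi R (grad g x)) ν := by
  have := hν.wstat.prob
  exact integrable_of_loc (loc_phi R x) (fun g => abs_phi_le R _)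

lemma loc_phi2 (x y : V d) : Loc (fun g : Om d => phi R (grad g x) * phi R (grad g y)) :=
  (loc_phi R x).comp₂ (loc_phi R y) (· * ·)

lemma int_phi2 (x y : V d) :
    Integrable (fun g : Om d => phi R (grad g x) * phi R (grad g y)) ν := by
  have := hν.wstat.prob
  refine integrable_of_loc (loc_phi2 hν R x y) (C := (R : ℝ) * R) (fun g => ?_)
  rw [abs_mul]
  exact mul_le_mul (abs_phi_le R _) (abs_phi_le R _) (abs_nonneg _) (Nat.cast_nonneg R)

lemma mean_phi (x : V d) :
    ∫ g, phi R (grad g x) ∂ν = ∫ g, phi R (grad g 0) ∂ν := by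
  have h := hν.integral_Tz x (loc_phi R (0 : V d)).measurable
  rw [← h]
  simp only [grad_Tz, zero_add]

lemma corr_phi (x y z : V d) :
    ∫ g, phi R (grad g (x + z)) * phi R (grad g (y + z)) ∂ν
      = ∫ g, phi R (grad g x) * phi R (grad g y) ∂ν := by
  have h := hν.integral_Tz z (loc_phi2 hν R x y).measurable
  rw [← h]
  simp only [grad_Tz]

/-- the second moment of the sums -/
lemma sq_ge (x : ℕ → V d) (N : ℕ) :
    (N * ∫ g, phi R (grad g 0) ∂ν) ^ 2
      ≤ ∑ i ∈ Finset.range N, ∑ j ∈ Finset.range N,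
        ∫ g, phi R (grad g (x i)) * phi R (grad g (x j)) ∂ν := by
  have := hν.wstat.prob
  set Y : Om d → ℝ := fun g => ∑ i ∈ Finset.range N, phi R (grad g (x i)) with hY
  have hYi : Integrable Y ν := integrable_finsetSum _ fun i _ => int_phi hν R (x i)
  have hYm : ∫ g, Y g ∂ν = N * ∫ g, phi R (grad g 0) ∂ν := by
    rw [hY, integral_finsetSum _ fun i _ => int_phi hν R (x i)]
    simp only [mean_phi hν R]
    rw [Finset.sum_const, Finset.card_range, nsmul_eq_mul]
  have hYY : ∀ g, Y g * Y g = ∑ i ∈ Finset.range N, ∑ j ∈ Finset.range N,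
      phi R (grad g (x i)) * phi R (grad g (x j)) := by
    intro g
    rw [hY, Finset.sum_mul_sum]
  have hYYi : Integrable (fun g => Y g * Y g) ν := by
    simp only [hYY]
    exact integrable_finsetSum _ fun i _ => integrable_finsetSum _ fun j _ =>
      int_phi2 hν R (x i) (x j)
  have hYYm : ∫ g, Y g * Y g ∂ν = ∑ i ∈ Finset.range N, ∑ j ∈ Finset.range N,
        ∫ g, phi R (grad g (x i)) * phi R (grad g (x j)) ∂ν := by
    simp only [hYY]
    rw [integral_finsetSum _ fun i _ => integrable_finsetSum _ fun j _ =>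
      int_phi2 hν R (x i) (x j)]
    exact Finset.sum_congr rfl fun i _ => integral_finsetSum _ fun j _ => int_phi2 hν R (x i) (x j)
  rw [← hYYm, ← hYm]
  set c := ∫ g, Y g ∂ν with hc
  have h1 : 0 ≤ ∫ g, (Y g * Y g - (2 * c) * Y g + c ^ 2) ∂ν := by
    refine integral_nonneg fun g => ?_
    have : Y g * Y g - (2 * c) * Y g + c ^ 2 = (Y g - c) ^ 2 := by ring
    simp only [Pi.zero_apply]
    rw [this]
    positivity
  have e1 : Integrable (fun g => Y g * Y g - (2 * c) * Y g) ν := hYYi.sub (hYi.const_mul _)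
  rw [integral_add_c e1, integral_sub hYYi (hYi.const_mul _), integral_const_mul, ← hc] at h1
  nlinarith

end main

/-- The symmetrised law is not decorrelated. -/
theorem not_decorrelated {ν : Measure (Om d)} (hν : Nice ν) {a : ℝ} (ha : 0 < a)
    (hmean : ∀ x : V d, ∫ w, (w x : ℝ) ∂ν = a * x 0) :
    ∃ (R : ℕ) (ε : ℝ), 0 < ε ∧ ∀ z : V d, ∃ k : ℕ → ℕ, StrictMono k ∧ ∀ n,
      ε ≤ cov[fun g => phi R (grad g 0), fun g => phi R (grad g (k n • z)); symm ν] := by
  have hprob := hν.wstat.prob
  -- the truncation level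
  have h1 : Tendsto (fun R : ℕ => ∫ g, phi R (grad g 0) ∂ν) atTop (𝓝 a) := by
    have h2 : ∫ g : Om d, ((g (0 + Pi.single 0 1) : ℝ) - g 0) ∂ν = a := by
      rw [integral_sub (hν.int _) (hν.int _), hmean, hmean]
      simp
    rw [← h2]
    refine tendsto_integral_of_dominated_convergence
      (fun g => |(g (0 + Pi.single 0 1) : ℝ) - g 0|)
      (fun R => (loc_phi R 0).measurable.aestronglyMeasurable) ?_ ?_ ?_
    · exact ((hν.int _).sub (hν.int _)).abs
    · intro R
      refine Eventually.of_forall fun g => ?_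
      unfold phi grad
      push_cast
      exact abs_trn_le' R _
    · refine Eventually.of_forall fun g => ?_
      unfold phi grad
      push_cast
      exact tendsto_trn _
  obtain ⟨R, hR⟩ := (h1.eventually (lt_mem_nhds ha)).exists
  set m : SG d → Measure (Om d) := fun h => ν.map (Sp h.1 h.2) with hm
  have hmN : ∀ h, Nice (m h) := fun h => hν.map_Sp h.1 h.2
  have hμ : Nice (symm ν) := hν.symm
  have hμp := hμ.wstat.prob
  have hcard : (0 : ℝ) < Fintype.card (SG d) := by
    have : 0 < Fintype.card (SG d) := Fintype.card_pos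
    exact_mod_cast this
  set c0 : ℝ := (Fintype.card (SG d) : ℝ)⁻¹ * ∑ h, (∫ g, phi R (grad g 0) ∂(m h)) ^ 2 with hc0
  have hone : m (1, fun _ => 1) = ν := by
    simp only [hm]
    have : (Sp (1 : Equiv.Perm (Fin d)) (fun _ => (1 : ℤˣ)) : Om d → Om d) = id := by
      funext f y
      show f _ = f y
      congr 1
      funext k
      simp [sp]
    rw [this, Measure.map_id]
  have hc0pos : 0 < c0 := by
    refine mul_pos (inv_pos.2 hcard) ?_
    refine lt_of_lt_of_le ?_ (Finset.single_le_sum (f := fun h =>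
      (∫ g, phi R (grad g 0) ∂(m h)) ^ 2) (fun _ _ => sq_nonneg _)
      (Finset.mem_univ ((1 : Equiv.Perm (Fin d)), fun _ => (1 : ℤˣ))))
    simp only [hone]
    positivity
  refine ⟨R, c0 / 2, by positivity, fun z => ?_⟩
  -- the mean vanishes
  have hmean0 : ∫ g, phi R (grad g 0) ∂(symm ν) = 0 := by
    have h2 : ∫ g, phi R (grad g 0) ∂(symm ν)
        = ∫ g, phi R (grad (Sp 1 (fun _ => (-1 : ℤˣ)) g) 0) ∂(symm ν) := by
      conv_lhs => rw [← symm_map ν 1 (fun _ => (-1 : ℤˣ))]
      rw [integral_map (measurable_Sp _ _).aemeasurable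
        (loc_phi R 0).measurable.aestronglyMeasurable]
    have h3 : ∀ g : Om d, phi R (grad (Sp 1 (fun _ => (-1 : ℤˣ)) g) 0)
        = - phi R (grad g (0 + -Pi.single 0 1)) := by
      intro g
      unfold phi
      rw [← trn_neg]
      congr 1
      simp only [grad, Sp]
      have e1 : sp 1 (fun _ => (-1 : ℤˣ)) (0 + Pi.single 0 1 : V d) = 0 + -Pi.single 0 1 := by
        funext k
        simp [sp]
      have e2 : sp 1 (fun _ => (-1 : ℤˣ)) (0 : V d) = 0 := sp_zero _ _
      have e3 : (0 + -Pi.single 0 1 + Pi.single 0 1 : V d) = 0 := by simp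
      rw [e1, e2, e3]
      push_cast
      ring
    have h4 : ∫ g, phi R (grad g (0 + -Pi.single 0 1)) ∂(symm ν)
        = ∫ g, phi R (grad g 0) ∂(symm ν) := mean_phi hμ R _
    simp only [h3] at h2
    rw [integral_neg, h4] at h2
    linarith
  -- the correlations
  set C : ℕ → ℝ := fun k => ∫ g, phi R (grad g 0) * phi R (grad g (k • z)) ∂(symm ν) with hC
  set E : ℕ → ℕ → ℝ := fun i j =>
    ∫ g, phi R (grad g (i • z)) * phi R (grad g (j • z)) ∂(symm ν) with hE
  have hE1 : ∀ i k, E i (i + k) = C k := by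
    intro i k
    have := corr_phi hμ R 0 (k • z) (i • z)
    simp only [hE, hC]
    rw [← this, zero_add, ← add_smul, add_comm k i]
  have hE2 : ∀ i k, E (i + k) i = C k := by
    intro i k
    rw [← hE1 i k]
    simp only [hE]
    congr 1
    funext g
    exact mul_comm _ _
  have hCB : ∀ k, C k ≤ (R : ℝ) * R := by
    intro k
    have h2 := norm_integral_le_of_norm_le_const (μ := symm ν)
      (f := fun g => phi R (grad g 0) * phi R (grad g (k • z))) (C := (R : ℝ) * R)
      (Eventually.of_forall fun g => by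
        rw [Real.norm_eq_abs, abs_mul]
        exact mul_le_mul (abs_phi_le R _) (abs_phi_le R _) (abs_nonneg _) (Nat.cast_nonneg R))
    simp only [probReal_univ, mul_one] at h2
    exact (le_abs_self _).trans h2
  have hces : ∀ N : ℕ, (N : ℝ) ^ 2 * c0
      ≤ ∑ i ∈ Finset.range N, ∑ j ∈ Finset.range N, E i j := by
    intro N
    have h2 : ∀ i j, E i j = (Fintype.card (SG d) : ℝ)⁻¹ *
        ∑ h, ∫ g, phi R (grad g (i • z)) * phi R (grad g (j • z)) ∂(m h) := by
      intro i j
      simp only [hE]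
      unfold symm
      rw [integral_avg fun h => int_phi2 (hmN h) R _ _]
    simp only [h2]
    have h3 : ∑ i ∈ Finset.range N, ∑ j ∈ Finset.range N, (Fintype.card (SG d) : ℝ)⁻¹ *
        ∑ h, ∫ g, phi R (grad g (i • z)) * phi R (grad g (j • z)) ∂(m h)
        = (Fintype.card (SG d) : ℝ)⁻¹ * ∑ h, ∑ i ∈ Finset.range N, ∑ j ∈ Finset.range N,
          ∫ g, phi R (grad g (i • z)) * phi R (grad g (j • z)) ∂(m h) := by
      simp only [← Finset.mul_sum]
      congr 1
      rw [Finset.sum_congr rfl fun i _ => Finset.sum_comm, Finset.sum_comm]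
    rw [h3, hc0, mul_left_comm, Finset.mul_sum]
    refine mul_le_mul_of_nonneg_left (Finset.sum_le_sum fun h _ => ?_) (inv_pos.2 hcard).le
    have h4 := sq_ge (hmN h) R (fun i => i • z) N
    rw [mul_pow] at h4
    exact h4
  have hfreq := freq_of_cesaro hc0pos hE1 hE2 hCB (by positivity) hces
  obtain ⟨k, hk1, hk2⟩ := extraction_of_frequently_atTop (P := fun n => c0 / 2 ≤ C n)
    (frequently_atTop.2 fun n0 => by
      obtain ⟨n, h1, h2⟩ := hfreq n0
      exact ⟨n, h1, h2⟩)
  refine ⟨k, hk1, fun n => ?_⟩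
  have hL2 : ∀ x : V d, MemLp (fun g : Om d => phi R (grad g x)) 2 (symm ν) := fun x =>
    MemLp.of_bound (loc_phi R x).measurable.aestronglyMeasurable R
      (Eventually.of_forall fun g => abs_phi_le R _)
  rw [covariance_eq_sub (hL2 0) (hL2 _), hmean0, zero_mul, sub_zero]
  exact hk2 n

end Pool.Agent.W833.BD
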