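import Pool.Agent.W833.BD.Bounds

/-! Time averages of the laws of the class dynamics. -/

namespace Pool.Agent.W833.BD

set_option linter.unusedSectionVars false

open MeasureTheory Filter Topology
open scoped ENNReal

variable {d : ℕ} [NeZero d]

/-- the properties of the approximating laws -/
structure Good (ρ : Measure (Om d)) (K : ℝ) : Prop where
  prob : IsProbabilityMeasure ρ
  int : ∀ φ : Om d → ℝ, Measurable φ → Integrable φ ρ
  trans : ∀ (z : V d) (φ : Om d → ℝ), Measurable φ →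
    ∫ f, φ (fun y => f (y + z) - z 0) ∂ρ = ∫ f, φ f ∂ρ
  refl : ∀ (i : Fin d), i ≠ 0 → ∀ φ : Om d → ℝ, Measurable φ →
    ∫ f, φ (fun y => f (refl i y)) ∂ρ = ∫ f, φ f ∂ρ
  incr : ∀ y, ∫ f, ((newh f y : ℝ) - f y) ∂ρ ≤ K

lemma stp_not (p : Fin d × Bool) : (stp (p.1, !p.2) : V d) = - stp p := by
  obtain ⟨i, b⟩ := p
  funext k
  by_cases hk : k = i
  · subst hk
    cases b <;> simp [stp]
  · simp [stp, hk]

namespace Good

variable {ρ : Measure (Om d)} {K : ℝ}

lemma int_eval (h : Good ρ K) (x : V d) : Integrable (fun f : Om d => (f x : ℝ)) ρ :=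
  h.int _ ((loc_eval x).comp (fun k : ℤ => (k : ℝ))).measurable

lemma mean (h : Good ρ K) (x y : V d) : ∫ f, ((f (x + y) : ℝ) - f x) ∂ρ = y 0 := by
  have := h.prob
  have h1 : ∀ z : V d, ∫ f, (f z : ℝ) ∂ρ = ∫ f, (f 0 : ℝ) ∂ρ + z 0 := by
    intro z
    have h2 := h.trans z (fun f => (f 0 : ℝ)) ((loc_eval 0).comp (fun k : ℤ => (k : ℝ))).measurable
    simp only [zero_add, Int.cast_sub] at h2
    rw [integral_sub (h.int_eval z) (integrable_const _)] at h2
    simp at h2
    linarith
  rw [integral_sub (h.int_eval _) (h.int_eval _), h1, h1 x]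
  simp

lemma stp_le (h : Good ρ K) (x : V d) (p : Fin d × Bool) :
    ∫ f, |(f (x + stp p) : ℝ) - f x| ∂ρ ≤ 2 * K := by
  have hx : x = (x + stp p) + stp (p.1, !p.2) := by
    rw [stp_not]
    abel
  have i1 : ∀ y : V d, Integrable (fun f : Om d => (newh f y : ℝ) - f y) ρ := fun y =>
    h.int _ ((loc_newh y).comp₂ (loc_eval y) (fun a b : ℤ => (a : ℝ) - b)).measurable
  calc ∫ f, |(f (x + stp p) : ℝ) - f x| ∂ρ
      ≤ ∫ f, (((newh f x : ℝ) - f x) + ((newh f (x + stp p) : ℝ) - f (x + stp p))) ∂ρ := by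
        refine integral_mono ?_ ((i1 _).add (i1 _)) ?_
        · exact h.int _ ((loc_eval (x + stp p)).comp₂ (loc_eval x)
            (fun a b : ℤ => |(a : ℝ) - b|)).measurable
        · intro f
          have h1 : (f (x + stp p) : ℝ) ≤ newh f x := by exact_mod_cast nbr_le_newh f x p
          have h2 : (f x : ℝ) ≤ newh f (x + stp p) := by
            have := nbr_le_newh f (x + stp p) (p.1, !p.2)
            rw [← hx] at this
            exact_mod_cast this
          have h3 : (f x : ℝ) ≤ newh f x := by exact_mod_cast (lt_newh f x).le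
          have h4 : (f (x + stp p) : ℝ) ≤ newh f (x + stp p) := by
            exact_mod_cast (lt_newh f _).le
          simp only
          rw [abs_le]
          constructor <;> linarith
    _ = ∫ f, ((newh f x : ℝ) - f x) ∂ρ + ∫ f, ((newh f (x + stp p) : ℝ) - f (x + stp p)) ∂ρ :=
        integral_add (i1 _) (i1 _)
    _ ≤ 2 * K := by
        have := h.incr x
        have := h.incr (x + stp p)
        linarith

end Good

/-- the displacements with uniformly integrable increments -/
def goodV (d : ℕ) [NeZero d] (K : ℝ) : AddSubgroup (V d) where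
  carrier := {y | ∃ C, ∀ ρ : Measure (Om d), Good ρ K → ∀ x, ∫ f, |(f (x + y) : ℝ) - f x| ∂ρ ≤ C}
  zero_mem' := ⟨0, fun ρ _ x => by simp⟩
  add_mem' := by
    rintro y z ⟨C, hC⟩ ⟨D, hD⟩
    refine ⟨C + D, fun ρ h x => ?_⟩
    have i1 : ∀ a b : V d, Integrable (fun f : Om d => |(f a : ℝ) - f b|) ρ := fun a b =>
      h.int _ ((loc_eval a).comp₂ (loc_eval b) (fun a b : ℤ => |(a : ℝ) - b|)).measurable
    calc ∫ f, |(f (x + (y + z)) : ℝ) - f x| ∂ρ
        ≤ ∫ f, (|(f (x + y) : ℝ) - f x| + |(f (x + y + z) : ℝ) - f (x + y)|) ∂ρ := by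
          refine integral_mono (i1 _ _) ((i1 _ _).add (i1 _ _)) ?_
          intro f
          simp only
          have := abs_add_le ((f (x + y) : ℝ) - f x) ((f (x + y + z) : ℝ) - f (x + y))
          rw [← add_assoc]
          refine le_trans (le_of_eq ?_) this
          congr 1
          ring
      _ = ∫ f, |(f (x + y) : ℝ) - f x| ∂ρ + ∫ f, |(f (x + y + z) : ℝ) - f (x + y)| ∂ρ :=
          integral_add (i1 _ _) (i1 _ _)
      _ ≤ C + D := add_le_add (hC ρ h x) (hD ρ h (x + y))
  neg_mem' := by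
    rintro y ⟨C, hC⟩
    refine ⟨C, fun ρ h x => ?_⟩
    have := hC ρ h (x + -y)
    rw [neg_add_cancel_right] at this
    refine le_trans (le_of_eq ?_) this
    congr 1
    funext f
    exact abs_sub_comm _ _

lemma mem_goodV {K : ℝ} (y : V d) : y ∈ goodV d K := by
  have h1 : ∀ i : Fin d, (Pi.single i 1 : V d) ∈ goodV d K := by
    intro i
    refine ⟨2 * K, fun ρ h x => ?_⟩
    have := h.stp_le x (i, true)
    simpa [stp] using this
  have h2 : y = ∑ i, (y i) • (Pi.single i 1 : V d) := by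
    funext k
    simp [Finset.sum_apply, Pi.single_apply]
  rw [h2]
  exact AddSubgroup.sum_mem _ fun i _ => AddSubgroup.zsmul_mem _ (h1 i) _

/-- uniform bounds for the increments -/
lemma exists_l1_bound (d : ℕ) [NeZero d] (K : ℝ) : ∃ C : V d → ℝ, ∀ ρ : Measure (Om d), Good ρ K →
    ∀ x y, ∫ f, |(f (x + y) : ℝ) - f x| ∂ρ ≤ C y := by
  have : ∀ y : V d, ∃ C, ∀ ρ : Measure (Om d), Good ρ K →
      ∀ x, ∫ f, |(f (x + y) : ℝ) - f x| ∂ρ ≤ C := fun y => mem_goodV y
  choose C hC using this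
  exact ⟨C, fun ρ h x y => hC y ρ h x⟩

section

variable {N : ℕ} [NeZero N]

/-- the average over the times before `m` -/
noncomputable def av (N : ℕ) [NeZero N] (m : ℕ) : Measure (Om d) :=
  (m : ℝ≥0∞)⁻¹ • ∑ n ∈ Finset.range m, Mn N n

lemma integrable_av {m : ℕ} (hm : 0 < m) {φ : Om d → ℝ} (hφ : Measurable φ) :
    Integrable φ (av N m) := by
  unfold av
  refine Integrable.smul_measure ?_ ?_
  · rw [integrable_finsetSum_measure]
    exact fun n _ => integrable_Mn n hφ
  · rw [ENNReal.inv_ne_top]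
    exact_mod_cast hm.ne'

lemma integral_av {m : ℕ} {φ : Om d → ℝ} (hφ : Measurable φ) :
    ∫ f, φ f ∂(av N m) = (m : ℝ)⁻¹ * ∑ n ∈ Finset.range m, ∫ f, φ f ∂(Mn N n) := by
  unfold av
  rw [integral_smul_measure, integral_finsetSum_measure]
  · rw [ENNReal.toReal_inv, ENNReal.toReal_natCast]
    rfl
  · exact fun n _ => integrable_Mn n hφ

lemma prob_av {m : ℕ} (hm : 0 < m) : IsProbabilityMeasure (av N m : Measure (Om d)) := by
  constructor
  unfold av
  simp only [Measure.smul_apply, Measure.coe_finsetSum, Finset.sum_apply, smul_eq_mul,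
    measure_univ, Finset.sum_const, Finset.card_range, nsmul_eq_mul, mul_one]
  apply ENNReal.inv_mul_cancel
  · exact_mod_cast hm.ne'
  · exact ENNReal.natCast_ne_top _

/-- the time average is almost invariant -/
lemma sum_updT_av {m : ℕ} (hm : 0 < m) {φ : Om d → ℝ} (hφ : Measurable φ) :
    ∑ c : Cl N d, ∫ f, (φ (updT c f) - φ f) ∂(av N m)
      = (Fintype.card (Cl N d) / m) * (∫ f, φ f ∂(Mn N m) - φ f0) := by
  have hkc0 : (0 : ℝ) < Fintype.card (Cl N d) := kc_pos
  have h1 : ∀ n : ℕ, ∑ c : Cl N d, ∫ f, (φ (updT c f) - φ f) ∂(Mn N n : Measure (Om d))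
      = Fintype.card (Cl N d) * (∫ f, φ f ∂(Mn N (n + 1)) - ∫ f, φ f ∂(Mn N n)) := by
    intro n
    rw [integral_Mn_succ n hφ]
    have : ∀ c : Cl N d, ∫ f, (φ (updT c f) - φ f) ∂(Mn N n : Measure (Om d))
        = ∫ f, φ (updT c f) ∂(Mn N n) - ∫ f, φ f ∂(Mn N n) := fun c =>
      integral_sub (integrable_Mn n (hφ.comp (measurable_updT c))) (integrable_Mn n hφ)
    simp only [this]
    rw [Finset.sum_sub_distrib]
    simp only [Finset.sum_const, Finset.card_univ, nsmul_eq_mul]
    field_simp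
  have h2 : ∀ c : Cl N d, ∫ f, (φ (updT c f) - φ f) ∂(av N m : Measure (Om d))
      = (m : ℝ)⁻¹ * ∑ n ∈ Finset.range m, ∫ f, (φ (updT c f) - φ f) ∂(Mn N n) := fun c =>
    integral_av ((hφ.comp (measurable_updT c)).sub hφ)
  simp only [h2]
  rw [← Finset.mul_sum, Finset.sum_comm]
  simp only [h1]
  rw [← Finset.mul_sum, Finset.sum_range_sub (fun n => ∫ f, φ f ∂(Mn N n : Measure (Om d))),
    integral_Mn_zero]
  field_simp

lemma refl_act (i : Fin d) (hi : i ≠ 0) (f : Om d) :
    (Sym.refl (N := N) i hi).act f = fun y => f (refl i y) := by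
  funext y
  show f (refl i y) + 0 = _
  rw [add_zero]

lemma good_Mn {K : ℝ} {m : ℕ}
    (h : Fintype.card (Cl N d) * (en N d (m + 1) - en N d m) ≤ K) :
    Good (Mn N m : Measure (Om d)) K where
  prob := inferInstance
  int := fun φ hφ => integrable_Mn m hφ
  trans := fun z φ hφ => by
    have := integral_act (Sym.trans (N := N) z) m hφ
    exact this
  refl := fun i hi φ hφ => by
    have := integral_act (Sym.refl (N := N) i hi) m hφ
    simpa only [refl_act] using this
  incr := fun y => by rw [← en_succ]; exact h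

lemma good_av {K : ℝ} {m : ℕ} (hm : 0 < m) (h : Fintype.card (Cl N d) * en N d m ≤ K * m) :
    Good (av N m : Measure (Om d)) K where
  prob := prob_av hm
  int := fun φ hφ => integrable_av hm hφ
  trans := fun z φ hφ => by
    have h1 : ∀ y, Loc (fun f : Om d => (fun y => f (y + z) - z 0) y) := fun y =>
      (loc_eval (y + z)).comp (· - z 0)
    rw [integral_av hφ, integral_av (φ := fun f => φ (fun y => f (y + z) - z 0))
      (hφ.comp (measurable_of_loc h1))]
    congr 1
    refine Finset.sum_congr rfl fun n _ => ?_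
    exact integral_act (Sym.trans (N := N) z) n hφ
  refl := fun i hi φ hφ => by
    have h1 : ∀ y, Loc (fun f : Om d => (fun y => f (refl i y)) y) := fun y =>
      loc_eval (refl i y)
    rw [integral_av hφ, integral_av (φ := fun f => φ (fun y => f (refl i y)))
      (hφ.comp (measurable_of_loc h1))]
    congr 1
    refine Finset.sum_congr rfl fun n _ => ?_
    have := integral_act (Sym.refl (N := N) i hi) n hφ
    simpa only [refl_act] using this
  incr := fun y => by
    rw [integral_av ((loc_newh y).comp₂ (loc_eval y) (fun a b : ℤ => (a : ℝ) - b)).measurable]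
    simp only [← en_succ]
    rw [← Finset.mul_sum, Finset.sum_range_sub, en_zero, sub_zero]
    have hm' : (0 : ℝ) < m := by exact_mod_cast hm
    rw [inv_mul_le_iff₀ hm']
    linarith

/-- The approximating laws. -/
theorem exists_approx (N : ℕ) [NeZero N] {θ : ℝ} (hθ : 0 < θ) :
    ∃ (ρ ρ' : Measure (Om d)) (ε : ℝ), Good ρ (2 * (kap d θ / θ)) ∧ Good ρ' (2 * (kap d θ / θ)) ∧
      0 ≤ ε ∧ ε ≤ 1 / N ∧ ε * ∫ f, ((f 0 : ℤ) : ℝ) ∂ρ' ≤ kap d θ / θ ∧
      ∀ φ : Om d → ℝ, Measurable φ → ∑ c : Cl N d, ∫ f, (φ (updT c f) - φ f) ∂ρ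
        = ε * (∫ f, φ f ∂ρ' - φ f0) := by
  obtain ⟨m, hm1, hm2⟩ := exists_time (N := N) (d := d) hθ
  have hkc0 : (0 : ℝ) < Fintype.card (Cl N d) := kc_pos
  have hN0 : (0 : ℝ) < N := by exact_mod_cast Nat.pos_of_ne_zero (NeZero.ne N)
  have hm1' : (N : ℝ) * Fintype.card (Cl N d) ≤ m := by exact_mod_cast hm1
  have hm0' : (0 : ℝ) < m := lt_of_lt_of_le (by positivity) hm1'
  have hm0 : 0 < m := by exact_mod_cast hm0'
  have hK : 0 ≤ kap d θ / θ := div_nonneg (kap_nonneg hθ.le) hθ.le
  have h3 := en_le (N := N) (d := d) hθ m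
  have h3' : Fintype.card (Cl N d) * en N d m ≤ (kap d θ / θ) * m := by
    rw [le_div_iff₀ hkc0] at h3
    linarith
  refine ⟨av N m, Mn N m, Fintype.card (Cl N d) / m, ?_, good_Mn hm2, by positivity, ?_, ?_,
    fun φ hφ => sum_updT_av hm0 hφ⟩
  · refine good_av hm0 (h3'.trans ?_)
    nlinarith
  · rw [div_le_div_iff₀ hm0' hN0]
    linarith
  · show _ / _ * en N d m ≤ _
    rw [div_mul_eq_mul_div, div_le_iff₀ hm0']
    exact h3'

end

end Pool.Agent.W833.BD
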