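import Pool.Agent.W833.BD.Torus

/-! Moment bounds for the class dynamics. -/

namespace Pool.Agent.W833.BD

set_option linter.unusedSectionVars false

open MeasureTheory Filter Topology
open scoped ENNReal

variable {d : ℕ} [NeZero d]

/-- the constant of the exponential bound -/
noncomputable def kap (d : ℕ) (θ : ℝ) : ℝ := 2 * Real.exp θ + Real.exp (-θ) + 2 * d - 3

lemma kap_nonneg {θ : ℝ} (hθ : 0 ≤ θ) : 0 ≤ kap d θ := by
  have h1 : 1 ≤ Real.exp θ := Real.one_le_exp hθ
  have h2 := Real.exp_pos (-θ)
  have h3 : (1 : ℝ) ≤ d := by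
    have : 1 ≤ d := Nat.one_le_iff_ne_zero.2 (NeZero.ne d)
    exact_mod_cast this
  unfold kap
  linarith

lemma sum_exp_stp (θ : ℝ) : ∑ p : Fin d × Bool, Real.exp (θ * (stp p 0 : ℤ))
    = Real.exp θ + Real.exp (-θ) + 2 * d - 2 := by
  rw [Fintype.sum_prod_type]
  have h : ∀ i : Fin d, ∑ b : Bool, Real.exp (θ * ((stp (i, b) 0 : ℤ) : ℝ))
      = 2 + if i = 0 then (Real.exp θ + Real.exp (-θ) - 2) else 0 := by
    intro i
    rw [Fintype.sum_bool]
    by_cases hi : i = 0
    · subst hi
      simp [stp]
    · have : (0 : Fin d) ≠ i := Ne.symm hi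
      simp [stp, hi]
      norm_num
  simp only [h]
  rw [Finset.sum_add_distrib, Finset.sum_ite_eq' Finset.univ (0 : Fin d)]
  simp
  ring

section

lemma integral_add_c {ρ : Measure (Om d)} [IsProbabilityMeasure ρ] {φ : Om d → ℝ}
    (h : Integrable φ ρ) (c : ℝ) : ∫ f, (φ f + c) ∂ρ = ∫ f, φ f ∂ρ + c := by
  rw [integral_add h (integrable_const c)]
  simp

variable {N : ℕ} [NeZero N]

lemma sum_updT_eval (G : ℤ → ℝ) (y : V d) (n : ℕ) :
    ∑ c : Cl N d, ∫ f, G (updT c f y) ∂(Mn N n : Measure (Om d))
      = Fintype.card (Cl N d) * ∫ f, G (f y) ∂(Mn N n : Measure (Om d))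
        + (∫ f, G (newh f y) ∂(Mn N n : Measure (Om d))
          - ∫ f, G (f y) ∂(Mn N n : Measure (Om d))) := by
  have h : ∀ c : Cl N d, ∫ f, G (updT c f y) ∂(Mn N n : Measure (Om d))
      = ∫ f, G (f y) ∂(Mn N n : Measure (Om d)) + if c = cls N y then
        (∫ f, G (newh f y) ∂(Mn N n : Measure (Om d))
          - ∫ f, G (f y) ∂(Mn N n : Measure (Om d))) else 0 := by
    intro c
    by_cases hc : c = cls N y
    · subst hc
      simp [updT]
    · have : ¬ cls N y = c := fun h => hc h.symm
      simp [updT, hc, this]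
  simp only [h]
  rw [Finset.sum_add_distrib, Finset.sum_ite_eq' Finset.univ (cls N y)]
  simp

lemma exp_bound {θ : ℝ} (n : ℕ) : ∀ y : V d,
    ∫ f, Real.exp (θ * f y) ∂(Mn N n : Measure (Om d))
      ≤ (1 + kap d θ / Fintype.card (Cl N d)) ^ n * Real.exp (θ * y 0) := by
  induction n with
  | zero =>
    intro y
    rw [integral_Mn_zero (φ := fun f => Real.exp (θ * f y))]
    simp [f0]
  | succ n ih =>
    intro y
    set m := (1 + kap d θ / Fintype.card (Cl N d)) ^ n with hm
    set kc : ℝ := (Fintype.card (Cl N d) : ℝ) with hkc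
    have hkc0 : 0 < kc := kc_pos
    have hkc1 : 1 ≤ kc := by
      have : 1 ≤ Fintype.card (Cl N d) := Fintype.card_pos
      rw [hkc]
      exact_mod_cast this
    have hint : ∀ z : V d, Integrable (fun f : Om d => Real.exp (θ * f z)) (Mn N n) := fun z =>
      integrable_Mn n ((loc_eval z).comp (fun k : ℤ => Real.exp (θ * k))).measurable
    rw [integral_Mn_succ n (φ := fun f => Real.exp (θ * f y))
      ((loc_eval y).comp (fun k : ℤ => Real.exp (θ * k))).measurable,
      sum_updT_eval (fun k : ℤ => Real.exp (θ * k)) y n]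
    have h1 : ∫ f, Real.exp (θ * newh f y) ∂(Mn N n : Measure (Om d))
        ≤ m * Real.exp (θ * y 0) * (2 * Real.exp θ + Real.exp (-θ) + 2 * d - 2) := by
      calc ∫ f, Real.exp (θ * newh f y) ∂(Mn N n : Measure (Om d))
          ≤ ∫ f, (Real.exp (θ * (f y + 1)) + ∑ p, Real.exp (θ * f (y + stp p)))
              ∂(Mn N n : Measure (Om d)) := by
            refine integral_mono ?_ ?_ ?_
            · exact integrable_Mn n ((loc_newh y).comp (fun k : ℤ => Real.exp (θ * k))).measurable
            · refine Integrable.add ?_ ?_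
              · exact integrable_Mn n
                  ((loc_eval y).comp (fun k : ℤ => Real.exp (θ * (k + 1)))).measurable
              · exact integrable_finsetSum _ fun p _ => hint _
            · intro f
              exact exp_newh_le θ f y
        _ = Real.exp θ * ∫ f, Real.exp (θ * f y) ∂(Mn N n : Measure (Om d))
            + ∑ p, ∫ f, Real.exp (θ * f (y + stp p)) ∂(Mn N n : Measure (Om d)) := by
            rw [integral_add, integral_finsetSum]
            · congr 1
              rw [← integral_const_mul]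
              congr 1
              funext f
              rw [← Real.exp_add]
              congr 1
              ring
            · exact fun p _ => hint _
            · exact integrable_Mn n
                  ((loc_eval y).comp (fun k : ℤ => Real.exp (θ * (k + 1)))).measurable
            · exact integrable_finsetSum _ fun p _ => hint _
        _ ≤ Real.exp θ * (m * Real.exp (θ * y 0))
            + ∑ p : Fin d × Bool, m * Real.exp (θ * (y + stp p) 0) := by
            refine add_le_add ?_ ?_
            · exact mul_le_mul_of_nonneg_left (ih y) (Real.exp_pos _).le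
            · exact Finset.sum_le_sum fun p _ => by exact_mod_cast ih (y + stp p)
        _ = m * Real.exp (θ * y 0) * (2 * Real.exp θ + Real.exp (-θ) + 2 * d - 2) := by
            have : ∀ p : Fin d × Bool, m * Real.exp (θ * (((y + stp p) 0 : ℤ) : ℝ))
                = m * Real.exp (θ * y 0) * Real.exp (θ * (stp p 0 : ℤ)) := by
              intro p
              rw [mul_assoc, ← Real.exp_add]
              congr 2
              simp only [Pi.add_apply]
              push_cast
              ring
            simp only [this]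
            rw [← Finset.mul_sum, sum_exp_stp]
            ring
    have h2 := ih y
    have h3 : kc⁻¹ * (kc * ∫ f, Real.exp (θ * f y) ∂(Mn N n : Measure (Om d))
        + (∫ f, Real.exp (θ * newh f y) ∂(Mn N n : Measure (Om d))
          - ∫ f, Real.exp (θ * f y) ∂(Mn N n : Measure (Om d))))
        ≤ kc⁻¹ * ((kc - 1) * (m * Real.exp (θ * y 0))
          + m * Real.exp (θ * y 0) * (2 * Real.exp θ + Real.exp (-θ) + 2 * d - 2)) := by
      refine mul_le_mul_of_nonneg_left ?_ (by positivity)
      have h4 : (kc - 1) * ∫ f, Real.exp (θ * f y) ∂(Mn N n : Measure (Om d))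
          ≤ (kc - 1) * (m * Real.exp (θ * y 0)) :=
        mul_le_mul_of_nonneg_left h2 (by linarith)
      linarith
    refine h3.trans (le_of_eq ?_)
    rw [pow_succ, ← hm]
    unfold kap
    field_simp
    ring

/-- the mean height at the origin -/
noncomputable def en (N : ℕ) [NeZero N] (d : ℕ) [NeZero d] (n : ℕ) : ℝ :=
  ∫ f, ((f 0 : ℤ) : ℝ) ∂(Mn N n : Measure (Om d))

lemma integral_eval (n : ℕ) (y : V d) :
    ∫ f, ((f y : ℤ) : ℝ) ∂(Mn N n : Measure (Om d)) = en N d n + y 0 := by
  have h := integral_act (Sym.trans (N := N) y) n (φ := fun f => ((f 0 : ℤ) : ℝ))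
    ((loc_eval 0).comp (fun k : ℤ => (k : ℝ))).measurable
  have h2 : ∀ f : Om d, (((Sym.trans (N := N) y).act f 0 : ℤ) : ℝ) = (f y : ℝ) + (- (y 0 : ℝ)) := by
    intro f
    simp [Sym.act, Sym.trans]
  simp only [h2] at h
  rw [integral_add_c] at h
  · unfold en
    rw [← h]
    simp
  · exact integrable_Mn n ((loc_eval y).comp (fun k : ℤ => (k : ℝ))).measurable

lemma en_zero : en N d 0 = 0 := by
  unfold en
  rw [integral_Mn_zero (φ := fun f => ((f 0 : ℤ) : ℝ))]
  simp [f0]

lemma en_succ (n : ℕ) (y : V d) : Fintype.card (Cl N d) * (en N d (n + 1) - en N d n)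
    = ∫ f, ((newh f y : ℝ) - f y) ∂(Mn N n : Measure (Om d)) := by
  have h1 := integral_eval (N := N) (n + 1) y
  have h2 := integral_eval (N := N) n y
  rw [integral_Mn_succ n (φ := fun f => ((f y : ℤ) : ℝ))
    ((loc_eval y).comp (fun k : ℤ => (k : ℝ))).measurable,
    sum_updT_eval (fun k : ℤ => (k : ℝ)) y n] at h1
  rw [integral_sub]
  · have hkc0 : (0 : ℝ) < Fintype.card (Cl N d) := kc_pos
    rw [h2] at h1 ⊢
    have h3 : en N d (n + 1) = (Fintype.card (Cl N d) : ℝ)⁻¹ *
      (Fintype.card (Cl N d) * (en N d n + y 0) +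
        (∫ f, (newh f y : ℝ) ∂(Mn N n : Measure (Om d)) - (en N d n + y 0))) - y 0 := by
      rw [h1]
      ring
    rw [h3]
    field_simp
    ring
  · exact integrable_Mn n ((loc_newh y).comp (fun k : ℤ => (k : ℝ))).measurable
  · exact integrable_Mn n ((loc_eval y).comp (fun k : ℤ => (k : ℝ))).measurable

lemma en_mono (n : ℕ) : en N d n ≤ en N d (n + 1) := by
  have h1 := en_succ (N := N) (d := d) n 0
  have h2 : 0 ≤ ∫ f, ((newh f 0 : ℝ) - f 0) ∂(Mn N n : Measure (Om d)) := by
    refine integral_nonneg fun f => ?_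
    have : (f 0 : ℝ) ≤ newh f 0 := by exact_mod_cast (lt_newh f 0).le
    simp only [Pi.zero_apply]
    linarith
  rw [← h1] at h2
  have hkc0 : (0 : ℝ) < Fintype.card (Cl N d) := kc_pos
  have := nonneg_of_mul_nonneg_right h2 hkc0
  linarith

lemma en_nonneg (n : ℕ) : 0 ≤ en N d n := by
  induction n with
  | zero => rw [en_zero]
  | succ n ih => exact ih.trans (en_mono n)

lemma en_le {θ : ℝ} (hθ : 0 < θ) (n : ℕ) :
    en N d n ≤ n * (kap d θ / θ) / Fintype.card (Cl N d) := by
  have hkc0 : (0 : ℝ) < Fintype.card (Cl N d) := kc_pos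
  have hk := kap_nonneg (d := d) hθ.le
  set s : ℝ := n * (kap d θ / Fintype.card (Cl N d)) with hs
  have h1 : θ * en N d n ≤ ∫ f, (Real.exp (-s) * Real.exp (θ * f 0) + (s - 1))
      ∂(Mn N n : Measure (Om d)) := by
    unfold en
    rw [← integral_const_mul]
    refine integral_mono ?_ ?_ ?_
    · exact (integrable_Mn n ((loc_eval 0).comp (fun k : ℤ => (k : ℝ))).measurable).const_mul _
    · exact integrable_Mn n ((loc_eval 0).comp
        (fun k : ℤ => Real.exp (-s) * Real.exp (θ * k) + (s - 1))).measurable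
    · intro f
      have := Real.add_one_le_exp (θ * (f 0 : ℝ) - s)
      have h2 : Real.exp (-s) * Real.exp (θ * f 0) = Real.exp (θ * (f 0 : ℝ) - s) := by
        rw [← Real.exp_add]
        congr 1
        ring
      simp only [h2]
      linarith
  rw [integral_add_c, integral_const_mul] at h1
  · have h3 := exp_bound (N := N) (θ := θ) n (0 : V d)
    have h4 : (1 + kap d θ / Fintype.card (Cl N d)) ^ n ≤ Real.exp s := by
      calc (1 + kap d θ / Fintype.card (Cl N d)) ^ n
          ≤ (Real.exp (kap d θ / Fintype.card (Cl N d))) ^ n := by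
            refine pow_le_pow_left₀ (by positivity) ?_ n
            rw [add_comm]
            exact Real.add_one_le_exp _
        _ = Real.exp s := by
            rw [← Real.exp_nat_mul]
    simp only [Pi.zero_apply, Int.cast_zero, mul_zero, Real.exp_zero, mul_one] at h3
    have h5 : Real.exp (-s) * ∫ f, Real.exp (θ * f 0) ∂(Mn N n : Measure (Om d)) ≤ 1 := by
      calc Real.exp (-s) * ∫ f, Real.exp (θ * f 0) ∂(Mn N n : Measure (Om d))
          ≤ Real.exp (-s) * Real.exp s :=
            mul_le_mul_of_nonneg_left (h3.trans h4) (Real.exp_pos _).le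
        _ = 1 := by rw [← Real.exp_add]; simp
    have h6 : θ * en N d n ≤ s := by
      linarith
    rw [hs] at h6
    have : n * (kap d θ / θ) / (Fintype.card (Cl N d) : ℝ)
        = (n * (kap d θ / Fintype.card (Cl N d))) / θ := by
      field_simp
    rw [this, le_div_iff₀ hθ]
    linarith
  · exact integrable_Mn n ((loc_eval 0).comp
        (fun k : ℤ => Real.exp (-s) * Real.exp (θ * k))).measurable

/-- a good time: the increment of the mean is small -/
lemma exists_time {θ : ℝ} (hθ : 0 < θ) : ∃ m : ℕ, N * Fintype.card (Cl N d) ≤ m ∧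
    Fintype.card (Cl N d) * (en N d (m + 1) - en N d m) ≤ 2 * (kap d θ / θ) := by
  by_contra hcon
  push Not at hcon
  set kc := Fintype.card (Cl N d) with hkc
  have hkc0 : (0 : ℝ) < kc := kc_pos
  set K := kap d θ / θ with hK
  have hsum : ∀ j : ℕ, j * (2 * K / kc) ≤ en N d (N * kc + j) - en N d (N * kc) := by
    intro j
    induction j with
    | zero => simp
    | succ j ih =>
      have h1 := hcon (N * kc + j) (by omega)
      have h2 : 2 * K / kc ≤ en N d (N * kc + j + 1) - en N d (N * kc + j) := by
        rw [div_le_iff₀ hkc0]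
        linarith
      push_cast
      rw [← add_assoc]
      linarith
  have h3 := hsum (N * kc)
  have h4 := en_le (N := N) (d := d) hθ (N * kc + N * kc)
  have h5 := en_nonneg (N := N) (d := d) (N * kc)
  have hNk : (0 : ℝ) < N * kc := by
    have : (0 : ℝ) < N := by exact_mod_cast Nat.pos_of_ne_zero (NeZero.ne N)
    positivity
  have h6 : ((N * kc : ℕ) : ℝ) * (2 * K / kc) = 2 * N * K := by
    push_cast
    field_simp
  have h7 : ((N * kc + N * kc : ℕ) : ℝ) * K / kc = 2 * N * K := by
    push_cast
    field_simp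
    ring
  rw [h6] at h3
  rw [← hkc, ← hK, h7] at h4
  -- strictness at the last step
  have hN1 : 1 ≤ N * kc := by exact_mod_cast hNk
  obtain ⟨j, hj⟩ : ∃ j, N * kc = j + 1 := ⟨N * kc - 1, by omega⟩
  have h8 := hsum j
  have h9 := hcon (N * kc + j) (by omega)
  have h10 : 2 * K / kc < en N d (N * kc + j + 1) - en N d (N * kc + j) := by
    rw [div_lt_iff₀ hkc0]
    linarith
  have h11 : ((N * kc : ℕ) : ℝ) * (2 * K / kc) = j * (2 * K / kc) + 2 * K / kc := by
    rw [hj]
    push_cast
    ring
  have h12 : N * kc + j + 1 = N * kc + N * kc := by omega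
  rw [h12] at h10
  rw [h6] at h11
  linarith

end

end Pool.Agent.W833.BD
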