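import Pool.Agent.W833.BD.Nbr

/-! The exploration chain and its Lyapunov function. -/

namespace Pool.Agent.W833.BD

set_option linter.unusedSectionVars false

variable {d : ℕ} [NeZero d]

/-- average over a finite set of letters of a function of the next state -/
noncomputable def Av {σ : Type*} (Λ : Finset (V d)) (tr : σ → V d → σ) (g : σ → ℝ) (s : σ) : ℝ :=
  ((Λ.card : ℝ))⁻¹ * ∑ x ∈ Λ, g (tr s x)

lemma Av_mono_on {σ : Type*} {Λ : Finset (V d)} {tr : σ → V d → σ} (I : σ → Prop)
    (hI : ∀ s x, x ∈ Λ → I s → I (tr s x)) {g h : σ → ℝ} (hgh : ∀ s, I s → g s ≤ h s) (n : ℕ) :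
    ∀ s, I s → (Av Λ tr)^[n] g s ≤ (Av Λ tr)^[n] h s := by
  induction n with
  | zero => exact hgh
  | succ n ih =>
    intro s hs
    rw [Function.iterate_succ_apply', Function.iterate_succ_apply']
    unfold Av
    refine mul_le_mul_of_nonneg_left ?_ (by positivity)
    exact Finset.sum_le_sum fun x hx => ih _ (hI s x hx hs)

lemma Av_mono {σ : Type*} {Λ : Finset (V d)} {tr : σ → V d → σ} {g h : σ → ℝ}
    (hgh : ∀ s, g s ≤ h s) (n : ℕ) (s : σ) : (Av Λ tr)^[n] g s ≤ (Av Λ tr)^[n] h s :=
  Av_mono_on (fun _ => True) (fun _ _ _ _ => trivial) (fun s _ => hgh s) n s trivial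

lemma Av_add {σ : Type*} {Λ : Finset (V d)} {tr : σ → V d → σ} (g h : σ → ℝ) (n : ℕ) (s : σ) :
    (Av Λ tr)^[n] (fun s => g s + h s) s = (Av Λ tr)^[n] g s + (Av Λ tr)^[n] h s := by
  induction n generalizing s with
  | zero => rfl
  | succ n ih =>
    rw [Function.iterate_succ_apply', Function.iterate_succ_apply', Function.iterate_succ_apply']
    unfold Av
    rw [← mul_add, ← Finset.sum_add_distrib]
    congr 1
    exact Finset.sum_congr rfl fun x _ => ih _

lemma Av_const_mul {σ : Type*} {Λ : Finset (V d)} {tr : σ → V d → σ} (c : ℝ) (g : σ → ℝ) (n : ℕ)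
    (s : σ) : (Av Λ tr)^[n] (fun s => c * g s) s = c * (Av Λ tr)^[n] g s := by
  induction n generalizing s with
  | zero => rfl
  | succ n ih =>
    rw [Function.iterate_succ_apply', Function.iterate_succ_apply']
    have h1 : Av Λ tr ((Av Λ tr)^[n] fun s => c * g s) s
        = ((Λ.card : ℝ))⁻¹ * ∑ x ∈ Λ, c * (Av Λ tr)^[n] g (tr s x) := by
      unfold Av at ih ⊢
      rw [Finset.sum_congr rfl fun x _ => ih _]
    rw [h1, ← Finset.mul_sum, mul_left_comm]
    rfl

lemma Av_const {σ : Type*} {Λ : Finset (V d)} (hΛ : Λ.Nonempty) {tr : σ → V d → σ} (c : ℝ) (n : ℕ)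
    (s : σ) : (Av Λ tr)^[n] (fun _ => c) s = c := by
  induction n generalizing s with
  | zero => rfl
  | succ n ih =>
    rw [Function.iterate_succ_apply']
    unfold Av at ih ⊢
    rw [Finset.sum_congr rfl fun x _ => ih _]
    rw [Finset.sum_const, nsmul_eq_mul, ← mul_assoc, inv_mul_cancel₀, one_mul]
    exact_mod_cast hΛ.card_pos.ne'

/-- the state of the exploration chain: `M` the level, `C` the set of sites at the top,
`S` the number of effective steps -/
structure St (d : ℕ) where
  M : ℤ
  C : Finset (V d)
  S : ℕ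

/-- the shift: `0` (`b = false`, stays) or `e_0` (`b = true`, displacement) -/
def sv (b : Bool) : V d := if b then Pi.single 0 1 else 0

open Classical in
/-- one step of the exploration chain -/
noncomputable def stepC (b : Bool) (st : St d) (x : V d) : St d :=
  if st.C = ∅ then (if x = 0 then ⟨1, {0}, st.S + 1⟩ else st)
  else if x - sv b ∈ st.C then ⟨st.M + 1, {x}, st.S + 1⟩
  else if x ∈ hn st.C \ st.C then ⟨st.M, insert x st.C, st.S + 1⟩
  else st

/-- the invariant of the chain -/
structure Inv (b : Bool) (st : St d) : Prop where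
  empty : st.C = ∅ → st.M = 0
  level : ∀ y ∈ st.C, y 0 = if b then st.M - 1 else 0
  size : ∀ y ∈ st.C, ∀ i, |y i| ≤ st.S
  card : st.C.card ≤ st.S

lemma sv_apply_abs_le (b : Bool) (i : Fin d) : |(sv b : V d) i| ≤ 1 := by
  unfold sv
  cases b
  · simp
  · simp only [if_true]
    by_cases h : i = 0
    · subst h
      rw [Pi.single_eq_same]
      simp
    · rw [Pi.single_eq_of_ne h]
      simp

lemma sv_zero (b : Bool) : (sv b : V d) 0 = if b then 1 else 0 := by
  unfold sv
  cases b <;> simp

/-- the initial state -/
def st0 (d : ℕ) : St d := ⟨0, ∅, 0⟩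

lemma inv_st0 (b : Bool) : Inv b (st0 d) :=
  ⟨fun _ => rfl, by simp [st0], by simp [st0], by simp [st0]⟩

lemma inv_step {b : Bool} {st : St d} (h : Inv b st) (x : V d) : Inv b (stepC b st x) := by
  classical
  unfold stepC
  split_ifs with h1 h2 h3 h4
  · refine ⟨by simp, ?_, ?_, ?_⟩
    · intro y hy
      simp only [Finset.mem_singleton] at hy
      subst hy
      cases b <;> simp
    · intro y hy i
      simp only [Finset.mem_singleton] at hy
      subst hy
      simp
      positivity
    · simp
  · exact h
  · refine ⟨by simp, ?_, ?_, ?_⟩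
    · intro y hy
      simp only [Finset.mem_singleton] at hy
      subst hy
      have h5 := h.level _ h3
      have h6 : (sv b : V d) 0 = if b then 1 else 0 := sv_zero b
      simp only [Pi.sub_apply] at h5
      cases b
      · simp only [Bool.false_eq_true, if_false] at h5 h6 ⊢
        omega
      · simp only [if_true] at h5 h6 ⊢
        omega
    · intro y hy i
      simp only [Finset.mem_singleton] at hy
      subst hy
      have h5 := h.size _ h3 i
      have h6 := sv_apply_abs_le (d := d) b i
      simp only [Pi.sub_apply] at h5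
      rw [abs_le] at h5 h6 ⊢
      push_cast
      constructor <;> omega
    · simp
  · refine ⟨?_, ?_, ?_, ?_⟩
    · intro h5
      simp at h5
    · intro y hy
      rw [Finset.mem_insert] at hy
      rcases hy with rfl | hy
      · rw [Finset.mem_sdiff, mem_hn] at h4
        obtain ⟨⟨z, hz, p, hp, rfl⟩, -⟩ := h4
        have h5 := h.level z hz
        have h6 := stp_zero_of_hdirs hp
        simp only [Pi.add_apply, h6, add_zero]
        exact h5
      · exact h.level y hy
    · intro y hy i
      rw [Finset.mem_insert] at hy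
      push_cast
      rcases hy with rfl | hy
      · rw [Finset.mem_sdiff, mem_hn] at h4
        obtain ⟨⟨z, hz, p, hp, rfl⟩, -⟩ := h4
        have h5 := h.size z hz i
        have h6 := stp_apply_abs_le p i
        simp only [Pi.add_apply]
        rw [abs_le] at h5 h6 ⊢
        constructor <;> omega
      · have := h.size y hy i
        omega
    · rw [Finset.mem_sdiff] at h4
      have h5 := h.card
      show (insert x st.C).card ≤ st.S + 1
      rw [Finset.card_insert_of_notMem h4.2]
      omega
  · exact h

/-- the Lyapunov function -/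
noncomputable def Fl (φ : ℕ → ℝ) (B : ℝ) (st : St d) : ℝ :=
  if st.C = ∅ then -B else st.M + φ st.C.card

/-- Sum over the letters of the increments of the Lyapunov function. -/
lemma drift {b : Bool} {st : St d} (hI : Inv b st) {φ : ℕ → ℝ} {c B : ℝ} (hB : c ≤ 1 + B)
    (hc : 0 ≤ c) (hφ1 : φ 1 = 0) (hmono : Monotone φ) (hle : ∀ u, φ u ≤ 1)
    (hφ : ∀ u : ℕ, 1 ≤ u → c ≤ u * (1 - φ u) + (u * (2 * (d - 1 : ℕ) - u)) * (φ (u + 1) - φ u))
    {L : ℕ} (hL0 : 0 < L) :
    c * (1 - (st.S + 1) / L) ≤ ∑ x ∈ box d L, (Fl φ B (stepC b st x) - Fl φ B st) := by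
  classical
  have hL0' : (0 : ℝ) < L := by exact_mod_cast hL0
  -- all increments are nonnegative
  have hB' : 0 ≤ 1 + B := hc.trans hB
  have hnonneg : ∀ x, 0 ≤ Fl φ B (stepC b st x) - Fl φ B st := by
    intro x
    unfold stepC
    split_ifs with h1 h2 h3 h4
    · simp only [Fl, h1, if_true, Finset.singleton_ne_empty, if_false, Finset.card_singleton, hφ1]
      push_cast
      linarith
    · simp
    · simp only [Fl, h1, Finset.singleton_ne_empty, if_false, Finset.card_singleton, hφ1]
      push_cast
      have := hle st.C.card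
      linarith
    · rw [Finset.mem_sdiff] at h4
      simp only [Fl, h1, Finset.insert_ne_empty, if_false, Finset.card_insert_of_notMem h4.2]
      have := hmono (Nat.le_succ st.C.card)
      simp only [Nat.succ_eq_add_one] at this
      linarith
    · simp
  by_cases hL : (L : ℝ) < st.S + 1
  · -- outside
    refine le_trans ?_ (Finset.sum_nonneg fun x _ => hnonneg x)
    apply mul_nonpos_of_nonneg_of_nonpos hc
    rw [sub_nonpos, le_div_iff₀ hL0']
    linarith
  · push Not at hL
    have hLn : st.S + 1 ≤ L := by exact_mod_cast hL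
    have hc1 : c * (1 - (st.S + 1) / L) ≤ c := by
      have : 0 ≤ ((st.S : ℝ) + 1) / L := by positivity
      nlinarith
    refine hc1.trans ?_
    by_cases hC : st.C = ∅
    · have h0 : (0 : V d) ∈ box d L := by
        rw [mem_box]
        intro i
        simp
      refine le_trans ?_ (Finset.single_le_sum (fun x _ => hnonneg x) h0)
      unfold stepC
      simp only [hC, if_true, Fl, Finset.singleton_ne_empty, if_false, Finset.card_singleton, hφ1]
      push_cast
      linarith
    · set u := st.C.card with hu
      have hu1 : 1 ≤ u := Finset.card_pos.2 (Finset.nonempty_iff_ne_empty.2 hC)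
      set A1 := st.C.image (fun y => y + sv b) with hA1
      set A2 := hn st.C \ st.C with hA2
      have hdis : Disjoint A1 A2 := by
        rw [Finset.disjoint_left]
        intro x hx1 hx2
        rw [hA1, Finset.mem_image] at hx1
        obtain ⟨y, hy, rfl⟩ := hx1
        rw [hA2, Finset.mem_sdiff, mem_hn] at hx2
        obtain ⟨⟨z, hz, p, hp, hzp⟩, hx3⟩ := hx2
        cases b
        · apply hx3
          simpa [sv] using hy
        · have h1 := hI.level y hy
          have h2 := hI.level z hz
          have h3 := congrFun hzp 0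
          simp only [Pi.add_apply, stp_zero_of_hdirs hp, sv_zero] at h3
          simp only [if_true] at h1 h2 h3
          omega
      have hsub : A1 ∪ A2 ⊆ box d L := by
        intro x hx
        rw [mem_box]
        intro i
        rw [Finset.mem_union] at hx
        rcases hx with hx | hx
        · rw [hA1, Finset.mem_image] at hx
          obtain ⟨y, hy, rfl⟩ := hx
          have h1 := hI.size y hy i
          have h2 := sv_apply_abs_le (d := d) b i
          simp only [Pi.add_apply]
          rw [abs_le] at h1 h2 ⊢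
          constructor <;> omega
        · rw [hA2, Finset.mem_sdiff, mem_hn] at hx
          obtain ⟨⟨z, hz, p, hp, rfl⟩, -⟩ := hx
          have h1 := hI.size z hz i
          have h2 := stp_apply_abs_le p i
          simp only [Pi.add_apply]
          rw [abs_le] at h1 h2 ⊢
          constructor <;> omega
      have hsum : ∑ x ∈ A1, (Fl φ B (stepC b st x) - Fl φ B st)
          + ∑ x ∈ A2, (Fl φ B (stepC b st x) - Fl φ B st)
          ≤ ∑ x ∈ box d L, (Fl φ B (stepC b st x) - Fl φ B st) := by
        rw [← Finset.sum_union hdis]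
        exact Finset.sum_le_sum_of_subset_of_nonneg hsub fun x _ _ => hnonneg x
      have h1 : ∑ x ∈ A1, (Fl φ B (stepC b st x) - Fl φ B st) = u * (1 - φ u) := by
        have : ∀ x ∈ A1, Fl φ B (stepC b st x) - Fl φ B st = 1 - φ u := by
          intro x hx
          have hx' : x - sv b ∈ st.C := by
            rw [hA1, Finset.mem_image] at hx
            obtain ⟨y, hy, rfl⟩ := hx
            simpa using hy
          unfold stepC
          simp only [hC, hx', if_true, if_false, Fl, Finset.singleton_ne_empty,
            Finset.card_singleton, hφ1]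
          push_cast
          ring
        rw [Finset.sum_congr rfl this, Finset.sum_const, nsmul_eq_mul, hA1,
          Finset.card_image_of_injective _ (fun a b h => add_right_cancel h)]
      have h2 : ∑ x ∈ A2, (Fl φ B (stepC b st x) - Fl φ B st) = A2.card * (φ (u + 1) - φ u) := by
        have : ∀ x ∈ A2, Fl φ B (stepC b st x) - Fl φ B st = φ (u + 1) - φ u := by
          intro x hx
          have hx' : ¬ (x - sv b ∈ st.C) := by
            intro hx'
            refine (Finset.disjoint_left.1 hdis) ?_ hx
            rw [hA1, Finset.mem_image]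
            exact ⟨_, hx', by simp⟩
          have hx'' : x ∈ hn st.C \ st.C := hx
          have hx3 : x ∉ st.C := (Finset.mem_sdiff.1 hx'').2
          unfold stepC
          simp only [hC, hx', hx'', if_true, if_false, Fl, Finset.insert_ne_empty,
            Finset.card_insert_of_notMem hx3]
          ring
        rw [Finset.sum_congr rfl this, Finset.sum_const, nsmul_eq_mul]
      have h3 := card_hn_sdiff_ge st.C
      have h4 : 0 ≤ φ (u + 1) - φ u := sub_nonneg.2 (hmono (Nat.le_succ u))
      have h5 := mul_le_mul_of_nonneg_right h3 h4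
      have h6 := hφ u hu1
      rw [h1, h2] at hsum
      linarith

/-- growth of the number of effective steps -/
lemma driftS {b : Bool} {st : St d} (hI : Inv b st) (L : ℕ) :
    ∑ x ∈ box d L, (((stepC b st x).S : ℝ) - st.S) ≤ (2 * d + 1) * (st.S + 1) := by
  classical
  by_cases hC : st.C = ∅
  · have : ∀ x ∈ box d L, (((stepC b st x).S : ℝ) - st.S) ≤ if x = 0 then 1 else 0 := by
      intro x _
      unfold stepC
      simp only [hC, if_true]
      split_ifs <;> simp
    refine (Finset.sum_le_sum this).trans ?_
    rw [Finset.sum_ite_eq']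
    have h2 : (1 : ℝ) ≤ (2 * d + 1) * (st.S + 1) := by
      have : (0 : ℝ) ≤ d := by positivity
      have : (0 : ℝ) ≤ st.S := by positivity
      nlinarith
    split_ifs
    · exact h2
    · exact zero_le_one.trans h2
  · set A1 := st.C.image (fun y => y + sv b) with hA1
    set A2 := hn st.C with hA2
    have : ∀ x ∈ box d L, (((stepC b st x).S : ℝ) - st.S) ≤ if x ∈ A1 ∪ A2 then 1 else 0 := by
      intro x _
      unfold stepC
      simp only [hC, if_false]
      split_ifs with h1 h2 h3 h4 h5
      · simp
      · exfalso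
        apply h2
        rw [Finset.mem_union, hA1, Finset.mem_image]
        exact Or.inl ⟨_, h1, by simp⟩
      · simp
      · exfalso
        apply h4
        rw [Finset.mem_union]
        exact Or.inr (Finset.mem_sdiff.1 h3).1
      · simp
      · simp
    refine (Finset.sum_le_sum this).trans ?_
    rw [← Finset.sum_filter, Finset.sum_const, nsmul_eq_mul, mul_one]
    have h1 : ((box d L).filter (fun x => x ∈ A1 ∪ A2)).card ≤ (A1 ∪ A2).card := by
      apply Finset.card_le_card
      intro x hx
      exact (Finset.mem_filter.1 hx).2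
    have h2 : (A1 ∪ A2).card ≤ st.C.card + st.C.card * (2 * (d - 1)) := by
      refine (Finset.card_union_le _ _).trans ?_
      have h4 : A2.card ≤ st.C.card * (2 * (d - 1)) := card_hn_le st.C
      have h3 : A1.card ≤ st.C.card := Finset.card_image_le
      omega
    have h3 : (st.C.card + st.C.card * (2 * (d - 1))) ≤ (2 * d + 1) * (st.S + 1) := by
      have := hI.card
      have h4 : 2 * (d - 1) ≤ 2 * d := by omega
      nlinarith
    exact_mod_cast (h1.trans h2).trans h3

lemma Av_S_le {b : Bool} (L n : ℕ) : ∀ st : St d, Inv b st →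
    (Av (box d L) (stepC b))^[n] (fun st => (st.S : ℝ) + 1) st
      ≤ (1 + (2 * d + 1) / (box d L).card) ^ n * (st.S + 1) := by
  induction n with
  | zero => intro st _; simp
  | succ n ih =>
    intro st hst
    rw [Function.iterate_succ_apply']
    have hcard : (0 : ℝ) < (box d L).card := by exact_mod_cast card_box_pos L
    have hr : (0 : ℝ) ≤ 1 + (2 * d + 1) / (box d L).card := by positivity
    calc Av (box d L) (stepC b) ((Av (box d L) (stepC b))^[n] fun st => (st.S : ℝ) + 1) st
        ≤ ((box d L).card : ℝ)⁻¹ * ∑ x ∈ box d L,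
            (1 + (2 * d + 1) / ((box d L).card : ℝ)) ^ n * ((stepC b st x).S + 1) := by
          rw [Av]
          refine mul_le_mul_of_nonneg_left ?_ (by positivity)
          exact Finset.sum_le_sum fun x _ => ih _ (inv_step hst x)
      _ = (1 + (2 * d + 1) / ((box d L).card : ℝ)) ^ n * (((box d L).card : ℝ)⁻¹ *
            ∑ x ∈ box d L, (((stepC b st x).S : ℝ) + 1)) := by
          rw [← Finset.mul_sum]
          ring
      _ ≤ (1 + (2 * d + 1) / ((box d L).card : ℝ)) ^ n *
            ((1 + (2 * d + 1) / (box d L).card) * (st.S + 1)) := by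
          refine mul_le_mul_of_nonneg_left ?_ (by positivity)
          have h1 : ∑ x ∈ box d L, (((stepC b st x).S : ℝ) + 1)
              = ∑ x ∈ box d L, (((stepC b st x).S : ℝ) - st.S) + (box d L).card * (st.S + 1) := by
            rw [← nsmul_eq_mul, ← Finset.sum_const, ← Finset.sum_add_distrib]
            exact Finset.sum_congr rfl fun x _ => by ring
          have h2 := driftS hst L
          rw [h1, inv_mul_le_iff₀ hcard]
          have h3 : ((box d L).card : ℝ) * ((1 + (2 * d + 1) / (box d L).card) * (st.S + 1))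
              = (box d L).card * (st.S + 1) + (2 * d + 1) * (st.S + 1) := by
            field_simp
          rw [h3]
          linarith
      _ = _ := by ring

/-- Linear growth of the Lyapunov function. -/
lemma Av_F_ge {b : Bool} {φ : ℕ → ℝ} {c B : ℝ} (hB : c ≤ 1 + B)
    (hc : 0 ≤ c) (hφ1 : φ 1 = 0) (hmono : Monotone φ) (hle : ∀ u, φ u ≤ 1)
    (hφ : ∀ u : ℕ, 1 ≤ u → c ≤ u * (1 - φ u) + (u * (2 * (d - 1 : ℕ) - u)) * (φ (u + 1) - φ u))
    {L : ℕ} (hL0 : 0 < L) (n : ℕ) : ∀ st : St d, Inv b st →
    Fl φ B st + n * (c / (box d L).card) - (c / ((box d L).card * L)) *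
      ((∑ k ∈ Finset.range n, (1 + (2 * d + 1) / ((box d L).card : ℝ)) ^ k) * (st.S + 1))
      ≤ (Av (box d L) (stepC b))^[n] (Fl φ B) st := by
  have hcard : (0 : ℝ) < (box d L).card := by exact_mod_cast card_box_pos L
  have hL0' : (0 : ℝ) < L := by exact_mod_cast hL0
  set r : ℝ := 1 + (2 * d + 1) / ((box d L).card : ℝ) with hr
  have hr0 : 0 ≤ r := by positivity
  induction n with
  | zero => intro st _; simp
  | succ n ih =>
    intro st hst
    rw [Function.iterate_succ_apply']
    set Q : ℝ := ∑ k ∈ Finset.range n, r ^ k with hQ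
    have hQ0 : 0 ≤ Q := Finset.sum_nonneg fun _ _ => by positivity
    have hQ1 : ∑ k ∈ Finset.range (n + 1), r ^ k = 1 + r * Q := by
      rw [Finset.sum_range_succ', hQ, Finset.mul_sum]
      simp only [pow_zero]
      rw [add_comm]
      congr 1
      exact Finset.sum_congr rfl fun k _ => by ring
    have h1 : ((box d L).card : ℝ)⁻¹ * ∑ x ∈ box d L,
        (Fl φ B (stepC b st x) + n * (c / (box d L).card) - (c / ((box d L).card * L)) *
          (Q * ((stepC b st x).S + 1)))
        ≤ Av (box d L) (stepC b) ((Av (box d L) (stepC b))^[n] (Fl φ B)) st := by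
      rw [Av]
      refine mul_le_mul_of_nonneg_left ?_ (by positivity)
      exact Finset.sum_le_sum fun x _ => ih _ (inv_step hst x)
    refine le_trans ?_ h1
    have h2 : ∑ x ∈ box d L, (Fl φ B (stepC b st x) + n * (c / (box d L).card) -
        (c / ((box d L).card * L)) * (Q * ((stepC b st x).S + 1)))
        = ∑ x ∈ box d L, (Fl φ B (stepC b st x) - Fl φ B st) - (c / ((box d L).card * L)) * Q *
          ∑ x ∈ box d L, (((stepC b st x).S : ℝ) - st.S) + (box d L).card *
          (Fl φ B st + n * (c / (box d L).card) - (c / ((box d L).card * L)) * (Q * (st.S + 1))) := by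
      have hk : ((box d L).card : ℝ) *
          (Fl φ B st + n * (c / (box d L).card) - (c / ((box d L).card * L)) * (Q * (st.S + 1)))
          = ∑ _x ∈ box d L,
          (Fl φ B st + n * (c / (box d L).card) - (c / ((box d L).card * L)) * (Q * (st.S + 1))) := by
        rw [Finset.sum_const, nsmul_eq_mul]
      rw [hk, Finset.mul_sum, ← Finset.sum_sub_distrib, ← Finset.sum_add_distrib]
      exact Finset.sum_congr rfl fun x _ => by ring
    have h3 := drift hst hB hc hφ1 hmono hle hφ hL0
    have h4 := driftS hst L
    have h5 : 0 ≤ (c / ((box d L).card * L)) * Q := by positivity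
    have h6 := mul_le_mul_of_nonneg_left h4 h5
    rw [h2, hQ1]
    rw [le_inv_mul_iff₀ hcard]
    have h7 : ((box d L).card : ℝ) * (Fl φ B st + ((n + 1 : ℕ) : ℝ) * (c / (box d L).card) -
        c / ((box d L).card * L) * ((1 + r * Q) * (st.S + 1)))
        = (box d L).card * (Fl φ B st + n * (c / (box d L).card) -
          (c / ((box d L).card * L)) * (Q * (st.S + 1))) + c * (1 - (st.S + 1) / L)
          - (c / ((box d L).card * L)) * Q * ((2 * d + 1) * (st.S + 1)) := by
      rw [hr]
      push_cast
      field_simp
      ring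
    rw [h7]
    linarith

/-- Linear growth of the level. -/
lemma Av_M_ge {b : Bool} {φ : ℕ → ℝ} {c B : ℝ} (hB : c ≤ 1 + B) (hB0 : 0 ≤ 1 + B)
    (hc : 0 ≤ c) (hφ1 : φ 1 = 0) (hmono : Monotone φ) (hle : ∀ u, φ u ≤ 1)
    (hφ : ∀ u : ℕ, 1 ≤ u → c ≤ u * (1 - φ u) + (u * (2 * (d - 1 : ℕ) - u)) * (φ (u + 1) - φ u))
    {L : ℕ} (hL0 : 0 < L) (T : ℕ) :
    c * T * (1 - Real.exp ((2 * d + 1) * T) / L) - B - 1
      ≤ (Av (box d L) (stepC b))^[T * (box d L).card] (fun st => (st.M : ℝ)) (st0 d) := by
  have hcard : (0 : ℝ) < (box d L).card := by exact_mod_cast card_box_pos L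
  have hL0' : (0 : ℝ) < L := by exact_mod_cast hL0
  set n := T * (box d L).card with hn
  have h1 := Av_F_ge (b := b) hB hc hφ1 hmono hle hφ hL0 n (st0 d) (inv_st0 b)
  have h2 : (Av (box d L) (stepC b))^[n] (Fl φ B) (st0 d)
      ≤ (Av (box d L) (stepC b))^[n] (fun st => (st.M : ℝ) + 1) (st0 d) := by
    refine Av_mono_on (Inv b) (fun s x _ h => inv_step h x) ?_ n _ (inv_st0 b)
    intro s hs
    unfold Fl
    split_ifs with h
    · rw [hs.empty h]
      push_cast
      linarith
    · have := hle s.C.card
      linarith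
  have h3 : (Av (box d L) (stepC b))^[n] (fun st => (st.M : ℝ) + 1) (st0 d)
      = (Av (box d L) (stepC b))^[n] (fun st => (st.M : ℝ)) (st0 d) + 1 := by
    rw [Av_add]
    congr 1
    exact Av_const (Finset.card_pos.1 (card_box_pos L)) 1 n _
  have h4 : Fl φ B (st0 d) = -B := by simp [Fl, st0]
  have h5 : ∑ k ∈ Finset.range n, (1 + (2 * d + 1) / ((box d L).card : ℝ)) ^ k
      ≤ n * Real.exp ((2 * d + 1) * T) := by
    have : ∀ k ∈ Finset.range n, (1 + (2 * d + 1) / ((box d L).card : ℝ)) ^ k
        ≤ Real.exp ((2 * d + 1) * T) := by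
      intro k hk
      have hk' : k ≤ n := (Finset.mem_range.1 hk).le
      calc (1 + (2 * d + 1) / ((box d L).card : ℝ)) ^ k
          ≤ (1 + (2 * d + 1) / ((box d L).card : ℝ)) ^ n := by
            refine pow_le_pow_right₀ ?_ hk'
            have : (0 : ℝ) ≤ (2 * d + 1) / ((box d L).card : ℝ) := by positivity
            linarith
        _ ≤ (Real.exp ((2 * d + 1) / ((box d L).card : ℝ))) ^ n := by
            refine pow_le_pow_left₀ (by positivity) ?_ n
            rw [add_comm]
            exact Real.add_one_le_exp _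
        _ = Real.exp ((2 * d + 1) * T) := by
            rw [← Real.exp_nat_mul, hn]
            congr 1
            push_cast
            field_simp
    refine (Finset.sum_le_sum this).trans ?_
    rw [Finset.sum_const, Finset.card_range, nsmul_eq_mul]
  rw [h4] at h1
  have h6 : (c / ((box d L).card * L)) *
      ((∑ k ∈ Finset.range n, (1 + (2 * d + 1) / ((box d L).card : ℝ)) ^ k) * ((st0 d).S + 1))
      ≤ c * T * (Real.exp ((2 * d + 1) * T) / L) := by
    have h7 : ((st0 d).S : ℝ) + 1 = 1 := by simp [st0]
    rw [h7, mul_one]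
    refine (mul_le_mul_of_nonneg_left h5 (by positivity)).trans ?_
    apply le_of_eq
    rw [hn]
    push_cast
    field_simp
  have h8 : (n : ℝ) * (c / (box d L).card) = c * T := by
    rw [hn]
    push_cast
    field_simp
  rw [h8] at h1
  have : c * T * (1 - Real.exp ((2 * d + 1) * T) / L) = c * T - c * T * (Real.exp ((2 * d + 1) * T) / L) := by
    ring
  rw [this]
  linarith

end Pool.Agent.W833.BD
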