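import Mathlib

/-!
# Ballistic deposition on `ℤ^d`: definitions

* `V d = Fin d → ℤ` are the sites, `Om d = V d → ℤ` the height functions.
* `newh f x` is the height which the site `x` receives when it is updated: the maximum of
  `f x + 1` and of the heights of the `2 d` neighbours of `x`.
* `upd x f` is the height function after an update of the site `x`.
* `boxExp L t φ f` is the expectation of `φ (h(t, ·))` for the dynamics started from `f` in which
  exactly the sites of the box `[-L, L]^d` are updated, each at rate one (that is: the total number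
  of updates until time `t` is Poisson with mean `(2 L + 1)^d t`, and the updated sites are
  independent and uniform in the box).
* `Stationary μ` says that `μ` is a stationary law of the process `w(t, ·) = h(t, ·) - h(t, 0)`:
  for every time `t > 0` and every bounded function `φ` of finitely many coordinates the expectation
  of `φ (w(t, ·))`, when `w(0, ·)` has the law `μ`, is `∫ φ dμ`. The expectation of `φ (w(t, ·))`
  for the dynamics on the whole lattice started from `f` is the limit as `L → ∞` of the
  expectations for the dynamics in the boxes `[-L, L]^d`; the definition asserts that it exists.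
-/

namespace Pool.Agent.W833.BD

open MeasureTheory Filter Topology

/-- The sites of `ℤ^d`. -/
abbrev V (d : ℕ) := Fin d → ℤ

/-- The height functions on `ℤ^d`. -/
abbrev Om (d : ℕ) := V d → ℤ

/-- The unit vectors `e_i` (`(i, true)`) and `-e_i` (`(i, false)`). -/
def stp {d : ℕ} (p : Fin d × Bool) : V d := Pi.single p.1 (if p.2 then 1 else -1)

/-- The candidates for the new height at `x`: `f x + 1` and the heights of the neighbours. -/
def cand {d : ℕ} (f : Om d) (x : V d) : Option (Fin d × Bool) → ℤ
  | none => f x + 1
  | some p => f (x + stp p)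

/-- The height which `x` receives at an update: the maximum of `f x + 1` and of the heights
`f (x ± e_i)`, `1 ≤ i ≤ d`. -/
noncomputable def newh {d : ℕ} (f : Om d) (x : V d) : ℤ :=
  (Finset.univ : Finset (Option (Fin d × Bool))).sup' ⟨none, Finset.mem_univ _⟩ (cand f x)

/-- The height function after an update of the site `x`. -/
noncomputable def upd {d : ℕ} (x : V d) (f : Om d) : Om d := Function.update f x (newh f x)

/-- The box `[-L, L]^d`. -/
noncomputable def box (d L : ℕ) : Finset (V d) := Finset.Icc (fun _ => -(L : ℤ)) (fun _ => (L : ℤ))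

/-- The expectation of `φ` after one update at a uniform site of the box. -/
noncomputable def boxStep {d : ℕ} (L : ℕ) (φ : Om d → ℝ) (f : Om d) : ℝ :=
  ((box d L).card : ℝ)⁻¹ * ∑ x ∈ box d L, φ (upd x f)

/-- The expectation of `φ (h(t, ·))` for the dynamics started from `f` in which the sites of the
box `[-L, L]^d` are updated, each at rate one: the number of updates is Poisson with mean
`(2 L + 1)^d t`, and the updated sites are independent and uniform in the box. -/
noncomputable def boxExp {d : ℕ} (L : ℕ) (t : ℝ) (φ : Om d → ℝ) (f : Om d) : ℝ :=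
  ∑' n : ℕ, Real.exp (-((box d L).card * t)) * (((box d L).card * t) ^ n / n.factorial) *
    ((boxStep L)^[n] φ f)

/-- The height function seen from the origin. -/
def recentre {d : ℕ} (f : Om d) : Om d := fun x => f x - f 0

/-- `μ` is a stationary law of ballistic deposition seen from the origin, that is, of the Markov
process `w(t, ·) = h(t, ·) - h(t, 0)`. For every time `t > 0` and every bounded function `φ` of
finitely many heights, let `P f` be the expectation of `φ (w(t, ·))` when `h(0, ·) = f`; this is the
limit as `L → ∞` of the expectations for the dynamics in the boxes `[-L, L]^d`. The limit exists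
for every `f`, and if `w(0, ·)` has the law `μ` then the expectation of `φ (w(t, ·))`, which is
`∫ P dμ`, is equal to `∫ φ dμ`. -/
def Stationary {d : ℕ} (μ : Measure (Om d)) : Prop :=
  ∀ t : ℝ, 0 < t → ∀ (S : Finset (V d)) (φ : Om d → ℝ), DependsOn φ (S : Set (V d)) →
    (∃ C, ∀ f, |φ f| ≤ C) → ∃ P : Om d → ℝ,
      (∀ f, Tendsto (fun L => boxExp L t (fun g => φ (recentre g)) f) atTop (𝓝 (P f))) ∧
      Integrable P μ ∧ ∫ w, P w ∂μ = ∫ w, φ w ∂μ

variable {d : ℕ}

/-! ## Elementary facts -/

lemma add_one_le_newh (f : Om d) (x : V d) : f x + 1 ≤ newh f x :=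
  Finset.le_sup' (cand f x) (Finset.mem_univ none)

lemma nbr_le_newh (f : Om d) (x : V d) (p : Fin d × Bool) : f (x + stp p) ≤ newh f x :=
  Finset.le_sup' (cand f x) (Finset.mem_univ (some p))

lemma newh_le {f : Om d} {x : V d} {b : ℤ} (h0 : f x + 1 ≤ b) (h1 : ∀ p, f (x + stp p) ≤ b) :
    newh f x ≤ b := by
  refine Finset.sup'_le _ _ ?_
  rintro (_ | p) -
  · exact h0
  · exact h1 p

lemma exists_cand (f : Om d) (x : V d) : ∃ o, newh f x = cand f x o := by
  obtain ⟨o, -, h⟩ := Finset.exists_mem_eq_sup' (s := (Finset.univ : Finset (Option (Fin d × Bool))))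
    ⟨none, Finset.mem_univ _⟩ (cand f x)
  exact ⟨o, h⟩

lemma lt_newh (f : Om d) (x : V d) : f x < newh f x := by
  have := add_one_le_newh f x
  omega

lemma newh_mono {f g : Om d} (h : f ≤ g) (x : V d) : newh f x ≤ newh g x := by
  refine newh_le ?_ ?_
  · have h1 := add_one_le_newh g x
    have h2 : f x ≤ g x := h x
    omega
  · intro p
    exact (h _).trans (nbr_le_newh g x p)

lemma newh_add_const (f : Om d) (c : ℤ) (x : V d) :
    newh (fun y => f y + c) x = newh f x + c := by
  apply le_antisymm
  · refine newh_le ?_ ?_
    · have := add_one_le_newh f x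
      omega
    · intro p
      have := nbr_le_newh f x p
      omega
  · have : newh f x ≤ newh (fun y => f y + c) x - c := by
      refine newh_le ?_ ?_
      · have := add_one_le_newh (fun y => f y + c) x
        omega
      · intro p
        have := nbr_le_newh (fun y => f y + c) x p
        omega
    omega

lemma newh_congr {f g : Om d} {x : V d} (h0 : f x = g x)
    (h1 : ∀ p, f (x + stp p) = g (x + stp p)) : newh f x = newh g x := by
  apply le_antisymm
  · exact newh_le (h0 ▸ add_one_le_newh g x) (fun p => (h1 p) ▸ nbr_le_newh g x p)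
  · exact newh_le (h0 ▸ add_one_le_newh f x) (fun p => (h1 p) ▸ nbr_le_newh f x p)

@[simp] lemma upd_same (x : V d) (f : Om d) : upd x f x = newh f x := by
  simp [upd]

lemma upd_ne {x y : V d} (h : y ≠ x) (f : Om d) : upd x f y = f y := by
  simp [upd, h]

lemma le_upd (x : V d) (f : Om d) : f ≤ upd x f := by
  intro y
  by_cases h : y = x
  · subst h
    rw [upd_same]
    exact (lt_newh f y).le
  · rw [upd_ne h]

lemma upd_mono (x : V d) {f g : Om d} (h : f ≤ g) : upd x f ≤ upd x g := by
  intro y
  by_cases hy : y = x
  · subst hy
    simp only [upd_same]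
    exact newh_mono h y
  · rw [upd_ne hy, upd_ne hy]
    exact h y

lemma upd_add_const (x : V d) (f : Om d) (c : ℤ) :
    upd x (fun y => f y + c) = fun y => upd x f y + c := by
  funext y
  by_cases hy : y = x
  · subst hy
    simp only [upd_same]
    exact newh_add_const f c y
  · rw [upd_ne hy, upd_ne hy]

lemma exp_newh_le (θ : ℝ) (f : Om d) (x : V d) :
    Real.exp (θ * newh f x) ≤ Real.exp (θ * (f x + 1)) + ∑ p, Real.exp (θ * f (x + stp p)) := by
  obtain ⟨o, ho⟩ := exists_cand f x
  have h0 : 0 ≤ ∑ p, Real.exp (θ * f (x + stp p)) := Finset.sum_nonneg fun _ _ => (Real.exp_pos _).le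
  rcases o with _ | p
  · rw [ho]
    simp only [cand]
    push_cast
    linarith
  · rw [ho]
    simp only [cand]
    have h1 : Real.exp (θ * f (x + stp p)) ≤ ∑ p, Real.exp (θ * f (x + stp p)) :=
      Finset.single_le_sum (f := fun p => Real.exp (θ * f (x + stp p)))
        (fun _ _ => (Real.exp_pos _).le) (Finset.mem_univ p)
    have h2 := Real.exp_pos (θ * (f x + 1))
    linarith

lemma recentre_add_const (f : Om d) (c : ℤ) : recentre (fun y => f y + c) = recentre f := by
  funext y
  simp [recentre]

lemma mem_box {L : ℕ} {x : V d} : x ∈ box d L ↔ ∀ i, |x i| ≤ L := by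
  simp only [box, Finset.mem_Icc, Pi.le_def, abs_le]
  exact ⟨fun h i => ⟨h.1 i, h.2 i⟩, fun h => ⟨fun i => (h i).1, fun i => (h i).2⟩⟩

lemma card_box (L : ℕ) : (box d L).card = (2 * L + 1) ^ d := by
  simp only [box]
  rw [Pi.card_Icc]
  simp only [Int.card_Icc, Finset.prod_const, Finset.card_univ, Fintype.card_fin]
  congr 1
  omega

lemma card_box_pos (L : ℕ) : 0 < (box d L).card := by
  rw [card_box]
  positivity

lemma stp_apply_abs_le (p : Fin d × Bool) (i : Fin d) : |stp p i| ≤ 1 := by
  unfold stp
  by_cases h : i = p.1
  · subst h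
    rw [Pi.single_eq_same]
    split_ifs <;> simp
  · rw [Pi.single_eq_of_ne h]
    simp

end Pool.Agent.W833.BD
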