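import Pool.Agent.W833.BD.Num

/-! Propagation of the dependence on far away sites. -/

namespace Pool.Agent.W833.BD

set_option linter.unusedSectionVars false

open MeasureTheory Filter Topology

variable {d : ℕ}

/-- the averaged step in which only the letters in `B` act -/
noncomputable def lz (Λ B : Finset (V d)) (Φ : Om d → ℝ) (f : Om d) : ℝ :=
  ((Λ.card : ℝ))⁻¹ * ∑ x ∈ Λ, (if x ∈ B then Φ (upd x f) else Φ f)

lemma boxStep_eq_lz (L : ℕ) : (boxStep L : (Om d → ℝ) → Om d → ℝ) = lz (box d L) (box d L) := by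
  funext Φ f
  unfold boxStep lz
  congr 1
  exact Finset.sum_congr rfl fun x hx => by rw [if_pos hx]

lemma lz_iter_sum {Λ B : Finset (V d)} {ι : Type*} (s : Finset ι) (c : ℝ) (Φ : ι → Om d → ℝ)
    (n : ℕ) (f : Om d) :
    (lz Λ B)^[n] (fun f => c * ∑ i ∈ s, Φ i f) f = c * ∑ i ∈ s, (lz Λ B)^[n] (Φ i) f := by
  induction n generalizing f with
  | zero => rfl
  | succ n ih =>
    simp only [Function.iterate_succ_apply']
    have h1 : lz Λ B ((lz Λ B)^[n] fun f => c * ∑ i ∈ s, Φ i f) f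
        = (Λ.card : ℝ)⁻¹ * ∑ x ∈ Λ, c * ∑ i ∈ s,
          (if x ∈ B then (lz Λ B)^[n] (Φ i) (upd x f) else (lz Λ B)^[n] (Φ i) f) := by
      rw [lz]
      congr 1
      refine Finset.sum_congr rfl fun x _ => ?_
      split_ifs
      · exact ih _
      · exact ih _
    rw [h1, ← Finset.mul_sum, mul_left_comm, Finset.sum_comm, Finset.mul_sum]
    rfl

/-- the action of a letter on functions -/
noncomputable def lt' (B : Finset (V d)) (x : V d) (Φ : Om d → ℝ) (f : Om d) : ℝ :=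
  if x ∈ B then Φ (upd x f) else Φ f

lemma lz_iter_succ {Λ B : Finset (V d)} (n : ℕ) (Φ : Om d → ℝ) (f : Om d) :
    (lz Λ B)^[n + 1] Φ f = (Λ.card : ℝ)⁻¹ * ∑ x ∈ Λ, (lz Λ B)^[n] (lt' B x Φ) f := by
  rw [Function.iterate_succ_apply]
  exact lz_iter_sum Λ (Λ.card : ℝ)⁻¹ (fun x f => if x ∈ B then Φ (upd x f) else Φ f) n f

/-- the chain of the sets of dependence -/
noncomputable def dst (B : Finset (V d)) (s : Finset (V d) × ℕ) (x : V d) : Finset (V d) × ℕ :=
  if x ∈ B ∧ x ∈ s.1 then (s.1 ∪ nbhd x, s.2 + 1) else s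

lemma dep_step {B A : Finset (V d)} {S : ℕ} {Φ : Om d → ℝ} (h : DependsOn Φ (A : Set (V d)))
    (x : V d) : DependsOn (lt' B x Φ) ((dst B (A, S) x).1 : Set (V d)) := by
  unfold dst
  by_cases hB : x ∈ B
  · by_cases hA : x ∈ A
    · rw [if_pos ⟨hB, hA⟩]
      intro f g hfg
      unfold lt'
      rw [if_pos hB, if_pos hB]
      refine h fun y hy => ?_
      by_cases hyx : y = x
      · subst hyx
        rw [upd_same, upd_same]
        exact newh_congr' fun z hz => hfg z (by simp [hz])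
      · rw [upd_ne hyx, upd_ne hyx]
        refine hfg y ?_
        simp only [Finset.coe_union, Set.mem_union]
        exact Or.inl hy
    · rw [if_neg (fun h' => hA h'.2)]
      have : lt' B x Φ = Φ := by
        funext f
        unfold lt'
        rw [if_pos hB]
        refine h fun y hy => ?_
        have hyx : y ≠ x := fun h' => hA (h' ▸ hy)
        rw [upd_ne hyx]
      rw [this]
      exact h
  · rw [if_neg (fun h' => hB h'.1)]
    have : lt' B x Φ = Φ := by
      funext f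
      unfold lt'
      rw [if_neg hB]
    rw [this]
    exact h

lemma lt'_bound {B : Finset (V d)} {Φ : Om d → ℝ} {C : ℝ} (hC : ∀ f, |Φ f| ≤ C) (x : V d)
    (f : Om d) : |lt' B x Φ f| ≤ C := by
  unfold lt'
  split_ifs
  · exact hC _
  · exact hC _

lemma dep_sum {Λ B : Finset (V d)} (W : Finset (V d)) {C : ℝ} (n : ℕ) :
    ∀ (Φ : Om d → ℝ) (A : Finset (V d)) (S : ℕ), DependsOn Φ (A : Set (V d)) →
      (∀ f, |Φ f| ≤ C) → ∀ f,
      ∑ x ∈ W, |(lz Λ B)^[n] Φ (upd x f) - (lz Λ B)^[n] Φ f|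
        ≤ 2 * C * (Av Λ (dst B))^[n] (fun s => ((s.1 ∩ W).card : ℝ)) (A, S) := by
  induction n with
  | zero =>
    intro Φ A S hA hC f
    simp only [Function.iterate_zero, id_eq]
    have hC0 : 0 ≤ C := (abs_nonneg _).trans (hC f)
    have h1 : ∀ x ∈ W, |Φ (upd x f) - Φ f| ≤ if x ∈ A then 2 * C else 0 := by
      intro x _
      by_cases hx : x ∈ A
      · rw [if_pos hx]
        have h2 := abs_sub (Φ (upd x f)) (Φ f)
        have := hC (upd x f)
        have := hC f
        linarith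
      · rw [if_neg hx]
        have : Φ (upd x f) = Φ f := by
          refine hA fun y hy => ?_
          have hyx : y ≠ x := fun h' => hx (h' ▸ hy)
          rw [upd_ne hyx]
        rw [this]
        simp
    refine (Finset.sum_le_sum h1).trans (le_of_eq ?_)
    rw [← Finset.sum_filter, Finset.sum_const, nsmul_eq_mul, Finset.filter_mem_eq_inter,
      Finset.inter_comm]
    ring
  | succ n ih =>
    intro Φ A S hA hC f
    rw [Function.iterate_succ_apply' (Av Λ (dst B))]
    simp only [lz_iter_succ]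
    have h1 : ∀ x : V d, |(Λ.card : ℝ)⁻¹ * ∑ z ∈ Λ, (lz Λ B)^[n] (lt' B z Φ) (upd x f)
        - (Λ.card : ℝ)⁻¹ * ∑ z ∈ Λ, (lz Λ B)^[n] (lt' B z Φ) f|
        ≤ (Λ.card : ℝ)⁻¹ * ∑ z ∈ Λ, |(lz Λ B)^[n] (lt' B z Φ) (upd x f)
          - (lz Λ B)^[n] (lt' B z Φ) f| := by
      intro x
      rw [← mul_sub, ← Finset.sum_sub_distrib, abs_mul, abs_of_nonneg (by positivity)]
      exact mul_le_mul_of_nonneg_left (Finset.abs_sum_le_sum_abs _ _) (by positivity)
    calc _ ≤ ∑ x ∈ W, (Λ.card : ℝ)⁻¹ * ∑ z ∈ Λ, |(lz Λ B)^[n] (lt' B z Φ) (upd x f)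
          - (lz Λ B)^[n] (lt' B z Φ) f| := Finset.sum_le_sum fun x _ => h1 x
      _ = (Λ.card : ℝ)⁻¹ * ∑ z ∈ Λ, ∑ x ∈ W, |(lz Λ B)^[n] (lt' B z Φ) (upd x f)
          - (lz Λ B)^[n] (lt' B z Φ) f| := by
          rw [← Finset.mul_sum, Finset.sum_comm]
      _ ≤ (Λ.card : ℝ)⁻¹ * ∑ z ∈ Λ, 2 * C *
          (Av Λ (dst B))^[n] (fun s => ((s.1 ∩ W).card : ℝ)) (dst B (A, S) z) := by
          refine mul_le_mul_of_nonneg_left (Finset.sum_le_sum fun z _ => ?_) (by positivity)
          exact ih (lt' B z Φ) _ (dst B (A, S) z).2 (dep_step hA z) (lt'_bound hC z) f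
      _ = _ := by
          rw [← Finset.mul_sum]
          unfold Av
          ring

/-- the invariant of the dependence chain -/
def DInv (a R : ℕ) (s : Finset (V d) × ℕ) : Prop :=
  s.1 ⊆ box d (R + s.2) ∧ s.1.card ≤ a + 2 * d * s.2

lemma nbhd_subset_box {L : ℕ} {x : V d} (hx : x ∈ box d L) : nbhd x ⊆ box d (L + 1) := by
  intro y hy
  simp only [nbhd, Finset.mem_insert, Finset.mem_image, Finset.mem_univ, true_and] at hy
  rcases hy with rfl | ⟨p, rfl⟩
  · rw [mem_box] at hx ⊢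
    intro i
    have := hx i
    push_cast
    omega
  · rw [mem_box] at hx ⊢
    intro i
    have h1 := hx i
    have h2 := stp_apply_abs_le p i
    rw [abs_le] at h1 h2 ⊢
    simp only [Pi.add_apply]
    push_cast
    constructor <;> omega

lemma box_mono' {L M : ℕ} (h : L ≤ M) : box d L ⊆ box d M := by
  intro x hx
  rw [mem_box] at hx ⊢
  intro i
  have := hx i
  have h' : (L : ℤ) ≤ M := by exact_mod_cast h
  omega

lemma dinv_step {B : Finset (V d)} {a R : ℕ} {s : Finset (V d) × ℕ} (h : DInv a R s) (x : V d) :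
    DInv a R (dst B s x) := by
  unfold dst
  split_ifs with hx
  · constructor
    · intro y hy
      simp only [Finset.mem_union] at hy
      show y ∈ box d (R + (s.2 + 1))
      rw [← add_assoc]
      rcases hy with hy | hy
      · exact box_mono' (Nat.le_succ _) (h.1 hy)
      · exact nbhd_subset_box (h.1 hx.2) hy
    · show (s.1 ∪ nbhd x).card ≤ a + 2 * d * (s.2 + 1)
      have h1 : s.1 ∪ nbhd x = s.1 ∪ Finset.univ.image (fun p => x + stp p) := by
        unfold nbhd
        ext y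
        simp only [Finset.mem_union, Finset.mem_insert]
        constructor
        · rintro (h1 | rfl | h1)
          · exact Or.inl h1
          · exact Or.inl hx.2
          · exact Or.inr h1
        · rintro (h1 | h1)
          · exact Or.inl h1
          · exact Or.inr (Or.inr h1)
      rw [h1]
      refine (Finset.card_union_le _ _).trans ?_
      have h2 : (Finset.univ.image (fun p : Fin d × Bool => x + stp p)).card ≤ d * 2 := by
        refine Finset.card_image_le.trans ?_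
        simp
      have := h.2
      ring_nf
      ring_nf at this h2
      omega
  · exact h

variable [NeZero d]

lemma dst_sq {Λ B : Finset (V d)} (hΛ : Λ.Nonempty) {a R m : ℕ} (ha : a ≤ m) (hm : 1 ≤ m)
    {s : Finset (V d) × ℕ} (h : DInv a R s) :
    Av Λ (dst B) (fun s => ((m : ℝ) + s.2) ^ 2) s
      ≤ (1 + 6 * d / (Λ.card : ℝ)) * ((m : ℝ) + s.2) ^ 2 := by
  classical
  have hc : (0 : ℝ) < Λ.card := by exact_mod_cast hΛ.card_pos
  have hd : (1 : ℝ) ≤ d := by
    have : 1 ≤ d := Nat.one_le_iff_ne_zero.2 (NeZero.ne d)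
    exact_mod_cast this
  have hm' : (1 : ℝ) ≤ m := by exact_mod_cast hm
  have ha' : (a : ℝ) ≤ m := by exact_mod_cast ha
  have hs0 : (0 : ℝ) ≤ s.2 := by positivity
  unfold Av
  have h1 : ∀ x ∈ Λ, ((m : ℝ) + (dst B s x).2) ^ 2
      ≤ ((m : ℝ) + s.2) ^ 2 + if x ∈ s.1 then (2 * ((m : ℝ) + s.2) + 1) else 0 := by
    intro x _
    unfold dst
    by_cases hx : x ∈ B ∧ x ∈ s.1
    · rw [if_pos hx, if_pos hx.2]
      push_cast
      apply le_of_eq
      ring
    · rw [if_neg hx]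
      split_ifs
      · linarith
      · linarith
  have h2 : ∑ x ∈ Λ, ((m : ℝ) + (dst B s x).2) ^ 2
      ≤ Λ.card * ((m : ℝ) + s.2) ^ 2 + 6 * d * ((m : ℝ) + s.2) ^ 2 := by
    refine (Finset.sum_le_sum h1).trans ?_
    rw [Finset.sum_add_distrib, Finset.sum_const, nsmul_eq_mul, ← Finset.sum_filter,
      Finset.sum_const, nsmul_eq_mul, Finset.filter_mem_eq_inter]
    refine add_le_add le_rfl ?_
    have h3 : ((Λ ∩ s.1).card : ℝ) ≤ a + 2 * d * s.2 := by
      have h4 : (Λ ∩ s.1).card ≤ a + 2 * d * s.2 :=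
        (Finset.card_le_card Finset.inter_subset_right).trans h.2
      exact_mod_cast h4
    have h5 : (a : ℝ) + 2 * d * s.2 ≤ 2 * d * (m + s.2) := by nlinarith
    calc ((Λ ∩ s.1).card : ℝ) * (2 * ((m : ℝ) + s.2) + 1)
        ≤ (2 * d * (m + s.2)) * (3 * (m + s.2)) := by
          refine mul_le_mul (h3.trans h5) (by linarith) (by positivity) (by positivity)
      _ = 6 * d * ((m : ℝ) + s.2) ^ 2 := by ring
  rw [inv_mul_le_iff₀ hc]
  refine h2.trans (le_of_eq ?_)
  field_simp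

lemma dst_sq_iter {Λ B : Finset (V d)} (hΛ : Λ.Nonempty) {a R m : ℕ} (ha : a ≤ m) (hm : 1 ≤ m)
    (n : ℕ) : ∀ s : Finset (V d) × ℕ, DInv a R s →
    (Av Λ (dst B))^[n] (fun s => ((m : ℝ) + s.2) ^ 2) s
      ≤ (1 + 6 * d / (Λ.card : ℝ)) ^ n * ((m : ℝ) + s.2) ^ 2 := by
  induction n with
  | zero => intro s _; simp
  | succ n ih =>
    intro s hs
    rw [Function.iterate_succ_apply']
    have h1 : Av Λ (dst B) ((Av Λ (dst B))^[n] (fun s => ((m : ℝ) + s.2) ^ 2)) s
        ≤ (1 + 6 * d / (Λ.card : ℝ)) ^ n * Av Λ (dst B) (fun s => ((m : ℝ) + s.2) ^ 2) s := by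
      have h2 : (1 + 6 * d / (Λ.card : ℝ)) ^ n * Av Λ (dst B) (fun s => ((m : ℝ) + s.2) ^ 2) s
          = (Λ.card : ℝ)⁻¹ * ∑ x ∈ Λ, (1 + 6 * d / (Λ.card : ℝ)) ^ n
            * ((m : ℝ) + (dst B s x).2) ^ 2 := by
        unfold Av
        rw [← Finset.mul_sum]
        ring
      rw [h2]
      have hc : (0 : ℝ) ≤ (Λ.card : ℝ)⁻¹ := by positivity
      refine mul_le_mul_of_nonneg_left (Finset.sum_le_sum fun x _ => ?_) hc
      exact ih _ (dinv_step hs x)
    refine h1.trans ?_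
    rw [pow_succ, mul_assoc]
    exact mul_le_mul_of_nonneg_left (dst_sq hΛ ha hm hs) (by positivity)

/-- The influence of far away sites is small. -/
theorem dep_bound {Λ B W A : Finset (V d)} (hΛ : Λ.Nonempty) {L R m : ℕ} (hL : 0 < L)
    (hW : ∀ x ∈ W, x ∉ box d L) (hA : A ⊆ box d R) (hAm : A.card ≤ m) (hRm : R ≤ m) (hm : 1 ≤ m)
    {Φ : Om d → ℝ} (hΦ : DependsOn Φ (A : Set (V d))) {C : ℝ} (hC : ∀ f, |Φ f| ≤ C) (n : ℕ)
    (f : Om d) :
    ∑ x ∈ W, |(lz Λ B)^[n] Φ (upd x f) - (lz Λ B)^[n] Φ f|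
      ≤ 4 * d * C * m ^ 2 / L * (1 + 6 * d / (Λ.card : ℝ)) ^ n := by
  have hC0 : 0 ≤ C := (abs_nonneg _).trans (hC f)
  have hL' : (0 : ℝ) < L := by exact_mod_cast hL
  have hd : (1 : ℝ) ≤ d := by
    have : 1 ≤ d := Nat.one_le_iff_ne_zero.2 (NeZero.ne d)
    exact_mod_cast this
  have hm' : (1 : ℝ) ≤ m := by exact_mod_cast hm
  have hAm' : (A.card : ℝ) ≤ m := by exact_mod_cast hAm
  have hRm' : (R : ℝ) ≤ m := by exact_mod_cast hRm
  have hI : DInv A.card R (A, 0) := ⟨by simpa using hA, by simp⟩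
  refine (dep_sum W n Φ A 0 hΦ hC f).trans ?_
  have h1 : (Av Λ (dst B))^[n] (fun s => ((s.1 ∩ W).card : ℝ)) (A, 0)
      ≤ (Av Λ (dst B))^[n] (fun s => (2 * d / (L : ℝ)) * ((m : ℝ) + s.2) ^ 2) (A, 0) := by
    refine Av_mono_on (DInv A.card R) (fun s x _ h => dinv_step h x) ?_ n _ hI
    rintro ⟨A', S⟩ ⟨hs1, hs2⟩
    dsimp only at hs1 hs2 ⊢
    have hS0 : (0 : ℝ) ≤ S := by positivity
    by_cases hRS : R + S ≤ L
    · have : A' ∩ W = ∅ := by
        rw [Finset.eq_empty_iff_forall_notMem]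
        intro x hx
        rw [Finset.mem_inter] at hx
        exact hW x hx.2 (box_mono' hRS (hs1 hx.1))
      rw [this]
      simp only [Finset.card_empty, Nat.cast_zero]
      positivity
    · push Not at hRS
      have hRS' : (L : ℝ) ≤ R + S := by exact_mod_cast hRS.le
      have h3 : ((A' ∩ W).card : ℝ) ≤ A.card + 2 * d * S := by
        have h4 : (A' ∩ W).card ≤ A.card + 2 * d * S :=
          (Finset.card_le_card Finset.inter_subset_left).trans hs2
        exact_mod_cast h4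
      have h5 : (A.card : ℝ) + 2 * d * S ≤ 2 * d * (m + S) := by nlinarith
      have h6 : (1 : ℝ) ≤ (m + S) / L := by
        rw [le_div_iff₀ hL']
        linarith
      calc ((A' ∩ W).card : ℝ) ≤ 2 * d * (m + S) * 1 := by linarith
        _ ≤ 2 * d * (m + S) * ((m + S) / L) :=
            mul_le_mul_of_nonneg_left h6 (by positivity)
        _ = _ := by ring
  rw [Av_const_mul] at h1
  have h2 := dst_sq_iter (B := B) hΛ hAm hm n (A, 0) hI
  simp only [Nat.cast_zero, add_zero] at h2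
  calc _ ≤ 2 * C * ((2 * d / (L : ℝ)) * ((1 + 6 * d / (Λ.card : ℝ)) ^ n * (m : ℝ) ^ 2)) := by
        refine mul_le_mul_of_nonneg_left (h1.trans ?_) (by positivity)
        exact mul_le_mul_of_nonneg_left h2 (by positivity)
    _ = _ := by ring

end Pool.Agent.W833.BD
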