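import Pool.Agent.W833.BD.Semi

/-! Existence of the limit of the finite box expectations. -/

namespace Pool.Agent.W833.BD

set_option linter.unusedSectionVars false

open MeasureTheory Filter Topology

variable {d : ℕ} [NeZero d]

lemma lz_sub {Λ B : Finset (V d)} (hB : B ⊆ Λ) (Ψ : Om d → ℝ) (f : Om d) :
    lz Λ Λ Ψ f - lz Λ B Ψ f = (Λ.card : ℝ)⁻¹ * ∑ x ∈ Λ \ B, (Ψ (upd x f) - Ψ f) := by
  unfold lz
  rw [← mul_sub, ← Finset.sum_sub_distrib]
  congr 1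
  rw [← Finset.sum_sdiff hB, Finset.sum_eq_zero (s := B), add_zero]
  · refine Finset.sum_congr rfl fun x hx => ?_
    rw [Finset.mem_sdiff] at hx
    rw [if_pos hx.1, if_neg hx.2]
  · intro x hx
    rw [if_pos (hB hx), if_pos hx, sub_self]

lemma lz_mono_bound {Λ B : Finset (V d)} {Φ Ψ : Om d → ℝ} {b : ℝ} (h : ∀ f, |Φ f - Ψ f| ≤ b)
    (f : Om d) : |lz Λ B Φ f - lz Λ B Ψ f| ≤ b := by
  have h1 : lz Λ B Φ f - lz Λ B Ψ f = lz Λ B (fun f => Φ f - Ψ f) f := by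
    unfold lz
    rw [← mul_sub, ← Finset.sum_sub_distrib]
    congr 1
    refine Finset.sum_congr rfl fun x _ => ?_
    split_ifs <;> rfl
  rw [h1]
  exact lz_bound h f

/-- comparison of the dynamics in `Λ` and in `box L ⊆ Λ` -/
lemma cauchy_iter {Λ A : Finset (V d)} {L R m : ℕ} (hL : 0 < L) (hB : box d L ⊆ Λ)
    (hA : A ⊆ box d R) (hAm : A.card ≤ m) (hRm : R ≤ m) (hm : 1 ≤ m)
    {Φ : Om d → ℝ} (hΦ : DependsOn Φ (A : Set (V d))) {C : ℝ} (hC : ∀ f, |Φ f| ≤ C) (n : ℕ) :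
    ∀ f, |(lz Λ Λ)^[n] Φ f - (lz Λ (box d L))^[n] Φ f|
      ≤ n * (Λ.card : ℝ)⁻¹ * (4 * d * C * m ^ 2 / L) * (1 + 6 * d / (Λ.card : ℝ)) ^ n := by
  have hΛ : Λ.Nonempty := (Finset.card_pos.1 (card_box_pos L)).mono hB
  have hc : (0 : ℝ) < Λ.card := by exact_mod_cast hΛ.card_pos
  have hC0 : 0 ≤ C := (abs_nonneg _).trans (hC 0)
  induction n with
  | zero => intro f; simp
  | succ n ih =>
    intro f
    simp only [Function.iterate_succ_apply']
    set E : ℝ := 4 * d * C * m ^ 2 / L with hE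
    have hE0 : 0 ≤ E := by positivity
    set q : ℝ := 1 + 6 * d / (Λ.card : ℝ) with hq
    have hq1 : 1 ≤ q := by
      have : (0 : ℝ) ≤ 6 * d / (Λ.card : ℝ) := by positivity
      linarith
    have h1 := lz_mono_bound (Λ := Λ) (B := Λ) ih f
    have h2 : |lz Λ Λ ((lz Λ (box d L))^[n] Φ) f - lz Λ (box d L) ((lz Λ (box d L))^[n] Φ) f|
        ≤ (Λ.card : ℝ)⁻¹ * (E * q ^ n) := by
      rw [lz_sub hB, abs_mul, abs_of_nonneg (by positivity)]
      refine mul_le_mul_of_nonneg_left ((Finset.abs_sum_le_sum_abs _ _).trans ?_) (by positivity)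
      exact dep_bound hΛ hL (fun x hx => (Finset.mem_sdiff.1 hx).2) hA hAm hRm hm hΦ hC n f
    have h3 := abs_sub_le (lz Λ Λ ((lz Λ Λ)^[n] Φ) f) (lz Λ Λ ((lz Λ (box d L))^[n] Φ) f)
      (lz Λ (box d L) ((lz Λ (box d L))^[n] Φ) f)
    calc _ ≤ _ := h3
      _ ≤ n * (Λ.card : ℝ)⁻¹ * E * q ^ n + (Λ.card : ℝ)⁻¹ * (E * q ^ n) := add_le_add h1 h2
      _ = ((n + 1 : ℕ) : ℝ) * (Λ.card : ℝ)⁻¹ * E * q ^ n * 1 := by
          push_cast
          ring
      _ ≤ ((n + 1 : ℕ) : ℝ) * (Λ.card : ℝ)⁻¹ * E * q ^ n * q :=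
          mul_le_mul_of_nonneg_left hq1 (by positivity)
      _ = _ := by
          rw [pow_succ]
          ring

lemma geom_bound {k : ℝ} (hk : 1 ≤ k) {E : ℝ} (hE : 0 ≤ E) (n : ℕ) :
    n * k⁻¹ * E * (1 + 6 * d / k) ^ n ≤ E * ((1 + 1 / k) * (1 + 6 * d / k)) ^ n := by
  have hk0 : 0 < k := by linarith
  have h1 : (n : ℝ) * k⁻¹ ≤ (1 + 1 / k) ^ n := by
    have := one_add_mul_le_pow (a := 1 / k) (by
      have : 0 ≤ 1 / k := by positivity
      linarith) n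
    have h2 : (n : ℝ) * (1 / k) = n * k⁻¹ := by rw [one_div]
    linarith
  rw [mul_pow]
  calc n * k⁻¹ * E * (1 + 6 * d / k) ^ n = (n * k⁻¹) * (E * (1 + 6 * d / k) ^ n) := by ring
    _ ≤ (1 + 1 / k) ^ n * (E * (1 + 6 * d / k) ^ n) :=
        mul_le_mul_of_nonneg_right h1 (by positivity)
    _ = _ := by ring

lemma exp_le {k : ℝ} (hk : 1 ≤ k) {t : ℝ} (ht : 0 ≤ t) :
    Real.exp (k * t * ((1 + 1 / k) * (1 + 6 * d / k) - 1)) ≤ Real.exp ((12 * d + 1) * t) := by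
  have hk0 : 0 < k := by linarith
  refine Real.exp_le_exp.2 ?_
  have h1 : k * t * ((1 + 1 / k) * (1 + 6 * d / k) - 1) = t * (1 + 6 * d + 6 * d / k) := by
    field_simp
    ring
  rw [h1]
  have h2 : 6 * (d : ℝ) / k ≤ 6 * d := div_le_self (by positivity) hk
  nlinarith

/-- The semigroup of ballistic deposition on the whole lattice. -/
noncomputable def semi (t : ℝ) (φ : Om d → ℝ) (f : Om d) : ℝ :=
  limUnder atTop (fun L => boxExp L t φ f)

/-- comparison of two boxes -/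
theorem boxExp_sub_le {A : Finset (V d)} {L L' R m : ℕ} (hL : 0 < L) (hLL : L ≤ L')
    (hA : A ⊆ box d R) (hAm : A.card ≤ m) (hRm : R ≤ m) (hm : 1 ≤ m)
    {Φ : Om d → ℝ} (hΦ : DependsOn Φ (A : Set (V d))) {C : ℝ} (hC : ∀ f, |Φ f| ≤ C)
    {t : ℝ} (ht : 0 ≤ t) (f : Om d) :
    |boxExp L' t Φ f - boxExp L t Φ f| ≤ 4 * d * C * m ^ 2 / L * Real.exp ((12 * d + 1) * t) := by
  have hC0 : 0 ≤ C := (abs_nonneg _).trans (hC f)
  have hB : box d L ⊆ box d L' := box_mono' hLL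
  set Λ := box d L' with hΛ
  have hk : (1 : ℝ) ≤ Λ.card := by
    have : 1 ≤ Λ.card := card_box_pos L'
    exact_mod_cast this
  have hE : (0 : ℝ) ≤ 4 * d * C * m ^ 2 / L := by positivity
  have hl : 0 ≤ (Λ.card : ℝ) * t := by positivity
  rw [boxExp_eq, boxExp_eq, ← lzExp_thin hB (Finset.card_pos.1 (card_box_pos L)) t hC f]
  unfold lzExp
  have hC1 : ∀ B : Finset (V d), ∀ n, |(lz Λ B)^[n] Φ f| ≤ C * 1 ^ n := by
    intro B n
    rw [one_pow, mul_one]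
    exact lz_iter_bound hC n f
  rw [← (pw_bound hl (hC1 Λ)).1.tsum_sub (pw_bound hl (hC1 (box d L))).1]
  simp only [← mul_sub]
  refine (pw_bound hl (fun n => ?_)).2.trans
    (mul_le_mul_of_nonneg_left (exp_le (d := d) hk ht) hE)
  exact (cauchy_iter hL hB hA hAm hRm hm hΦ hC n f).trans (geom_bound hk hE n)

/-- The finite box expectations converge, for every initial condition. -/
theorem tendsto_boxExp {S : Finset (V d)} {φ : Om d → ℝ} (hφ : DependsOn φ (S : Set (V d)))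
    (hb : ∃ C, ∀ f, |φ f| ≤ C) {t : ℝ} (ht : 0 ≤ t) (f : Om d) :
    Tendsto (fun L => boxExp L t φ f) atTop (𝓝 (semi t φ f)) := by
  obtain ⟨C, hC⟩ := hb
  have hC0 : 0 ≤ C := (abs_nonneg _).trans (hC f)
  obtain ⟨R, hR⟩ := exists_box S
  set m := S.card + R + 1 with hm
  set E : ℝ := 4 * d * C * m ^ 2 * Real.exp ((12 * d + 1) * t) with hE
  have hE0 : 0 ≤ E := by positivity
  refine CauchySeq.tendsto_limUnder ?_
  rw [Metric.cauchySeq_iff']
  intro ε hε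
  obtain ⟨N, hN⟩ := exists_nat_gt (E / ε)
  refine ⟨N + 1, fun n hn => ?_⟩
  rw [Real.dist_eq]
  have h1 := boxExp_sub_le (Nat.succ_pos N) hn hR (by omega : S.card ≤ m) (by omega) (by omega) hφ
    hC ht f
  refine lt_of_le_of_lt h1 ?_
  have h2 : 4 * d * C * (m : ℝ) ^ 2 / ((N + 1 : ℕ) : ℝ) * Real.exp ((12 * d + 1) * t)
      = E / (N + 1) := by
    rw [hE]
    push_cast
    ring
  rw [h2, div_lt_iff₀ (by positivity)]
  rw [div_lt_iff₀ hε] at hN
  nlinarith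

end Pool.Agent.W833.BD
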