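import Pool.Agent.W833.BD.Valid

/-! Functions of finitely many heights. -/

namespace Pool.Agent.W833.BD

open MeasureTheory Filter Topology

variable {d : ℕ}

/-- the site `x` and its neighbours -/
noncomputable def nbhd (x : V d) : Finset (V d) := insert x (Finset.univ.image (fun p => x + stp p))

lemma mem_nbhd_self (x : V d) : x ∈ nbhd x := by simp [nbhd]

lemma mem_nbhd_stp (x : V d) (p : Fin d × Bool) : x + stp p ∈ nbhd x := by
  simp [nbhd]

lemma newh_congr' {f g : Om d} {x : V d} (h : ∀ y ∈ nbhd x, f y = g y) : newh f x = newh g x :=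
  newh_congr (h x (mem_nbhd_self x)) (fun p => h _ (mem_nbhd_stp x p))

lemma measurable_of_dependsOn {β : Type*} [MeasurableSpace β] [Nonempty β] {S : Finset (V d)}
    {φ : Om d → β} (h : DependsOn φ (S : Set (V d))) : Measurable φ := by
  obtain ⟨g, hg⟩ := dependsOn_iff_exists_comp.1 h
  rw [hg]
  exact Measurable.comp (measurable_of_countable g)
    (measurable_pi_iff.2 fun i => measurable_pi_apply (i : V d))

lemma continuous_of_dependsOn {β : Type*} [TopologicalSpace β] [Nonempty β] {S : Finset (V d)}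
    {φ : Om d → β} (h : DependsOn φ (S : Set (V d))) : Continuous φ := by
  obtain ⟨g, hg⟩ := dependsOn_iff_exists_comp.1 h
  rw [hg]
  refine Continuous.comp ?_ (Pi.continuous_domRestrict _)
  have : DiscreteTopology ((i : (S : Set (V d))) → ℤ) := Pi.discreteTopology
  exact continuous_of_discreteTopology

/-- `φ` is a function of finitely many heights -/
def Loc {β : Type*} (φ : Om d → β) : Prop := ∃ S : Finset (V d), DependsOn φ (S : Set (V d))

lemma Loc.measurable {β : Type*} [MeasurableSpace β] [Nonempty β] {φ : Om d → β} (h : Loc φ) :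
    Measurable φ := by
  obtain ⟨S, hS⟩ := h
  exact measurable_of_dependsOn hS

lemma Loc.continuous {β : Type*} [TopologicalSpace β] [Nonempty β] {φ : Om d → β} (h : Loc φ) :
    Continuous φ := by
  obtain ⟨S, hS⟩ := h
  exact continuous_of_dependsOn hS

lemma loc_const {β : Type*} (b : β) : Loc (fun _ : Om d => b) := ⟨∅, fun _ _ _ => rfl⟩

lemma loc_eval (x : V d) : Loc (fun f : Om d => f x) :=
  ⟨{x}, fun f g h => h x (by simp)⟩

lemma Loc.comp {β γ : Type*} {φ : Om d → β} (h : Loc φ) (g : β → γ) : Loc (fun f => g (φ f)) := by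
  obtain ⟨S, hS⟩ := h
  exact ⟨S, fun f f' hf => congrArg g (hS hf)⟩

lemma Loc.comp₂ {β γ δ : Type*} {φ : Om d → β} {ψ : Om d → γ} (h : Loc φ) (h' : Loc ψ)
    (g : β → γ → δ) : Loc (fun f => g (φ f) (ψ f)) := by
  classical
  obtain ⟨S, hS⟩ := h
  obtain ⟨T, hT⟩ := h'
  refine ⟨S ∪ T, fun f f' hf => ?_⟩
  show g (φ f) (ψ f) = g (φ f') (ψ f')
  rw [hS (fun x hx => hf x (by simp at hx; simp [hx])),
    hT (fun x hx => hf x (by simp at hx; simp [hx]))]

lemma loc_sum {ι β : Type*} [AddCommMonoid β] (s : Finset ι) {φ : ι → Om d → β}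
    (h : ∀ i ∈ s, Loc (φ i)) : Loc (fun f => ∑ i ∈ s, φ i f) := by
  classical
  induction s using Finset.induction with
  | empty => simpa using loc_const (0 : β)
  | insert a s ha ih =>
    simp only [Finset.sum_insert ha]
    exact Loc.comp₂ (h a (by simp)) (ih fun i hi => h i (by simp [hi])) (· + ·)

/-- composition of a local function with a map whose values at any site are local functions -/
lemma Loc.precomp {β : Type*} {φ : Om d → β} (h : Loc φ) {g : Om d → Om d}
    (hg : ∀ x, Loc (fun f => g f x)) : Loc (fun f => φ (g f)) := by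
  classical
  obtain ⟨S, hS⟩ := h
  choose T hT using hg
  refine ⟨S.biUnion T, fun f f' hf => ?_⟩
  refine hS fun x hx => ?_
  refine hT x fun y hy => hf y ?_
  simp only [Finset.coe_biUnion, Set.mem_iUnion]
  exact ⟨x, hx, hy⟩

lemma loc_newh (x : V d) : Loc (fun f : Om d => newh f x) :=
  ⟨nbhd x, fun _ _ h => newh_congr' h⟩

lemma loc_upd (x y : V d) : Loc (fun f : Om d => upd x f y) := by
  by_cases h : y = x
  · subst h
    simpa using loc_newh y
  · simp only [upd_ne h]
    exact loc_eval y

lemma loc_recentre (x : V d) : Loc (fun f : Om d => recentre f x) := by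
  unfold recentre
  exact (loc_eval x).comp₂ (loc_eval 0) (· - ·)

lemma Loc.upd {β : Type*} {φ : Om d → β} (h : Loc φ) (x : V d) : Loc (fun f => φ (upd x f)) :=
  h.precomp (loc_upd x)

lemma Loc.recentre {β : Type*} {φ : Om d → β} (h : Loc φ) : Loc (fun f => φ (recentre f)) :=
  h.precomp loc_recentre

lemma Loc.boxStep {L : ℕ} {φ : Om d → ℝ} (h : Loc φ) : Loc (boxStep L φ) := by
  unfold BD.boxStep
  exact (loc_sum (box d L) (fun x _ => h.upd x)).comp (fun r => ((box d L).card : ℝ)⁻¹ * r)

lemma Loc.boxStep_iter {L : ℕ} {φ : Om d → ℝ} (h : Loc φ) (n : ℕ) :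
    Loc ((BD.boxStep L)^[n] φ) := by
  induction n with
  | zero => exact h
  | succ n ih =>
    rw [Function.iterate_succ_apply']
    exact ih.boxStep

lemma measurable_of_loc {g : Om d → Om d} (hg : ∀ x, Loc (fun f => g f x)) : Measurable g :=
  measurable_pi_iff.2 fun x => (hg x).measurable

lemma measurable_recentre : Measurable (recentre : Om d → Om d) := measurable_of_loc loc_recentre

end Pool.Agent.W833.BD
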