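import Pool.Agent.W833.BD.Psi

/-! The main inequality for the slope of the limit law. -/

namespace Pool.Agent.W833.BD

set_option linter.unusedSectionVars false

open MeasureTheory Filter Topology
open scoped ENNReal NNReal

variable {d : ℕ} [NeZero d]

/-- the two chains driven by the same letters -/
noncomputable def tr2 (s : St d × St d) (x : V d) : St d × St d :=
  (stepC false s.1 x, stepC true s.2 x)

/-- the truncated difference of the two lower bounds -/
noncomputable def Qf (R : ℕ) (s : St d × St d) (w : Om d) : ℝ :=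
  if |w (site false s.1)| ≤ R ∧ |w (site true s.2)| ≤ R then
    (s.1.M : ℝ) + w (site false s.1) - w (site true s.2) else 0

lemma loc_Qf (R : ℕ) (s : St d × St d) : Loc (Qf R s) :=
  (loc_eval (site false s.1)).comp₂ (loc_eval (site true s.2))
    (fun a b : ℤ => if |a| ≤ R ∧ |b| ≤ R then (s.1.M : ℝ) + a - b else 0)

lemma abs_Qf_le (R : ℕ) (s : St d × St d) (w : Om d) : |Qf R s w| ≤ |(s.1.M : ℝ)| + 2 * R := by
  unfold Qf
  split_ifs with h
  · have h1 : |(w (site false s.1) : ℝ)| ≤ R := by exact_mod_cast h.1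
    have h2 : |(w (site true s.2) : ℝ)| ≤ R := by exact_mod_cast h.2
    rw [abs_le] at h1 h2 ⊢
    have h3 := neg_abs_le (s.1.M : ℝ)
    have h4 := le_abs_self (s.1.M : ℝ)
    constructor <;> linarith
  · simp
    positivity

lemma abs_Qf_le' (R : ℕ) (s : St d × St d) (w : Om d) :
    |Qf R s w| ≤ |(s.1.M : ℝ)| + |(w (site false s.1) : ℝ)| + |(w (site true s.2) : ℝ)| := by
  unfold Qf
  split_ifs with h
  · have h1 := abs_sub ((s.1.M : ℝ) + w (site false s.1)) (w (site true s.2) : ℝ)
    have h2 := abs_add_le (s.1.M : ℝ) (w (site false s.1))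
    linarith
  · simp
    positivity

/-- the lower bound for the growth -/
lemma Av_le_psi (L n R : ℕ) (f : Om d) :
    (Av (box d L) tr2)^[n] (fun s => (f (site true s.2) : ℝ) + Qf R s (recentre f)) (st0 d, st0 d)
      ≤ psi L n f := by
  refine boxStep_ge_Av (L := L) (tr := tr2)
    (R := fun Φ s => Valid false Φ s.1 ∧ Valid true Φ s.2 ∧ Inv false s.1) ?_ ?_ n _ _ ?_
  · rintro Φ s x ⟨h1, h2, h3⟩
    exact ⟨valid_step h1 x, valid_step h2 x, inv_step h3 x⟩
  · rintro Φ s ⟨h1, h2, h3⟩
    unfold Qf
    split_ifs with h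
    · have := le_of_valid_false h1 h3 f
      simp only [recentre, Int.cast_sub]
      linarith
    · have := le_of_valid_true h2 f
      linarith
  · exact ⟨valid_st0 false, valid_st0 true, inv_st0 false⟩

lemma Av_integral {σ : Type*} {Λ : Finset (V d)} {tr : σ → V d → σ} {ρ : Measure (Om d)}
    {g : Om d → σ → ℝ} (hg : ∀ s, Integrable (fun f => g f s) ρ) (n : ℕ) : ∀ s : σ,
    Integrable (fun f => (Av Λ tr)^[n] (g f) s) ρ ∧
    ∫ f, (Av Λ tr)^[n] (g f) s ∂ρ = (Av Λ tr)^[n] (fun s => ∫ f, g f s ∂ρ) s := by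
  induction n with
  | zero => intro s; exact ⟨hg s, rfl⟩
  | succ n ih =>
    intro s
    simp only [Function.iterate_succ_apply']
    have h1 : ∀ f : Om d, Av Λ tr ((Av Λ tr)^[n] (g f)) s
        = ((Λ.card : ℝ))⁻¹ * ∑ x ∈ Λ, (Av Λ tr)^[n] (g f) (tr s x) := fun f => rfl
    have h2 : Av Λ tr ((Av Λ tr)^[n] (fun s => ∫ f, g f s ∂ρ)) s
        = ((Λ.card : ℝ))⁻¹ * ∑ x ∈ Λ, (Av Λ tr)^[n] (fun s => ∫ f, g f s ∂ρ) (tr s x) := rfl
    simp only [h1, h2]
    constructor
    · exact (integrable_finsetSum _ fun x _ => (ih (tr s x)).1).const_mul _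
    · rw [integral_const_mul, integral_finsetSum _ fun x _ => (ih (tr s x)).1]
      congr 1
      exact Finset.sum_congr rfl fun x _ => (ih (tr s x)).2

lemma Av_tendsto {σ ι : Type*} {Λ : Finset (V d)} {tr : σ → V d → σ} {F : Filter ι}
    {g : ι → σ → ℝ} {g' : σ → ℝ} (hg : ∀ s, Tendsto (fun i => g i s) F (𝓝 (g' s))) (n : ℕ) :
    ∀ s : σ, Tendsto (fun i => (Av Λ tr)^[n] (g i) s) F (𝓝 ((Av Λ tr)^[n] g' s)) := by
  induction n with
  | zero => exact hg
  | succ n ih =>
    intro s
    simp only [Function.iterate_succ_apply']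
    exact (tendsto_finsetSum _ fun x _ => ih (tr s x)).const_mul _

lemma Av_comp {σ τ : Type*} {Λ : Finset (V d)} {tr : σ → V d → σ} {tr' : τ → V d → τ}
    {p : σ → τ} (hp : ∀ s x, p (tr s x) = tr' (p s) x) (g : τ → ℝ) (n : ℕ) : ∀ s : σ,
    (Av Λ tr)^[n] (fun s => g (p s)) s = (Av Λ tr')^[n] g (p s) := by
  induction n with
  | zero => intro s; rfl
  | succ n ih =>
    intro s
    simp only [Function.iterate_succ_apply']
    unfold Av at ih ⊢
    congr 1
    refine Finset.sum_congr rfl fun x _ => ?_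
    rw [ih (tr s x), hp]

namespace Seq.Lim

variable {K : ℝ} {s : Seq d K} {μ : Measure (Om d)}

lemma step_a (h : s.Lim μ) (L n R : ℕ) :
    (Av (box d L) tr2)^[n] (fun t : St d × St d => ((site true t.2) 0 : ℝ) + ∫ w, Qf R t w ∂μ)
      (st0 d, st0 d) ≤ n * K / (box d L).card := by
  obtain ⟨D, hD⟩ := s.psi_growth L n
  set G : ℕ → St d × St d → ℝ := fun N t =>
    ∫ f, ((f (site true t.2) : ℝ) - f 0 + Qf R t (recentre f)) ∂(s.ρ N) with hG
  have h1 : ∀ t, Tendsto (fun N => G N t) (hyperfilter ℕ : Filter ℕ)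
      (𝓝 (((site true t.2) 0 : ℝ) + ∫ w, Qf R t w ∂μ)) := by
    intro t
    have h2 : ∀ N, G N t = ((site true t.2) 0 : ℝ) + ∫ f, Qf R t (recentre f) ∂(s.ρ N) := by
      intro N
      simp only [hG]
      rw [integral_add]
      · congr 1
        have := (s.good N).mean 0 (site true t.2)
        simpa using this
      · exact ((s.good N).int_eval _).sub ((s.good N).int_eval _)
      · exact (s.good N).int _ (loc_Qf R t).recentre.measurable
    simp only [h2]
    exact tendsto_const_nhds.add (h.tendsto_loc (loc_Qf R t) (abs_Qf_le R t))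
  have h2 := Av_tendsto (Λ := box d L) (tr := tr2) h1 n (st0 d, st0 d)
  have h3 : Tendsto (fun N : ℕ => n * K / (box d L).card + D / ((N : ℝ) + 1))
      (hyperfilter ℕ : Filter ℕ) (𝓝 (n * K / (box d L).card)) := by
    have h4 : Tendsto (fun N : ℕ => n * K / (box d L).card + D / ((N : ℝ) + 1)) atTop
        (𝓝 (n * K / (box d L).card + 0)) := by
      refine tendsto_const_nhds.add ?_
      have h7 : Tendsto (fun N : ℕ => (N : ℝ) + 1) atTop atTop :=
        tendsto_atTop_add_const_right _ _ tendsto_natCast_atTop_atTop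
      exact Tendsto.div_atTop tendsto_const_nhds h7
    rw [add_zero] at h4
    exact h4.mono_left Nat.hyperfilter_le_atTop
  refine le_of_tendsto_of_tendsto h2 h3 ?_
  have hD' : ∀ᶠ N in (hyperfilter ℕ : Filter ℕ),
      ∫ f, (psi L n f - f 0) ∂(s.ρ N) ≤ n * K / (box d L).card + D / ((N : ℝ) + 1) :=
    Nat.hyperfilter_le_atTop hD
  filter_upwards [hD'] with N hN
  refine le_trans ?_ hN
  have hint : ∀ t : St d × St d, Integrable
      (fun f : Om d => (f (site true t.2) : ℝ) - f 0 + Qf R t (recentre f)) (s.ρ N) := by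
    intro t
    exact (((s.good N).int_eval _).sub ((s.good N).int_eval _)).add
      ((s.good N).int _ (loc_Qf R t).recentre.measurable)
  rw [← (Av_integral (Λ := box d L) (tr := tr2) hint n (st0 d, st0 d)).2]
  refine integral_mono (Av_integral hint n _).1 ?_ ?_
  · exact ((s.good N).int _ (measurable_psi L n)).sub ((s.good N).int_eval 0)
  · intro f
    have h4 := Av_le_psi L n R f
    have h5 : (Av (box d L) tr2)^[n]
        (fun s => (f (site true s.2) : ℝ) + Qf R s (recentre f)) (st0 d, st0 d)
        = (Av (box d L) tr2)^[n]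
        (fun s => (f (site true s.2) : ℝ) - f 0 + Qf R s (recentre f)) (st0 d, st0 d) + f 0 := by
      have h6 : (fun s : St d × St d => (f (site true s.2) : ℝ) + Qf R s (recentre f))
          = fun s => ((f (site true s.2) : ℝ) - f 0 + Qf R s (recentre f)) + f 0 := by
        funext s
        ring
      rw [h6, Av_add, Av_const (Finset.card_pos.1 (card_box_pos L))]
    simp only
    linarith

lemma step_b (h : s.Lim μ) (L n : ℕ) :
    (Av (box d L) tr2)^[n] (fun t : St d × St d => ((site true t.2) 0 : ℝ) +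
      (t.1.M + slope μ * (site false t.1) 0 - slope μ * (site true t.2) 0))
      (st0 d, st0 d) ≤ n * K / (box d L).card := by
  have := h.prob
  have h1 : ∀ t : St d × St d, Tendsto (fun R : ℕ => ((site true t.2) 0 : ℝ) + ∫ w, Qf R t w ∂μ)
      atTop (𝓝 (((site true t.2) 0 : ℝ) +
        (t.1.M + slope μ * (site false t.1) 0 - slope μ * (site true t.2) 0))) := by
    intro t
    refine tendsto_const_nhds.add ?_
    have h2 : ∫ w, ((t.1.M : ℝ) + w (site false t.1) - w (site true t.2)) ∂μ
        = t.1.M + slope μ * (site false t.1) 0 - slope μ * (site true t.2) 0 := by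
      have e1 : Integrable (fun w : Om d => (t.1.M : ℝ) + w (site false t.1)) μ :=
        (integrable_const _).add (h.integrable_eval _)
      rw [integral_sub e1 (h.integrable_eval _),
        integral_add (integrable_const _) (h.integrable_eval _), h.mean, h.mean]
      simp
    rw [← h2]
    refine tendsto_integral_of_dominated_convergence
      (fun w => |(t.1.M : ℝ)| + |(w (site false t.1) : ℝ)| + |(w (site true t.2) : ℝ)|)
      (fun R => (loc_Qf R t).measurable.aestronglyMeasurable) ?_ ?_ ?_
    · exact ((integrable_const _).add (h.integrable_eval _).abs).add (h.integrable_eval _).abs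
    · intro R
      exact Eventually.of_forall fun w => abs_Qf_le' R t w
    · refine Eventually.of_forall fun w => ?_
      refine tendsto_const_nhds.congr' ?_
      obtain ⟨R1, hR1⟩ := exists_nat_ge |(w (site false t.1) : ℝ)|
      obtain ⟨R2, hR2⟩ := exists_nat_ge |(w (site true t.2) : ℝ)|
      filter_upwards [eventually_ge_atTop R1, eventually_ge_atTop R2] with R h3 h4
      unfold Qf
      have h5 : |(w (site false t.1) : ℝ)| ≤ R := hR1.trans (by exact_mod_cast h3)
      have h6 : |(w (site true t.2) : ℝ)| ≤ R := hR2.trans (by exact_mod_cast h4)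
      rw [if_pos ⟨by exact_mod_cast h5, by exact_mod_cast h6⟩]
  refine le_of_tendsto (Av_tendsto (Λ := box d L) (tr := tr2) h1 n (st0 d, st0 d)) ?_
  exact Eventually.of_forall fun R => h.step_a L n R

/-- The main inequality. -/
lemma step_c (h : s.Lim μ) (L n : ℕ) :
    (Av (box d L) (stepC false))^[n] (fun t : St d => (t.M : ℝ)) (st0 d)
      + (1 - slope μ) * (Av (box d L) (stepC true))^[n] (fun t : St d => (t.M : ℝ)) (st0 d)
      ≤ n * K / (box d L).card := by
  refine le_trans ?_ (h.step_b L n)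
  have h1 : (Av (box d L) tr2)^[n] (fun t : St d × St d => (t.1.M : ℝ) + (1 - slope μ) * t.2.M)
      (st0 d, st0 d) ≤ (Av (box d L) tr2)^[n] (fun t : St d × St d => ((site true t.2) 0 : ℝ) +
      (t.1.M + slope μ * (site false t.1) 0 - slope μ * (site true t.2) 0)) (st0 d, st0 d) := by
    refine Av_mono_on (fun t : St d × St d => Inv false t.1 ∧ Inv true t.2)
      (fun t x _ ht => ⟨inv_step ht.1 x, inv_step ht.2 x⟩) ?_ n _ ⟨inv_st0 false, inv_st0 true⟩
    rintro t ⟨h1, h2⟩
    rw [site_false_zero h1, site_true_zero h2]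
    apply le_of_eq
    push_cast
    ring
  refine le_trans (le_of_eq ?_) h1
  rw [Av_add, Av_const_mul]
  have h2 := Av_comp (Λ := box d L) (tr := tr2) (tr' := stepC false) (p := Prod.fst)
    (fun _ _ => rfl) (fun t : St d => (t.M : ℝ)) n (st0 d, st0 d)
  have h3 := Av_comp (Λ := box d L) (tr := tr2) (tr' := stepC true) (p := Prod.snd)
    (fun _ _ => rfl) (fun t : St d => (t.M : ℝ)) n (st0 d, st0 d)
  rw [h2, h3]

/-- The slope of the limit law is positive if the growth of the flat interface is fast enough. -/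
theorem slope_pos (h : s.Lim μ) {φ : ℕ → ℝ} {c : ℝ}
    (hc : 0 ≤ c) (hφ1 : φ 1 = 0) (hmono : Monotone φ) (hle : ∀ u, φ u ≤ 1)
    (hφ : ∀ u : ℕ, 1 ≤ u → c ≤ u * (1 - φ u) + (u * (2 * (d - 1 : ℕ) - u)) * (φ (u + 1) - φ u))
    (hK : K < 2 * c) : 0 < slope μ := by
  by_contra ha
  push Not at ha
  set a := slope μ with ha'
  -- the inequality for every `T`, after `L → ∞`
  have h1 : ∀ T : ℕ, (2 - a) * (c * T - c - 1) ≤ T * K := by
    intro T
    have h2 : ∀ L : ℕ, 0 < L →
        (2 - a) * (c * T * (1 - Real.exp ((2 * d + 1) * T) / L) - c - 1) ≤ T * K := by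
      intro L hL
      have hcard : (0 : ℝ) < (box d L).card := by exact_mod_cast card_box_pos L
      have h3 := h.step_c L (T * (box d L).card)
      have h4 := Av_M_ge (b := false) (B := c) (φ := φ) (c := c) (by linarith) (by linarith) hc hφ1
        hmono hle hφ hL T
      have h5 := Av_M_ge (b := true) (B := c) (φ := φ) (c := c) (by linarith) (by linarith) hc hφ1
        hmono hle hφ hL T
      have h6 : ((T * (box d L).card : ℕ) : ℝ) * K / (box d L).card = T * K := by
        push_cast
        field_simp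
      rw [h6] at h3
      have h7 : (1 - a) * (c * T * (1 - Real.exp ((2 * d + 1) * T) / L) - c - 1)
          ≤ (1 - a) * (Av (box d L) (stepC true))^[T * (box d L).card]
            (fun t : St d => (t.M : ℝ)) (st0 d) :=
        mul_le_mul_of_nonneg_left h5 (by linarith)
      linarith
    have h3 : Tendsto (fun L : ℕ =>
        (2 - a) * (c * T * (1 - Real.exp ((2 * d + 1) * T) / L) - c - 1)) atTop
        (𝓝 ((2 - a) * (c * T * (1 - 0) - c - 1))) := by
      refine Tendsto.const_mul _ (Tendsto.sub_const (Tendsto.sub_const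
        (Tendsto.const_mul _ (tendsto_const_nhds.sub ?_)) _) _)
      exact Tendsto.div_atTop tendsto_const_nhds tendsto_natCast_atTop_atTop
    rw [sub_zero, mul_one] at h3
    exact le_of_tendsto h3 ((eventually_gt_atTop 0).mono h2)
  -- `T → ∞`
  have h2 : (2 - a) * c ≤ K := by
    have h3 : ∀ T : ℕ, 0 < T → (2 - a) * c - (2 - a) * (c + 1) / T ≤ K := by
      intro T hT
      have hT' : (0 : ℝ) < T := by exact_mod_cast hT
      have h4 := h1 T
      have h5 : (2 - a) * c - (2 - a) * (c + 1) / T = ((2 - a) * (c * T - c - 1)) / T := by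
        field_simp
        ring
      rw [h5, div_le_iff₀ hT']
      linarith
    have h4 : Tendsto (fun T : ℕ => (2 - a) * c - (2 - a) * (c + 1) / T) atTop
        (𝓝 ((2 - a) * c - 0)) :=
      tendsto_const_nhds.sub (Tendsto.div_atTop tendsto_const_nhds tendsto_natCast_atTop_atTop)
    rw [sub_zero] at h4
    exact le_of_tendsto h4 ((eventually_gt_atTop 0).mono h3)
  nlinarith

end Seq.Lim

end Pool.Agent.W833.BD
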