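import Pool.Agent.W833.BD.Sym

/-! Averages of stationary laws, and the failure of decorrelation. -/

namespace Pool.Agent.W833.BD

set_option linter.unusedSectionVars false

open MeasureTheory Filter Topology
open scoped ENNReal

variable {d : ℕ} [NeZero d]

/-- the gradient field -/
def grad {d : ℕ} (g : Om d) (x : V d) : Fin d → ℤ := fun i => g (x + Pi.single i 1) - g x

section avg

variable {ι : Type*} [Fintype ι] [Nonempty ι]

/-- the average of finitely many measures -/
noncomputable def avg (m : ι → Measure (Om d)) : Measure (Om d) :=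
  (Fintype.card ι : ℝ≥0∞)⁻¹ • ∑ i, m i

lemma avg_apply (m : ι → Measure (Om d)) (s : Set (Om d)) :
    avg m s = (Fintype.card ι : ℝ≥0∞)⁻¹ * ∑ i, m i s := by
  unfold avg
  simp only [Measure.smul_apply, Measure.coe_finsetSum, Finset.sum_apply, smul_eq_mul]

lemma card_ne : (Fintype.card ι : ℝ≥0∞)⁻¹ ≠ ∞ := by
  rw [ENNReal.inv_ne_top]
  have : 0 < Fintype.card ι := Fintype.card_pos
  exact_mod_cast this.ne'

lemma integrable_avg {m : ι → Measure (Om d)} {φ : Om d → ℝ} (h : ∀ i, Integrable φ (m i)) :
    Integrable φ (avg m) := by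
  unfold avg
  refine Integrable.smul_measure ?_ card_ne
  rw [integrable_finsetSum_measure]
  exact fun i _ => h i

lemma integral_avg {m : ι → Measure (Om d)} {φ : Om d → ℝ} (h : ∀ i, Integrable φ (m i)) :
    ∫ f, φ f ∂(avg m) = (Fintype.card ι : ℝ)⁻¹ * ∑ i, ∫ f, φ f ∂(m i) := by
  unfold avg
  rw [integral_smul_measure, integral_finsetSum_measure (fun i _ => h i), ENNReal.toReal_inv,
    ENNReal.toReal_natCast]
  rfl

lemma prob_avg {m : ι → Measure (Om d)} (h : ∀ i, IsProbabilityMeasure (m i)) :
    IsProbabilityMeasure (avg m) := by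
  constructor
  rw [avg_apply]
  simp only [measure_univ, Finset.sum_const, Finset.card_univ, nsmul_eq_mul, mul_one]
  apply ENNReal.inv_mul_cancel
  · have : 0 < Fintype.card ι := Fintype.card_pos
    exact_mod_cast this.ne'
  · exact ENNReal.natCast_ne_top _

lemma map_avg {m : ι → Measure (Om d)} {T : Om d → Om d} (hT : Measurable T) :
    (avg m).map T = avg (fun i => (m i).map T) := by
  ext s hs
  rw [Measure.map_apply hT hs, avg_apply, avg_apply]
  simp only [Measure.map_apply hT hs]

lemma Nice.avg {m : ι → Measure (Om d)} (h : ∀ i, Nice (m i)) : Nice (BD.avg m) where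
  wstat := {
    prob := prob_avg fun i => (h i).wstat.prob
    zero := by
      rw [ae_iff, avg_apply]
      have : ∀ i, m i {a | ¬ a 0 = 0} = 0 := fun i => ae_iff.1 (h i).wstat.zero
      simp [this]
    sum := by
      intro S Φ hΦ hC hinv
      obtain ⟨C, hC⟩ := hC
      have hloc : Loc Φ := ⟨S, hΦ⟩
      rw [integral_avg]
      · rw [Finset.sum_eq_zero, mul_zero]
        intro i _
        exact (h i).wstat.sum hΦ ⟨C, hC⟩ hinv
      · intro i
        have := (h i).wstat.prob
        exact integrable_finsetSum _ fun x _ =>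
          (integrable_of_loc (hloc.upd x) (fun f => hC _)).sub (integrable_of_loc hloc hC) }
  int := fun x => integrable_avg fun i => (h i).int x
  trans := fun z => by
    rw [map_avg (measurable_of_loc (loc_Tz z))]
    congr 1
    funext i
    exact (h i).trans z

end avg

/-! ## Cesàro averages -/

/-- the number of near-diagonal terms -/
lemma near_le (N n0 i : ℕ) :
    ∑ j ∈ Finset.range N, (if j < i + n0 ∧ i < j + n0 then (1 : ℝ) else 0) ≤ 2 * n0 := by
  rw [← Finset.sum_filter, Finset.sum_const, nsmul_eq_mul, mul_one]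
  have h1 : (Finset.range N).filter (fun j => j < i + n0 ∧ i < j + n0)
      ⊆ Finset.Ico (i + 1 - n0) (i + n0) := by
    intro j hj
    rw [Finset.mem_filter] at hj
    rw [Finset.mem_Ico]
    omega
  have h2 := Finset.card_le_card h1
  rw [Nat.card_Ico] at h2
  have h3 : ((Finset.range N).filter (fun j => j < i + n0 ∧ i < j + n0)).card ≤ 2 * n0 := by omega
  exact_mod_cast h3

/-- a correlation sequence whose Cesàro means are bounded below is infinitely often large -/
lemma freq_of_cesaro {C : ℕ → ℝ} {E : ℕ → ℕ → ℝ} {c0 B : ℝ} (hc0 : 0 < c0)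
    (hE : ∀ i k, E i (i + k) = C k) (hE' : ∀ i k, E (i + k) i = C k) (hB : ∀ k, C k ≤ B)
    (hB0 : 0 ≤ B)
    (hces : ∀ N : ℕ, (N : ℝ) ^ 2 * c0 ≤ ∑ i ∈ Finset.range N, ∑ j ∈ Finset.range N, E i j) :
    ∀ n0, ∃ n, n0 ≤ n ∧ c0 / 2 ≤ C n := by
  by_contra hcon
  push Not at hcon
  obtain ⟨n0, hn0⟩ := hcon
  have h1 : ∀ i j, E i j ≤ c0 / 2 + B * (if j < i + n0 ∧ i < j + n0 then (1 : ℝ) else 0) := by
    intro i j
    split_ifs with h
    · rcases le_total i j with hij | hij
      · obtain ⟨k, rfl⟩ := Nat.exists_eq_add_of_le hij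
        rw [hE]
        have := hB k
        linarith
      · obtain ⟨k, rfl⟩ := Nat.exists_eq_add_of_le hij
        rw [hE']
        have := hB k
        linarith
    · rcases le_total i j with hij | hij
      · obtain ⟨k, rfl⟩ := Nat.exists_eq_add_of_le hij
        rw [hE]
        have hk : n0 ≤ k := by
          by_contra hk
          exact h ⟨by omega, by omega⟩
        have := hn0 k hk
        linarith
      · obtain ⟨k, rfl⟩ := Nat.exists_eq_add_of_le hij
        rw [hE']
        have hk : n0 ≤ k := by
          by_contra hk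
          exact h ⟨by omega, by omega⟩
        have := hn0 k hk
        linarith
  obtain ⟨N, hN⟩ := exists_nat_gt (4 * B * n0 / c0)
  have hN0 : (0 : ℝ) < N := lt_of_le_of_lt (by positivity) hN
  rw [div_lt_iff₀ hc0] at hN
  have h2 : ∑ i ∈ Finset.range N, ∑ j ∈ Finset.range N, E i j
      ≤ ∑ i ∈ Finset.range N, (N * (c0 / 2) + B * (2 * n0)) := by
    refine Finset.sum_le_sum fun i _ => ?_
    refine (Finset.sum_le_sum fun j _ => h1 i j).trans ?_
    rw [Finset.sum_add_distrib, Finset.sum_const, Finset.card_range, nsmul_eq_mul,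
      ← Finset.mul_sum]
    have := mul_le_mul_of_nonneg_left (near_le N n0 i) hB0
    linarith
  rw [Finset.sum_const, Finset.card_range, nsmul_eq_mul] at h2
  have h3 := (hces N).trans h2
  have h4 : (N : ℝ) * (N * c0) ≤ N * (N * (c0 / 2) + B * (2 * n0)) := by
    refine le_trans (le_of_eq ?_) h3
    ring
  have h5 := le_of_mul_le_mul_left h4 hN0
  linarith

end Pool.Agent.W833.BD
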