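import Pool.Agent.W833.BD.Defs

/-! Neighbourhoods in the hyperplanes `x 0 = const` of `ℤ^d`. -/

namespace Pool.Agent.W833.BD

set_option linter.unusedSectionVars false
set_option linter.unusedTactic false

variable {d : ℕ} [NeZero d]

/-- the directions different from `± e_0` -/
def hdirs (d : ℕ) [NeZero d] : Finset (Fin d × Bool) := Finset.univ.filter (fun p => p.1 ≠ 0)

lemma card_hdirs : (hdirs d).card = 2 * (d - 1) := by
  have h : hdirs d = (Finset.univ.erase (0 : Fin d)) ×ˢ (Finset.univ : Finset Bool) := by
    ext p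
    simp [hdirs]
  rw [h, Finset.card_product, Finset.card_erase_of_mem (Finset.mem_univ _)]
  simp
  ring

/-- the neighbours in the hyperplane -/
noncomputable def nb (y : V d) : Finset (V d) := (hdirs d).image (fun p => y + stp p)

/-- the neighbours in the hyperplane of the points of `C` -/
noncomputable def hn (C : Finset (V d)) : Finset (V d) := C.biUnion nb

lemma stp_injective : Function.Injective (stp : Fin d × Bool → V d) := by
  rintro ⟨i, a⟩ ⟨j, b⟩ h
  have hi := congrFun h i
  simp only [stp, Pi.single_eq_same] at hi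
  by_cases hij : i = j
  · subst hij
    simp only [Pi.single_eq_same] at hi
    cases a <;> cases b <;> simp_all
  · rw [Pi.single_eq_of_ne hij] at hi
    cases a <;> simp at hi

lemma card_nb (y : V d) : (nb y).card = 2 * (d - 1) := by
  rw [nb, Finset.card_image_of_injective, card_hdirs]
  intro p q h
  exact stp_injective (add_left_cancel h)

lemma stp_eq_one {p : Fin d × Bool} {i : Fin d} (h : stp p i = 1) : p = (i, true) := by
  obtain ⟨j, b⟩ := p
  simp only [stp] at h
  by_cases hij : i = j
  · subst hij
    rw [Pi.single_eq_same] at h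
    cases b <;> simp_all
  · rw [Pi.single_eq_of_ne hij] at h
    simp at h

lemma stp_eq_neg_one {p : Fin d × Bool} {i : Fin d} (h : stp p i = -1) : p = (i, false) := by
  obtain ⟨j, b⟩ := p
  simp only [stp] at h
  by_cases hij : i = j
  · subst hij
    rw [Pi.single_eq_same] at h
    cases b <;> simp_all
  · rw [Pi.single_eq_of_ne hij] at h
    simp at h

lemma card_nb_inter {y z : V d} (h : y ≠ z) : (nb y ∩ nb z).card ≤ 2 := by
  obtain ⟨i, hi⟩ := Function.ne_iff.1 h
  rcases lt_or_gt_of_ne hi with hi | hi
  · have : nb y ∩ nb z ⊆ {y + stp (i, true), z + stp (i, false)} := by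
      intro w hw
      simp only [nb, Finset.mem_inter, Finset.mem_image] at hw
      obtain ⟨⟨p, -, rfl⟩, ⟨q, -, hq⟩⟩ := hw
      have h1 := congrFun hq i
      simp only [Pi.add_apply] at h1
      have h2 := stp_apply_abs_le p i
      have h3 := stp_apply_abs_le q i
      rw [abs_le] at h2 h3
      have : stp p i = 1 ∨ stp q i = -1 := by omega
      rcases this with h4 | h4
      · rw [stp_eq_one h4]
        simp
      · rw [← hq, stp_eq_neg_one h4]
        simp
    exact (Finset.card_le_card this).trans Finset.card_le_two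
  · have : nb y ∩ nb z ⊆ {y + stp (i, false), z + stp (i, true)} := by
      intro w hw
      simp only [nb, Finset.mem_inter, Finset.mem_image] at hw
      obtain ⟨⟨p, -, rfl⟩, ⟨q, -, hq⟩⟩ := hw
      have h1 := congrFun hq i
      simp only [Pi.add_apply] at h1
      have h2 := stp_apply_abs_le p i
      have h3 := stp_apply_abs_le q i
      rw [abs_le] at h2 h3
      have : stp p i = -1 ∨ stp q i = 1 := by omega
      rcases this with h4 | h4
      · rw [stp_eq_neg_one h4]
        simp
      · rw [← hq, stp_eq_one h4]
        simp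
    exact (Finset.card_le_card this).trans Finset.card_le_two

lemma card_hn_ge (C : Finset (V d)) :
    (C.card : ℤ) * (2 * (d - 1 : ℕ)) - C.card * (C.card - 1) ≤ (hn C).card := by
  induction C using Finset.induction with
  | empty => simp [hn]
  | insert y C hy ih =>
    have h1 : hn (insert y C) = nb y ∪ hn C := by
      simp [hn, Finset.biUnion_insert]
    have h2 : (nb y ∩ hn C).card ≤ C.card * 2 := by
      have : nb y ∩ hn C = C.biUnion (fun z => nb y ∩ nb z) := by
        simp only [hn]
        rw [Finset.inter_biUnion]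
      rw [this]
      refine Finset.card_biUnion_le_card_mul _ _ _ ?_
      intro z hz
      exact card_nb_inter (fun h => hy (h ▸ hz))
    have h3 := Finset.card_union_add_card_inter (nb y) (hn C)
    rw [card_nb] at h3
    rw [h1, Finset.card_insert_of_notMem hy]
    push_cast
    have h3' : ((nb y ∪ hn C).card : ℤ) = 2 * (d - 1 : ℕ) + (hn C).card - (nb y ∩ hn C).card := by
      push_cast [← h3]
      omega
    have h2' : ((nb y ∩ hn C).card : ℤ) ≤ C.card * 2 := by exact_mod_cast h2
    rw [h3']
    nlinarith

lemma card_hn_sdiff_ge (C : Finset (V d)) :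
    (C.card : ℝ) * (2 * (d - 1 : ℕ) - C.card) ≤ (hn C \ C).card := by
  have h1 := card_hn_ge C
  have h2 : (hn C).card ≤ (hn C \ C).card + C.card := by
    have := Finset.card_le_card (Finset.subset_union_left (s₁ := hn C) (s₂ := C))
    rw [← Finset.sdiff_union_self_eq_union, ] at this
    exact this.trans (Finset.card_union_le _ _)
  have h3 : ((hn C).card : ℤ) ≤ (hn C \ C).card + C.card := by exact_mod_cast h2
  have h4 : (C.card : ℤ) * (2 * (d - 1 : ℕ) - C.card) ≤ (hn C \ C).card := by nlinarith
  exact_mod_cast h4

lemma card_hn_le (C : Finset (V d)) : (hn C).card ≤ C.card * (2 * (d - 1)) :=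
  Finset.card_biUnion_le_card_mul _ _ _ (fun y _ => (card_nb y).le)

lemma mem_hn {C : Finset (V d)} {x : V d} : x ∈ hn C ↔ ∃ y ∈ C, ∃ p ∈ hdirs d, x = y + stp p := by
  simp only [hn, nb, Finset.mem_biUnion, Finset.mem_image]
  constructor
  · rintro ⟨y, hy, p, hp, rfl⟩
    exact ⟨y, hy, p, hp, rfl⟩
  · rintro ⟨y, hy, p, hp, rfl⟩
    exact ⟨y, hy, p, hp, rfl⟩

lemma stp_zero_of_hdirs {p : Fin d × Bool} (h : p ∈ hdirs d) : stp p 0 = 0 := by
  simp only [hdirs, Finset.mem_filter, Finset.mem_univ, true_and] at h
  simp only [stp]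
  rw [Pi.single_eq_of_ne (Ne.symm h)]

end Pool.Agent.W833.BD
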