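import Pool.Agent.W833.BD.MainIneq

/-! The numerical estimates in large dimension. -/

namespace Pool.Agent.W833.BD

open Finset

/-- the correction function -/
noncomputable def cf (c D : ℝ) (U : ℕ) (u : ℕ) : ℝ :=
  c * ∑ j ∈ range (min u U), 1 / ((j : ℝ) * (D - j))

lemma cf_succ_lt {c D : ℝ} {U u : ℕ} (h : u < U) :
    cf c D U (u + 1) - cf c D U u = c * (1 / ((u : ℝ) * (D - u))) := by
  unfold cf
  rw [min_eq_left (by omega : u + 1 ≤ U), min_eq_left h.le, sum_range_succ]
  ring

lemma cf_succ_ge {c D : ℝ} {U u : ℕ} (h : U ≤ u) :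
    cf c D U (u + 1) - cf c D U u = 0 := by
  unfold cf
  rw [min_eq_right (by omega : U ≤ u + 1), min_eq_right h, sub_self]

lemma cf_eq {c D : ℝ} {U u : ℕ} (h : U ≤ u) : cf c D U u = cf c D U U := by
  unfold cf
  rw [min_eq_right h, min_self]

theorem exists_params {d : ℕ} (hd : 100000 ≤ d) : ∃ (θ c : ℝ) (φ : ℕ → ℝ), 0 < θ ∧ 0 ≤ c ∧
    φ 1 = 0 ∧ Monotone φ ∧ (∀ u, φ u ≤ 1) ∧
    (∀ u : ℕ, 1 ≤ u → c ≤ u * (1 - φ u) + (u * (2 * (d - 1 : ℕ) - u)) * (φ (u + 1) - φ u)) ∧
    kap d θ / θ < 2 * c := by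
  set ℓ : ℝ := Real.log (2 * d) with hℓ
  have hd' : (100000 : ℝ) ≤ d := by exact_mod_cast hd
  have h2d : (0 : ℝ) < 2 * d := by linarith
  have hexpℓ : Real.exp ℓ = 2 * d := Real.exp_log h2d
  have he3 : Real.exp 1 < 3 := lt_trans Real.exp_one_lt_d9 (by norm_num)
  have hℓ10 : 10 < ℓ := by
    rw [hℓ, Real.lt_log_iff_exp_lt h2d]
    have h1 : Real.exp 10 = Real.exp 1 ^ 10 := by
      rw [← Real.exp_nat_mul]
      norm_num
    have h2 : Real.exp 1 ^ 10 < 3 ^ 10 := pow_lt_pow_left₀ he3 (Real.exp_pos 1).le (by norm_num)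
    rw [h1]
    have h3 : (3 : ℝ) ^ 10 = 59049 := by norm_num
    linarith
  set D : ℝ := 2 * ((d - 1 : ℕ) : ℝ) with hD
  have hDd : D = 2 * d - 2 := by
    rw [hD]
    rw [Nat.cast_sub (by omega)]
    push_cast
    ring
  have hD0 : 0 < D := by linarith
  set Dn : ℕ := 2 * (d - 1) with hDn
  have hDnD : (Dn : ℝ) = D := by rw [hDn, hD]; push_cast; ring
  set U : ℕ := Dn / 3 + 1 with hU
  have hU1 : Dn ≤ 3 * U := by omega
  have hU2 : 3 * (U - 1) ≤ Dn := by omega
  have hU1' : D ≤ 3 * U := by rw [← hDnD]; exact_mod_cast hU1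
  have hU0 : (0 : ℝ) < U := by linarith
  have hU2' : 3 * ((U : ℝ) - 1) ≤ D := by
    rw [← hDnD]
    have : ((3 * (U - 1) : ℕ) : ℝ) ≤ Dn := by exact_mod_cast hU2
    rw [Nat.cast_mul, Nat.cast_sub (by omega)] at this
    push_cast at this
    linarith
  set c : ℝ := D / (ℓ + 7 / 2) with hc
  have hℓ0 : 0 < ℓ + 7 / 2 := by linarith
  have hc0 : 0 < c := by positivity
  -- the total increase
  have hsum : ∑ j ∈ range U, 1 / ((j : ℝ) * (D - j)) ≤ (ℓ + 1 / 2) / D := by
    have h1 : ∀ j ∈ range U, 1 / ((j : ℝ) * (D - j)) ≤ (1 / D) * ((if j = 0 then 0 else 1 / (j : ℝ))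
        + 3 / (2 * D) * (if j = 0 then 0 else 1)) := by
      intro j hj
      rw [mem_range] at hj
      by_cases hj0 : j = 0
      · subst hj0
        simp
      · rw [if_neg hj0, if_neg hj0]
        have hj1 : (1 : ℝ) ≤ j := by exact_mod_cast Nat.one_le_iff_ne_zero.2 hj0
        have hjU : (j : ℝ) ≤ U - 1 := by
          have : j + 1 ≤ U := hj
          have : ((j + 1 : ℕ) : ℝ) ≤ U := by exact_mod_cast this
          push_cast at this
          linarith
        have hDj : 2 * D / 3 ≤ D - j := by linarith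
        have hDj0 : 0 < D - j := by linarith
        have h2 : 1 / ((j : ℝ) * (D - j)) = (1 / D) * (1 / j + 1 / (D - j)) := by
          field_simp
          ring
        rw [h2]
        refine mul_le_mul_of_nonneg_left (add_le_add le_rfl ?_) (by positivity)
        rw [mul_one, div_le_div_iff₀ hDj0 (by positivity)]
        linarith
    refine (sum_le_sum h1).trans ?_
    rw [← mul_sum, sum_add_distrib, ← mul_sum]
    have h2 : ∑ j ∈ range U, (if j = 0 then (0 : ℝ) else 1 / (j : ℝ)) ≤ ℓ := by
      obtain ⟨n, hn⟩ : ∃ n, U = n + 1 := ⟨Dn / 3, hU⟩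
      rw [hn, sum_range_succ']
      simp only [Nat.add_eq_zero_iff, one_ne_zero, and_false, if_false, if_true, add_zero]
      have h3 : ∑ k ∈ range n, 1 / (((k + 1 : ℕ) : ℝ)) = ((harmonic n : ℚ) : ℝ) := by
        unfold harmonic
        push_cast
        refine sum_congr rfl fun k _ => ?_
        rw [one_div]
      rw [h3]
      refine (harmonic_le_one_add_log n).trans ?_
      have hn1 : 0 < n := by omega
      have hn0 : (0 : ℝ) < n := by exact_mod_cast hn1
      have h4 : Real.log n ≤ Real.log (2 * d) - 1 := by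
        have h5 : (n : ℝ) * Real.exp 1 ≤ 2 * d := by
          have h6 : 3 * (n : ℝ) ≤ D := by
            have : (U : ℝ) - 1 = n := by rw [hn]; push_cast; ring
            rw [← this]
            exact hU2'
          nlinarith
        have h7 : Real.log (n * Real.exp 1) = Real.log n + 1 := by
          rw [Real.log_mul hn0.ne' (Real.exp_pos 1).ne', Real.log_exp]
        have h8 := Real.log_le_log (by positivity) h5
        rw [h7] at h8
        linarith
      rw [← hℓ] at h4
      linarith
    have h3 : ∑ j ∈ range U, (if j = 0 then (0 : ℝ) else 1) ≤ D / 3 := by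
      obtain ⟨n, hn⟩ : ∃ n, U = n + 1 := ⟨Dn / 3, hU⟩
      rw [hn, sum_range_succ']
      simp only [Nat.add_eq_zero_iff, one_ne_zero, and_false, if_false, if_true, add_zero,
        sum_const, card_range, nsmul_eq_mul, mul_one]
      have : (U : ℝ) - 1 = n := by rw [hn]; push_cast; ring
      rw [← this]
      linarith
    have h4 : 3 / (2 * D) * ∑ j ∈ range U, (if j = 0 then (0 : ℝ) else 1) ≤ 1 / 2 := by
      calc _ ≤ 3 / (2 * D) * (D / 3) := mul_le_mul_of_nonneg_left h3 (by positivity)
        _ = 1 / 2 := by field_simp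
    calc _ ≤ 1 / D * (ℓ + 1 / 2) := mul_le_mul_of_nonneg_left (add_le_add h2 h4) (by positivity)
      _ = _ := by ring
  have hφU : cf c D U U ≤ 1 - c / U := by
    unfold cf
    rw [min_self]
    have h1 : c * ∑ j ∈ range U, 1 / ((j : ℝ) * (D - j)) ≤ c * ((ℓ + 1 / 2) / D) :=
      mul_le_mul_of_nonneg_left hsum hc0.le
    have h2 : c / U ≤ c * (3 / D) := by
      rw [div_eq_mul_inv, ← one_div]
      refine mul_le_mul_of_nonneg_left ?_ hc0.le
      rw [div_le_div_iff₀ hU0 hD0]
      linarith
    have h3 : c * ((ℓ + 1 / 2) / D) + c * (3 / D) = 1 := by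
      rw [hc]
      field_simp
      ring
    linarith
  have hmono : Monotone (cf c D U) := by
    refine monotone_nat_of_le_succ fun u => ?_
    rcases lt_or_ge u U with h | h
    · have h1 := cf_succ_lt (c := c) (D := D) h
      have h2 : (u : ℝ) ≤ U - 1 := by
        have : ((u + 1 : ℕ) : ℝ) ≤ U := by exact_mod_cast h
        push_cast at this
        linarith
      have h3 : 0 < D - u := by linarith
      have h4 : 0 ≤ c * (1 / ((u : ℝ) * (D - u))) := by positivity
      linarith
    · have h1 := cf_succ_ge (c := c) (D := D) h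
      linarith
  have hle : ∀ u, cf c D U u ≤ cf c D U U := by
    intro u
    rcases le_total u U with h | h
    · exact hmono h
    · rw [cf_eq h]
  refine ⟨3 / 4 * ℓ, c, cf c D U, by linarith, hc0.le, ?_, hmono, ?_, ?_, ?_⟩
  · unfold cf
    have : min 1 U = 1 := by omega
    rw [this]
    simp
  · intro u
    have h1 := hle u
    have h2 : 0 ≤ c / U := by positivity
    linarith
  · intro u hu
    have hu' : (1 : ℝ) ≤ u := by exact_mod_cast hu
    rcases lt_or_ge u U with h | h
    · rw [cf_succ_lt h]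
      have h2 : (u : ℝ) ≤ U - 1 := by
        have : ((u + 1 : ℕ) : ℝ) ≤ U := by exact_mod_cast h
        push_cast at this
        linarith
      have h3 : 0 < D - u := by linarith
      have h4 : (u * (D - u)) * (c * (1 / ((u : ℝ) * (D - u)))) = c := by
        field_simp
      rw [h4]
      have h5 : cf c D U u ≤ 1 := by
        have h1 := hle u
        have h2 : 0 ≤ c / U := by positivity
        linarith
      have h6 : 0 ≤ (u : ℝ) * (1 - cf c D U u) := mul_nonneg (by linarith) (by linarith)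
      linarith
    · rw [cf_succ_ge h, cf_eq h, mul_zero, add_zero]
      have h1 : (U : ℝ) ≤ u := by exact_mod_cast h
      have h2 : c / U ≤ 1 - cf c D U U := by linarith
      have h3 : c = U * (c / U) := by field_simp
      have h4 : 0 ≤ c / U := by positivity
      calc c = U * (c / U) := h3
        _ ≤ u * (1 - cf c D U U) := mul_le_mul h1 h2 h4 (by linarith)
  · -- the comparison of the two growth rates
    set x : ℝ := Real.exp (ℓ / 4) with hx
    have hx4 : x ^ 4 = 2 * d := by
      rw [hx, ← Real.exp_nat_mul, ← hexpℓ]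
      congr 1
      push_cast
      ring
    have hx0 : 0 < x := Real.exp_pos _
    have hx21 : 21 ≤ x := by
      by_contra hcon
      push Not at hcon
      have : x ^ 4 < 21 ^ 4 := pow_lt_pow_left₀ hcon hx0.le (by norm_num)
      rw [hx4] at this
      norm_num at this
      linarith
    have hx3 : Real.exp (3 / 4 * ℓ) = x ^ 3 := by
      rw [hx, ← Real.exp_nat_mul]
      congr 1
      push_cast
      ring
    have hneg : Real.exp (-(3 / 4 * ℓ)) ≤ 1 := by
      rw [Real.exp_le_one_iff]
      linarith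
    have hκ : kap d (3 / 4 * ℓ) ≤ 11 / 10 * D := by
      unfold kap
      rw [hx3, hDd, ← hx4]
      have h1 : 21 * x ^ 3 ≤ x ^ 4 := by
        have : x ^ 4 = x * x ^ 3 := by ring
        rw [this]
        exact mul_le_mul_of_nonneg_right hx21 (by positivity)
      have h2 : (1 : ℝ) ≤ x ^ 3 := one_le_pow₀ (by linarith)
      linarith
    rw [div_lt_iff₀ (by linarith)]
    refine lt_of_le_of_lt hκ ?_
    rw [hc]
    have h1 : 2 * (D / (ℓ + 7 / 2)) * (3 / 4 * ℓ) = D * ((3 / 2 * ℓ) / (ℓ + 7 / 2)) := by ring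
    rw [h1]
    have h2 : 11 / 10 < (3 / 2 * ℓ) / (ℓ + 7 / 2) := by
      rw [lt_div_iff₀ hℓ0]
      linarith
    nlinarith

end Pool.Agent.W833.BD
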