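import Pool.Agent.W833.BD.Slope

/-! The mean growth in a box. -/

namespace Pool.Agent.W833.BD

set_option linter.unusedSectionVars false

open MeasureTheory Filter Topology
open scoped ENNReal NNReal

variable {d : ℕ} [NeZero d]

/-- the mean height at the origin after `n` updates in the box -/
noncomputable def psi (L n : ℕ) (f : Om d) : ℝ := (boxStep L)^[n] (fun f => (f 0 : ℝ)) f

lemma loc_psi (L n : ℕ) : Loc (psi L n : Om d → ℝ) :=
  Loc.boxStep_iter ((loc_eval 0).comp (fun k : ℤ => (k : ℝ))) n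

lemma measurable_psi (L n : ℕ) : Measurable (psi L n : Om d → ℝ) := (loc_psi L n).measurable

lemma psi_succ (L n : ℕ) (f : Om d) : psi L (n + 1) f = boxStep L (psi L n) f := by
  unfold psi
  rw [Function.iterate_succ_apply']

lemma psi_mono (L n : ℕ) : Monotone (psi L n : Om d → ℝ) := by
  induction n with
  | zero =>
    intro f g h
    show (f 0 : ℝ) ≤ g 0
    exact_mod_cast h 0
  | succ n ih =>
    intro f g h
    rw [psi_succ, psi_succ]
    unfold boxStep
    refine mul_le_mul_of_nonneg_left ?_ (by positivity)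
    exact Finset.sum_le_sum fun x _ => ih (upd_mono x h)

lemma le_boxStep {L : ℕ} {Φ : Om d → ℝ} {f : Om d} {a : ℝ} (h : ∀ x ∈ box d L, a ≤ Φ (upd x f)) :
    a ≤ boxStep L Φ f := by
  unfold boxStep
  have hc : (0 : ℝ) < (box d L).card := by exact_mod_cast card_box_pos L
  rw [le_inv_mul_iff₀ hc, ← nsmul_eq_mul]
  exact Finset.card_nsmul_le_sum _ _ _ h

lemma boxStep_le {L : ℕ} {Φ : Om d → ℝ} {f : Om d} {a : ℝ} (h : ∀ x ∈ box d L, Φ (upd x f) ≤ a) :
    boxStep L Φ f ≤ a := by
  unfold boxStep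
  have hc : (0 : ℝ) < (box d L).card := by exact_mod_cast card_box_pos L
  rw [inv_mul_le_iff₀ hc, ← nsmul_eq_mul]
  exact Finset.sum_le_card_nsmul _ _ _ h

lemma le_psi (L n : ℕ) : ∀ f : Om d, (f 0 : ℝ) ≤ psi L n f := by
  induction n with
  | zero => intro f; exact le_rfl
  | succ n ih =>
    intro f
    rw [psi_succ]
    refine le_boxStep fun x _ => ?_
    refine le_trans ?_ (ih (upd x f))
    exact_mod_cast le_upd x f 0

lemma box_add_stp {L : ℕ} {x : V d} (hx : x ∈ box d L) (p : Fin d × Bool) :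
    x + stp p ∈ box d (L + 1) := by
  rw [mem_box] at hx ⊢
  intro i
  have h1 := hx i
  have h2 := stp_apply_abs_le p i
  rw [abs_le] at h1 h2 ⊢
  simp only [Pi.add_apply]
  push_cast
  constructor <;> omega

lemma box_mono {L M : ℕ} (h : L ≤ M) : box d L ⊆ box d M := by
  intro x hx
  rw [mem_box] at hx ⊢
  intro i
  have := hx i
  have h' : (L : ℤ) ≤ M := by exact_mod_cast h
  omega

lemma psi_le (L n : ℕ) : ∀ (f : Om d) (b : ℤ), (∀ y ∈ box d (L + 1), f y ≤ b) →
    psi L n f ≤ b + n := by
  induction n with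
  | zero =>
    intro f b h
    have h0 : (0 : V d) ∈ box d (L + 1) := by
      rw [mem_box]
      intro i
      simp
      positivity
    have := h 0 h0
    show (f 0 : ℝ) ≤ _
    have h2 : (f 0 : ℝ) ≤ b := by exact_mod_cast this
    simpa using h2
  | succ n ih =>
    intro f b h
    rw [psi_succ]
    refine boxStep_le fun x hx => ?_
    have h1 : ∀ y ∈ box d (L + 1), upd x f y ≤ b + 1 := by
      intro y hy
      by_cases hyx : y = x
      · subst hyx
        rw [upd_same]
        refine newh_le ?_ ?_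
        · have := h y hy
          omega
        · intro p
          have := h _ (box_add_stp hx p)
          omega
      · rw [upd_ne hyx]
        have := h y hy
        omega
    have := ih (upd x f) (b + 1) h1
    push_cast at this ⊢
    linarith

lemma psi_sub_le (L n : ℕ) (f : Om d) :
    psi L n f - f 0 ≤ ∑ y ∈ box d (L + 1), |(f (0 + y) : ℝ) - f 0| + n := by
  have h := psi_le L n f (f 0 + ∑ y ∈ box d (L + 1), |f y - f 0|) (by
    intro y hy
    have h1 : |f y - f 0| ≤ ∑ y ∈ box d (L + 1), |f y - f 0| :=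
      Finset.single_le_sum (f := fun y => |f y - f 0|) (fun _ _ => abs_nonneg _) hy
    have h2 := le_abs_self (f y - f 0)
    omega)
  push_cast at h
  simp only [zero_add]
  linarith

namespace Seq

variable {K : ℝ} (s : Seq d K)

/-- the mean growth in a box under the approximating laws -/
lemma psi_growth (L n : ℕ) : ∃ D : ℝ, ∀ᶠ N in atTop,
    ∫ f, (psi L n f - f 0) ∂(s.ρ N) ≤ n * K / (box d L).card + D / ((N : ℝ) + 1) := by
  obtain ⟨C, hC⟩ := exists_l1_bound d (2 * K)
  have hc : (0 : ℝ) < (box d L).card := by exact_mod_cast card_box_pos L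
  induction n with
  | zero =>
    refine ⟨0, Eventually.of_forall fun N => ?_⟩
    have : ∀ f : Om d, psi L 0 f - f 0 = 0 := by
      intro f
      simp [psi]
    simp [this]
  | succ n ih =>
    obtain ⟨D, hD⟩ := ih
    set E : ℝ := ∑ y ∈ box d (L + 1), C y + n with hE
    have hE0 : 0 ≤ |E| := abs_nonneg _
    refine ⟨D + ((box d L).card : ℝ)⁻¹ * |E|, ?_⟩
    filter_upwards [hD, s.mono (box d L) (measurable_psi L n) (psi_mono L n)] with N h1 h2
    have hev : ∀ x : V d, Integrable (fun f : Om d => (f x : ℝ)) (s.ρ' N) := (s.good' N).int_eval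
    have := (s.good' N).prob
    -- the right hand side of `h2`
    have h3 : ∫ f, psi L n f ∂(s.ρ' N) ≤ ∫ f, (f 0 : ℝ) ∂(s.ρ' N) + E := by
      have h4 : ∫ f, psi L n f ∂(s.ρ' N)
          ≤ ∫ f : Om d, ((f 0 : ℝ) + (∑ y ∈ box d (L + 1), |(f (0 + y) : ℝ) - f 0| + n)) ∂(s.ρ' N) := by
        refine integral_mono ((s.good' N).int _ (measurable_psi L n)) ?_ ?_
        · refine (hev 0).add (Integrable.add ?_ (integrable_const _))
          refine integrable_finsetSum _ fun y _ => ?_
          exact (s.good' N).int _ ((loc_eval (0 + y)).comp₂ (loc_eval 0)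
            (fun a b : ℤ => |(a : ℝ) - b|)).measurable
        · intro f
          have := psi_sub_le L n f
          simp only
          linarith
      have hint : ∀ y ∈ box d (L + 1),
          Integrable (fun f : Om d => |(f (0 + y) : ℝ) - f 0|) (s.ρ' N) := fun y _ =>
        (s.good' N).int _ ((loc_eval (0 + y)).comp₂ (loc_eval 0)
            (fun a b : ℤ => |(a : ℝ) - b|)).measurable
      have e1 : ∫ f : Om d, ((f 0 : ℝ) + (∑ y ∈ box d (L + 1), |(f (0 + y) : ℝ) - f 0| + n)) ∂(s.ρ' N)
          = ∫ f : Om d, (f 0 : ℝ) ∂(s.ρ' N)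
            + ∫ f : Om d, (∑ y ∈ box d (L + 1), |(f (0 + y) : ℝ) - f 0| + n) ∂(s.ρ' N) :=
        integral_add (hev 0) ((integrable_finsetSum _ hint).add (integrable_const _))
      rw [e1, integral_add_c (integrable_finsetSum _ hint), integral_finsetSum _ hint] at h4
      have h5 : ∑ y ∈ box d (L + 1), ∫ f : Om d, |(f (0 + y) : ℝ) - f 0| ∂(s.ρ' N)
          ≤ ∑ y ∈ box d (L + 1), C y :=
        Finset.sum_le_sum fun y _ => hC _ (s.good' N) 0 y
      linarith
    have h4 : 0 ≤ psi L n (f0 : Om d) := by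
      have := le_psi L n (f0 : Om d)
      simpa [f0] using this
    have h5 : s.ε N * (∫ f, psi L n f ∂(s.ρ' N) - psi L n (f0 : Om d)) ≤ K + |E| / ((N : ℝ) + 1) := by
      have h6 : s.ε N * (∫ f, psi L n f ∂(s.ρ' N) - psi L n (f0 : Om d))
          ≤ s.ε N * (∫ f, (f 0 : ℝ) ∂(s.ρ' N) + |E|) := by
        refine mul_le_mul_of_nonneg_left ?_ (s.ε_nonneg N)
        have := le_abs_self E
        linarith
      have h7 : s.ε N * |E| ≤ 1 / ((N : ℝ) + 1) * |E| :=
        mul_le_mul_of_nonneg_right (s.ε_le N) hE0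
      have h8 := s.mean N
      calc _ ≤ _ := h6
        _ = s.ε N * ∫ f, (f 0 : ℝ) ∂(s.ρ' N) + s.ε N * |E| := by ring
        _ ≤ K + 1 / ((N : ℝ) + 1) * |E| := add_le_add h8 h7
        _ = K + |E| / ((N : ℝ) + 1) := by ring
    -- the increment
    have hev' : Integrable (fun f : Om d => (f 0 : ℝ)) (s.ρ N) := (s.good N).int_eval 0
    have hintp : ∀ n, Integrable (psi L n : Om d → ℝ) (s.ρ N) := fun n =>
      (s.good N).int _ (measurable_psi L n)
    have h9 : ∫ f, (psi L (n + 1) f - f 0) ∂(s.ρ N) = ∫ f, (psi L n f - f 0) ∂(s.ρ N)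
        + ((box d L).card : ℝ)⁻¹ * ∑ x ∈ box d L, ∫ f, (psi L n (upd x f) - psi L n f) ∂(s.ρ N) := by
      have hintd : ∀ x ∈ box d L, Integrable (fun f : Om d => psi L n (upd x f) - psi L n f) (s.ρ N) :=
        fun x _ => (s.good N).int _ (((loc_psi L n).upd x).comp₂ (loc_psi L n)
          (fun a b : ℝ => a - b)).measurable
      have e2 : Integrable (fun f : Om d => psi L n f - (f 0 : ℝ)) (s.ρ N) := (hintp n).sub hev'
      rw [← integral_finsetSum _ hintd, ← integral_const_mul, ← integral_add e2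
        ((integrable_finsetSum _ hintd).const_mul _)]
      congr 1
      funext f
      rw [psi_succ]
      unfold boxStep
      rw [Finset.sum_sub_distrib, Finset.sum_const, nsmul_eq_mul]
      field_simp
      ring
    rw [h9]
    have h10 : ((box d L).card : ℝ)⁻¹ * ∑ x ∈ box d L, ∫ f, (psi L n (upd x f) - psi L n f) ∂(s.ρ N)
        ≤ ((box d L).card : ℝ)⁻¹ * (K + |E| / ((N : ℝ) + 1)) :=
      mul_le_mul_of_nonneg_left (h2.trans h5) (by positivity)
    calc _ ≤ (n * K / (box d L).card + D / ((N : ℝ) + 1))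
          + ((box d L).card : ℝ)⁻¹ * (K + |E| / ((N : ℝ) + 1)) := add_le_add h1 h10
      _ = ((n + 1 : ℕ) : ℝ) * K / (box d L).card
          + (D + ((box d L).card : ℝ)⁻¹ * |E|) / ((N : ℝ) + 1) := by
          push_cast
          field_simp
          ring

end Seq

end Pool.Agent.W833.BD
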