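import Pool.Agent.W833.BD.Dep

/-! The finite box expectations and their limit. -/

namespace Pool.Agent.W833.BD

set_option linter.unusedSectionVars false

open MeasureTheory Filter Topology

variable {d : ℕ}

/-- Poisson weights -/
noncomputable def pw (l : ℝ) (n : ℕ) : ℝ := Real.exp (-l) * (l ^ n / n.factorial)

lemma pw_nonneg {l : ℝ} (hl : 0 ≤ l) (n : ℕ) : 0 ≤ pw l n := by
  unfold pw
  positivity

lemma pw_hasSum (l q : ℝ) : HasSum (fun n => pw l n * q ^ n) (Real.exp (l * (q - 1))) := by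
  have h := (NormedSpace.expSeries_div_hasSum_exp (l * q)).mul_left (Real.exp (-l))
  rw [← Real.exp_eq_exp_ℝ, ← Real.exp_add] at h
  have h1 : -l + l * q = l * (q - 1) := by ring
  rw [h1] at h
  have h2 : (fun n : ℕ => pw l n * q ^ n)
      = fun n : ℕ => Real.exp (-l) * ((l * q) ^ n / (n.factorial : ℝ)) := by
    funext n
    unfold pw
    rw [mul_pow]
    ring
  rw [h2]
  exact h

lemma pw_sum_one (l : ℝ) : HasSum (pw l) 1 := by
  have := pw_hasSum l 1
  simpa using this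

lemma pw_bound {l : ℝ} (hl : 0 ≤ l) {a : ℕ → ℝ} {E q : ℝ} (h : ∀ n, |a n| ≤ E * q ^ n) :
    Summable (fun n => pw l n * a n) ∧ |∑' n, pw l n * a n| ≤ E * Real.exp (l * (q - 1)) := by
  have h1 : HasSum (fun n => E * (pw l n * q ^ n)) (E * Real.exp (l * (q - 1))) :=
    (pw_hasSum l q).mul_left E
  have h2 : ∀ n, ‖pw l n * a n‖ ≤ E * (pw l n * q ^ n) := by
    intro n
    rw [Real.norm_eq_abs, abs_mul, abs_of_nonneg (pw_nonneg hl n)]
    calc pw l n * |a n| ≤ pw l n * (E * q ^ n) := mul_le_mul_of_nonneg_left (h n) (pw_nonneg hl n)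
      _ = _ := by ring
  refine ⟨Summable.of_norm_bounded h1.summable h2, ?_⟩
  rw [← h1.tsum_eq, ← Real.norm_eq_abs]
  exact tsum_of_norm_bounded h1.summable.hasSum h2

/-- the Poissonised iterates -/
noncomputable def lzExp (Λ B : Finset (V d)) (t : ℝ) (Φ : Om d → ℝ) (f : Om d) : ℝ :=
  ∑' n, pw (Λ.card * t) n * (lz Λ B)^[n] Φ f

lemma boxExp_eq (L : ℕ) (t : ℝ) (Φ : Om d → ℝ) (f : Om d) :
    boxExp L t Φ f = lzExp (box d L) (box d L) t Φ f := by
  unfold boxExp lzExp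
  rw [boxStep_eq_lz]
  rfl

/-- the sum of the updates of the sites of `B` -/
noncomputable def Tl (B : Finset (V d)) : Module.End ℝ (Om d → ℝ) where
  toFun Φ f := ∑ x ∈ B, Φ (upd x f)
  map_add' Φ Ψ := by
    funext f
    simp [Finset.sum_add_distrib]
  map_smul' c Φ := by
    funext f
    simp [Finset.mul_sum]

lemma lz_eq {Λ B : Finset (V d)} (hB : B ⊆ Λ) (Φ : Om d → ℝ) :
    lz Λ B Φ = ((Λ.card : ℝ)⁻¹ • (Tl B + ((Λ.card : ℝ) - B.card) • (1 : Module.End ℝ (Om d → ℝ)))) Φ := by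
  funext f
  have h1 : ∑ x ∈ Λ, (if x ∈ B then Φ (upd x f) else Φ f)
      = ∑ x ∈ B, Φ (upd x f) + ((Λ.card : ℝ) - B.card) * Φ f := by
    rw [← Finset.sum_sdiff hB, add_comm]
    congr 1
    · exact Finset.sum_congr rfl fun x hx => by rw [if_pos hx]
    · rw [Finset.sum_congr rfl (fun x hx => if_neg (Finset.mem_sdiff.1 hx).2), Finset.sum_const,
        nsmul_eq_mul, Finset.card_sdiff_of_subset hB, Nat.cast_sub (Finset.card_le_card hB)]
  unfold lz
  rw [h1]
  rfl

lemma lz_iter_eq {Λ B : Finset (V d)} (hB : B ⊆ Λ) (n : ℕ) (Φ : Om d → ℝ) :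
    (lz Λ B)^[n] Φ = ((Λ.card : ℝ)⁻¹) ^ n •
      ((Tl B + ((Λ.card : ℝ) - B.card) • (1 : Module.End ℝ (Om d → ℝ))) ^ n) Φ := by
  have h1 : lz Λ B = ⇑((Λ.card : ℝ)⁻¹ •
      (Tl B + ((Λ.card : ℝ) - B.card) • (1 : Module.End ℝ (Om d → ℝ)))) := by
    funext Φ
    exact lz_eq hB Φ
  rw [h1, ← Module.End.pow_apply, smul_pow]
  rfl

lemma lz_bound {Λ B : Finset (V d)} {Φ : Om d → ℝ} {C : ℝ} (hC : ∀ f, |Φ f| ≤ C) (f : Om d) :
    |lz Λ B Φ f| ≤ C := by
  unfold lz
  rcases Finset.eq_empty_or_nonempty Λ with h | h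
  · have hC0 : 0 ≤ C := (abs_nonneg _).trans (hC f)
    simp [h, hC0]
  · have hc : (0 : ℝ) < Λ.card := by exact_mod_cast h.card_pos
    rw [abs_mul, abs_of_nonneg (by positivity), inv_mul_le_iff₀ hc, ← nsmul_eq_mul]
    refine (Finset.abs_sum_le_sum_abs _ _).trans ?_
    refine Finset.sum_le_card_nsmul _ _ _ fun x _ => ?_
    exact lt'_bound hC x f

lemma lz_iter_bound {Λ B : Finset (V d)} {Φ : Om d → ℝ} {C : ℝ} (hC : ∀ f, |Φ f| ≤ C) (n : ℕ) :
    ∀ f, |(lz Λ B)^[n] Φ f| ≤ C := by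
  induction n with
  | zero => exact hC
  | succ n ih =>
    intro f
    rw [Function.iterate_succ_apply']
    exact lz_bound ih f

/-- thinning of the Poisson updates -/
lemma lzExp_thin {Λ B : Finset (V d)} (hB : B ⊆ Λ) (hB0 : B.Nonempty) (t : ℝ) {Φ : Om d → ℝ}
    {C : ℝ} (hC : ∀ f, |Φ f| ≤ C) (f : Om d) : lzExp Λ B t Φ f = lzExp B B t Φ f := by
  have hΛc : (Λ.card : ℝ) ≠ 0 := by exact_mod_cast (hB0.mono hB).card_pos.ne'
  have hBc : (B.card : ℝ) ≠ 0 := by exact_mod_cast hB0.card_pos.ne'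
  set r : ℝ := (Λ.card : ℝ) - B.card with hr
  set a : ℕ → ℝ := fun k => t ^ k / k.factorial * ((Tl B) ^ k) Φ f with ha
  set b : ℕ → ℝ := fun k => (t * r) ^ k / k.factorial with hb
  have hT : ∀ k, ((Tl B) ^ k) Φ f = (B.card : ℝ) ^ k * (lz B B)^[k] Φ f := by
    intro k
    rw [lz_iter_eq subset_rfl k Φ]
    simp only [sub_self, zero_smul, add_zero, Pi.smul_apply, smul_eq_mul]
    rw [← mul_assoc, ← mul_pow, mul_inv_cancel₀ hBc, one_pow, one_mul]
  have hsa : Summable fun k => ‖a k‖ := by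
    refine Summable.of_nonneg_of_le (fun k => norm_nonneg _) (fun k => ?_)
      ((Real.summable_pow_div_factorial (|t| * B.card)).mul_left C)
    simp only [ha]
    rw [hT k, Real.norm_eq_abs, abs_mul, abs_mul, abs_div, abs_pow, abs_pow,
      Nat.abs_cast, Nat.abs_cast, mul_pow]
    have h1 := lz_iter_bound (Λ := B) (B := B) hC k f
    calc |t| ^ k / (k.factorial : ℝ) * ((B.card : ℝ) ^ k * |(lz B B)^[k] Φ f|)
        ≤ |t| ^ k / (k.factorial : ℝ) * ((B.card : ℝ) ^ k * C) := by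
          refine mul_le_mul_of_nonneg_left ?_ (by positivity)
          exact mul_le_mul_of_nonneg_left h1 (by positivity)
      _ = C * (|t| ^ k * (B.card : ℝ) ^ k / k.factorial) := by ring
  have hsb : Summable fun k => ‖b k‖ := by
    simp only [hb, norm_div, norm_pow]
    have := Real.summable_pow_div_factorial ‖t * r‖
    simpa using this
  have hprod := tsum_mul_tsum_eq_tsum_sum_antidiagonal_of_summable_norm hsa hsb
  have hcomm : Commute (Tl B) (r • (1 : Module.End ℝ (Om d → ℝ))) :=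
    (Commute.one_right (Tl B)).smul_right r
  have hterm : ∀ n, pw (Λ.card * t) n * (lz Λ B)^[n] Φ f
      = Real.exp (-(Λ.card * t)) * ∑ kl ∈ Finset.HasAntidiagonal.antidiagonal n, a kl.1 * b kl.2 := by
    intro n
    rw [lz_iter_eq hB n Φ, ← hr, hcomm.add_pow']
    simp only [LinearMap.sum_apply, Finset.sum_apply, Pi.smul_apply, smul_eq_mul, Finset.mul_sum]
    refine Finset.sum_congr rfl fun kl hkl => ?_
    rw [Finset.HasAntidiagonal.mem_antidiagonal] at hkl
    have h1 : (((Tl B) ^ kl.1 * (r • (1 : Module.End ℝ (Om d → ℝ))) ^ kl.2) Φ) f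
        = r ^ kl.2 * ((Tl B) ^ kl.1) Φ f := by
      rw [smul_pow, one_pow, mul_smul_comm, mul_one]
      rfl
    have h2 : ((n.choose kl.1 • ((Tl B) ^ kl.1 * (r • (1 : Module.End ℝ (Om d → ℝ))) ^ kl.2)) Φ) f
        = n.choose kl.1 * (r ^ kl.2 * ((Tl B) ^ kl.1) Φ f) := by
      rw [LinearMap.smul_apply, Pi.smul_apply, h1, nsmul_eq_mul]
    rw [h2]
    simp only [ha, hb, pw]
    have h3 : (n.choose kl.1 : ℝ) = n.factorial / (kl.1.factorial * kl.2.factorial) := by
      rw [← hkl, eq_div_iff (by positivity)]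
      have := Nat.add_choose_mul_factorial_mul_factorial kl.1 kl.2
      rw [← this, Nat.choose_symm_add]
      push_cast
      ring
    have h4 : (Λ.card * t) ^ n = (Λ.card : ℝ) ^ n * (t ^ kl.1 * t ^ kl.2) := by
      rw [mul_pow, ← pow_add, hkl]
    have h5 : (Λ.card : ℝ) ^ n * ((Λ.card : ℝ)⁻¹) ^ n = 1 := by
      rw [← mul_pow, mul_inv_cancel₀ hΛc, one_pow]
    rw [h3, h4, mul_pow]
    have h6 : (n.factorial : ℝ) ≠ 0 := by positivity
    have h7 : (kl.1.factorial : ℝ) ≠ 0 := by positivity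
    have h8 : (kl.2.factorial : ℝ) ≠ 0 := by positivity
    calc _ = Real.exp (-(Λ.card * t)) * ((Λ.card : ℝ) ^ n * ((Λ.card : ℝ)⁻¹) ^ n) *
          (t ^ kl.1 * t ^ kl.2 * (r ^ kl.2 * ((Tl B) ^ kl.1) Φ f)
            / (kl.1.factorial * kl.2.factorial)) * (n.factorial / n.factorial) := by
          ring
      _ = _ := by
          rw [h5, div_self h6]
          field_simp
  have hterm' : ∀ n, pw (B.card * t) n * (lz B B)^[n] Φ f = Real.exp (-(B.card * t)) * a n := by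
    intro n
    simp only [ha, hT, pw]
    rw [mul_pow]
    ring
  unfold lzExp
  simp only [hterm, hterm']
  rw [tsum_mul_left, tsum_mul_left, ← hprod]
  have hb' : ∑' n, b n = Real.exp (t * r) := by
    rw [Real.exp_eq_exp_ℝ]
    exact (NormedSpace.expSeries_div_hasSum_exp (t * r)).tsum_eq
  rw [hb', mul_comm (∑' n, a n), ← mul_assoc, ← Real.exp_add]
  congr 2
  rw [hr]
  ring

end Pool.Agent.W833.BD
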