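import Pool.Agent.W833.BD.Avg

/-! The sequence of approximating laws and its (ultrafilter) limit. -/

namespace Pool.Agent.W833.BD

set_option linter.unusedSectionVars false

open MeasureTheory Filter Topology
open scoped ENNReal NNReal

variable {d : ℕ} [NeZero d]

/-- a sequence of approximating laws -/
structure Seq (d : ℕ) [NeZero d] (K : ℝ) where
  ρ : ℕ → Measure (Om d)
  ρ' : ℕ → Measure (Om d)
  ε : ℕ → ℝ
  good : ∀ N, Good (ρ N) (2 * K)
  good' : ∀ N, Good (ρ' N) (2 * K)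
  ε_nonneg : ∀ N, 0 ≤ ε N
  ε_le : ∀ N, ε N ≤ 1 / ((N : ℝ) + 1)
  mean : ∀ N, ε N * ∫ f, ((f 0 : ℤ) : ℝ) ∂(ρ' N) ≤ K
  inv : ∀ (N : ℕ) (φ : Om d → ℝ), Measurable φ →
    ∑ c : Cl (N + 1) d, ∫ f, (φ (updT c f) - φ f) ∂(ρ N) = ε N * (∫ f, φ f ∂(ρ' N) - φ f0)

theorem exists_seq {θ : ℝ} (hθ : 0 < θ) : Nonempty (Seq d (kap d θ / θ)) := by
  have h := fun N : ℕ => exists_approx (d := d) (N + 1) hθ
  choose ρ ρ' ε h1 h2 h3 h4 h5 h6 using h
  exact ⟨⟨ρ, ρ', ε, h1, h2, h3, fun N => by simpa using h4 N, h5, h6⟩⟩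

lemma cls_injOn {N : ℕ} {L : ℕ} (h : 2 * L < N) : Set.InjOn (cls N) (box d L : Set (V d)) := by
  intro x hx y hy hxy
  rw [Finset.mem_coe, mem_box] at hx hy
  funext i
  have h1 := congrFun hxy i
  simp only [cls] at h1
  rw [ZMod.intCast_eq_intCast_iff_dvd_sub] at h1
  have h2 := hx i
  have h3 := hy i
  rw [abs_le] at h2 h3
  have h4 : y i - x i = 0 := by
    apply Int.eq_zero_of_abs_lt_dvd h1
    rw [abs_lt]
    constructor <;> omega
  omega

lemma exists_box (S : Finset (V d)) : ∃ L : ℕ, S ⊆ box d L := by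
  classical
  induction S using Finset.induction with
  | empty => exact ⟨0, by simp⟩
  | insert a S ha ih =>
    obtain ⟨L, hL⟩ := ih
    refine ⟨L + ∑ i, (a i).natAbs, ?_⟩
    intro x hx
    rw [mem_box]
    intro i
    rw [Finset.mem_insert] at hx
    rcases hx with rfl | hx
    · have : (x i).natAbs ≤ ∑ i, (x i).natAbs :=
        Finset.single_le_sum (f := fun i => (x i).natAbs) (fun _ _ => Nat.zero_le _)
          (Finset.mem_univ i)
      rw [Int.abs_eq_natAbs]
      push_cast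
      have h2 : ((x i).natAbs : ℤ) ≤ ((∑ i, (x i).natAbs : ℕ) : ℤ) := by exact_mod_cast this
      push_cast at h2
      have h3 : (0 : ℤ) ≤ L := by positivity
      linarith
    · have := mem_box.1 (hL hx) i
      push_cast
      have h3 : (0 : ℤ) ≤ ∑ i, |a i| := Finset.sum_nonneg fun _ _ => abs_nonneg _
      linarith

lemma sum_cls {N : ℕ} [NeZero N] {S : Finset (V d)} (hS : Set.InjOn (cls N) (S : Set (V d)))
    {Φ : Om d → ℝ} (hΦ : DependsOn Φ (S : Set (V d))) (f : Om d) :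
    ∑ c : Cl N d, (Φ (updT c f) - Φ f) = ∑ x ∈ S, (Φ (upd x f) - Φ f) := by
  classical
  have h1 : ∀ x ∈ S, Φ (updT (cls N x) f) = Φ (upd x f) := by
    intro x hx
    refine hΦ fun y hy => ?_
    by_cases h : y = x
    · subst h
      simp [updT]
    · rw [upd_ne h]
      unfold updT
      rw [if_neg]
      intro h'
      exact h (hS hy hx h')
  have h2 : ∀ c : Cl N d, c ∉ S.image (cls N) → Φ (updT c f) - Φ f = 0 := by
    intro c hc
    rw [sub_eq_zero]
    refine hΦ fun y hy => ?_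
    unfold updT
    rw [if_neg]
    intro h'
    exact hc (Finset.mem_image.2 ⟨y, hy, h'⟩)
  rw [← Finset.sum_subset (Finset.subset_univ (S.image (cls N))) (fun c _ hc => h2 c hc),
    Finset.sum_image (fun x hx y hy h => hS hx hy h)]
  exact Finset.sum_congr rfl fun x hx => by rw [h1 x hx]

namespace Seq

variable {K : ℝ} (s : Seq d K)

/-- almost stationarity for local bounded functions -/
lemma bdd {S : Finset (V d)} {Φ : Om d → ℝ} (hΦ : DependsOn Φ (S : Set (V d))) {C : ℝ}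
    (hC : ∀ f, |Φ f| ≤ C) :
    ∀ᶠ N in atTop, |∫ f, ∑ x ∈ S, (Φ (upd x f) - Φ f) ∂(s.ρ N)| ≤ 2 * C / ((N : ℝ) + 1) := by
  obtain ⟨L, hL⟩ := exists_box S
  filter_upwards [eventually_ge_atTop (2 * L)] with N hN
  have hinj : Set.InjOn (cls (N + 1)) (S : Set (V d)) :=
    (cls_injOn (L := L) (by omega)).mono (by exact_mod_cast hL)
  have hm : Measurable Φ := measurable_of_dependsOn hΦ
  have hC0 : 0 ≤ C := (abs_nonneg _).trans (hC f0)
  have h1 : ∫ f, ∑ x ∈ S, (Φ (upd x f) - Φ f) ∂(s.ρ N)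
      = s.ε N * (∫ f, Φ f ∂(s.ρ' N) - Φ f0) := by
    rw [← s.inv N Φ hm, ← integral_finsetSum]
    · congr 1
      funext f
      exact (sum_cls hinj hΦ f).symm
    · intro c _
      exact (s.good N).int _ ((hm.comp (measurable_updT c)).sub hm)
  have := (s.good' N).prob
  have h2 : |∫ f, Φ f ∂(s.ρ' N)| ≤ C := by
    have h3 := norm_integral_le_of_norm_le_const (μ := s.ρ' N) (f := Φ) (C := C)
      (Eventually.of_forall fun f => by simpa using hC f)
    simpa using h3
  rw [h1, abs_mul, abs_of_nonneg (s.ε_nonneg N)]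
  have h4 : |∫ f, Φ f ∂(s.ρ' N) - Φ f0| ≤ 2 * C := by
    have := abs_sub (∫ f, Φ f ∂(s.ρ' N)) (Φ f0)
    have := hC f0
    linarith
  calc s.ε N * |∫ f, Φ f ∂(s.ρ' N) - Φ f0| ≤ 1 / ((N : ℝ) + 1) * (2 * C) :=
        mul_le_mul (s.ε_le N) h4 (abs_nonneg _) (by positivity)
    _ = 2 * C / ((N : ℝ) + 1) := by ring

/-- almost stationarity for monotone functions -/
lemma mono (S : Finset (V d)) {Φ : Om d → ℝ} (hm : Measurable Φ) (hmono : Monotone Φ) :
    ∀ᶠ N in atTop, ∑ x ∈ S, ∫ f, (Φ (upd x f) - Φ f) ∂(s.ρ N)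
      ≤ s.ε N * (∫ f, Φ f ∂(s.ρ' N) - Φ f0) := by
  classical
  obtain ⟨L, hL⟩ := exists_box S
  filter_upwards [eventually_ge_atTop (2 * L)] with N hN
  have hinj : Set.InjOn (cls (N + 1)) (S : Set (V d)) :=
    (cls_injOn (L := L) (by omega)).mono (by exact_mod_cast hL)
  rw [← s.inv N Φ hm]
  have hint : ∀ c : Cl (N + 1) d, Integrable (fun f => Φ (updT c f) - Φ f) (s.ρ N) := fun c =>
    (s.good N).int _ ((hm.comp (measurable_updT c)).sub hm)
  calc ∑ x ∈ S, ∫ f, (Φ (upd x f) - Φ f) ∂(s.ρ N)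
      ≤ ∑ x ∈ S, ∫ f, (Φ (updT (cls (N + 1) x) f) - Φ f) ∂(s.ρ N) := by
        refine Finset.sum_le_sum fun x _ => ?_
        refine integral_mono ?_ (hint _) ?_
        · exact (s.good N).int _ ((hm.comp (measurable_of_loc (loc_upd x))).sub hm)
        · intro f
          have := hmono (upd_le_updT (N := N + 1) x f)
          simp only
          linarith
    _ = ∑ c ∈ S.image (cls (N + 1)), ∫ f, (Φ (updT c f) - Φ f) ∂(s.ρ N) := by
        rw [Finset.sum_image (fun x hx y hy h => hinj hx hy h)]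
    _ ≤ ∑ c : Cl (N + 1) d, ∫ f, (Φ (updT c f) - Φ f) ∂(s.ρ N) := by
        refine Finset.sum_le_sum_of_subset_of_nonneg (Finset.subset_univ _) fun c _ _ => ?_
        refine integral_nonneg fun f => ?_
        have := hmono (le_updT c f)
        simp only [Pi.zero_apply]
        linarith

/-- tightness -/
lemma tight : IsTightMeasureSet {ν : Measure (Om d) | ∃ N, (s.ρ N).map recentre = ν} := by
  obtain ⟨C, hC⟩ := exists_l1_bound d (2 * K)
  rw [isTightMeasureSet_iff_exists_isCompact_measure_compl_le]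
  intro ε hε
  obtain ⟨ε', hε'0, hε'⟩ := ENNReal.exists_pos_sum_of_countable hε.ne' (V d)
  -- the radii
  have hR : ∀ y : V d, ∃ R : ℕ, 0 < R ∧ C y ≤ R * ε' y := by
    intro y
    obtain ⟨R, hR⟩ := exists_nat_gt (C y / ε' y)
    refine ⟨R + 1, Nat.succ_pos _, ?_⟩
    have h0 : (0 : ℝ) < ε' y := by exact_mod_cast hε'0 y
    rw [div_lt_iff₀ h0] at hR
    push_cast
    nlinarith
  choose R hR0 hR using hR
  refine ⟨Set.pi Set.univ (fun y => Set.Icc (-(R y : ℤ)) (R y)),
    isCompact_univ_pi (fun y => isCompact_Icc), ?_⟩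
  rintro _ ⟨N, rfl⟩
  have := (s.good N).prob
  have hsub : (Set.pi Set.univ (fun y => Set.Icc (-(R y : ℤ)) (R y)))ᶜ
      ⊆ ⋃ y : V d, {f : Om d | (R y : ℤ) < |f y|} := by
    intro f hf
    simp only [Set.mem_compl_iff, Set.mem_pi, Set.mem_univ, true_imp_iff, not_forall,
      Set.mem_Icc] at hf
    obtain ⟨y, hy⟩ := hf
    rw [Set.mem_iUnion]
    refine ⟨y, ?_⟩
    rw [Set.mem_ofPred_eq]
    by_contra h
    push Not at h
    exact hy (abs_le.1 h)
  refine (measure_mono hsub).trans ((measure_iUnion_le _).trans (le_trans ?_ hε'.le))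
  refine ENNReal.tsum_le_tsum fun y => ?_
  have hms : MeasurableSet {f : Om d | (R y : ℤ) < |f y|} := by
    have : {f : Om d | (R y : ℤ) < |f y|} = (fun f : Om d => f y) ⁻¹' {k | (R y : ℤ) < |k|} := rfl
    rw [this]
    exact (measurable_pi_apply y) (Set.to_countable _).measurableSet
  rw [Measure.map_apply measurable_recentre hms]
  have h1 := mul_meas_ge_le_integral_of_nonneg (μ := s.ρ N)
    (f := fun f : Om d => |(f (0 + y) : ℝ) - f 0|)
    (Eventually.of_forall fun f => abs_nonneg _)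
    ((s.good N).int _ ((loc_eval (0 + y)).comp₂ (loc_eval 0)
      (fun a b : ℤ => |(a : ℝ) - b|)).measurable) (R y)
  have h2 := hC (s.ρ N) (s.good N) 0 y
  have hR0' : (0 : ℝ) < R y := by exact_mod_cast hR0 y
  have h3 : (s.ρ N).real {f : Om d | (R y : ℝ) ≤ |(f (0 + y) : ℝ) - f 0|} ≤ ε' y := by
    have : (R y : ℝ) * (s.ρ N).real {f : Om d | (R y : ℝ) ≤ |(f (0 + y) : ℝ) - f 0|}
        ≤ R y * ε' y := h1.trans (h2.trans (hR y))
    exact le_of_mul_le_mul_left this hR0'
  have h4 : recentre ⁻¹' {f : Om d | (R y : ℤ) < |f y|}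
      ⊆ {f : Om d | (R y : ℝ) ≤ |(f (0 + y) : ℝ) - f 0|} := by
    intro f hf
    simp only [Set.mem_preimage, Set.mem_ofPred_eq, recentre, zero_add] at hf ⊢
    have : ((R y : ℤ) : ℝ) < ((|f y - f 0| : ℤ) : ℝ) := by exact_mod_cast hf
    push_cast at this
    exact this.le
  refine (measure_mono h4).trans ?_
  rw [← ENNReal.ofReal_coe_nnreal, ← ofReal_measureReal]
  exact ENNReal.ofReal_le_ofReal h3

/-- the limit law along an ultrafilter -/
structure Lim (μ : Measure (Om d)) : Prop where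
  prob : IsProbabilityMeasure μ
  conv : ∀ φ : Om d → ℝ, Continuous φ → (∃ C, ∀ f, |φ f| ≤ C) →
    Tendsto (fun N => ∫ f, φ (recentre f) ∂(s.ρ N)) (hyperfilter ℕ : Filter ℕ) (𝓝 (∫ f, φ f ∂μ))

theorem exists_lim : ∃ μ, s.Lim μ := by
  have hp : ∀ N, IsProbabilityMeasure ((s.ρ N).map recentre) := fun N => by
    have := (s.good N).prob
    exact Measure.isProbabilityMeasure_map measurable_recentre.aemeasurable
  set ν : ℕ → ProbabilityMeasure (Om d) := fun N => ⟨(s.ρ N).map recentre, hp N⟩ with hν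
  have ht : IsTightMeasureSet
      {((μ : ProbabilityMeasure (Om d)) : Measure (Om d)) | μ ∈ Set.range ν} := by
    have h := s.tight
    have hset : {ν : Measure (Om d) | ∃ N, (s.ρ N).map recentre = ν}
        = {x | ∃ μ : ProbabilityMeasure (Om d), μ ∈ Set.range ν ∧ (μ : Measure (Om d)) = x} := by
      ext x
      constructor
      · rintro ⟨N, rfl⟩
        exact ⟨ν N, ⟨N, rfl⟩, rfl⟩
      · rintro ⟨_, ⟨N, rfl⟩, rfl⟩
        exact ⟨N, rfl⟩
    rw [hset] at h
    exact h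
  have hc := isCompact_closure_of_isTightMeasureSet ht
  have h1 : ((hyperfilter ℕ).map ν : Filter (ProbabilityMeasure (Om d)))
      ≤ 𝓟 (closure (Set.range ν)) := by
    rw [le_principal_iff, Ultrafilter.mem_coe, Ultrafilter.mem_map]
    exact Filter.univ_mem' (fun N => subset_closure ⟨N, rfl⟩)
  obtain ⟨μ, -, hμ⟩ := hc.ultrafilter_le_nhds _ h1
  refine ⟨(μ : Measure (Om d)), inferInstance, ?_⟩
  intro φ hφ ⟨C, hC⟩
  have h2 : Tendsto ν (hyperfilter ℕ : Filter ℕ) (𝓝 μ) := hμ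
  rw [ProbabilityMeasure.tendsto_iff_forall_integral_tendsto] at h2
  have h3 := h2 (BoundedContinuousFunction.ofNormedAddCommGroup φ hφ C (fun f => by simpa using hC f))
  refine h3.congr fun N => ?_
  simp only [BoundedContinuousFunction.coe_ofNormedAddCommGroup]
  show ∫ f, φ f ∂((s.ρ N).map recentre) = _
  rw [integral_map measurable_recentre.aemeasurable]
  exact hφ.measurable.aestronglyMeasurable

end Seq

end Pool.Agent.W833.BD
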