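import Pool.Agent.W833.BD.SeqL

/-! Properties of the limit law. -/

namespace Pool.Agent.W833.BD

set_option linter.unusedSectionVars false

open MeasureTheory Filter Topology
open scoped ENNReal NNReal

variable {d : ℕ} [NeZero d]

/-- translation of a recentred height function -/
def Tz (z : V d) (w : Om d) : Om d := fun y => w (y + z) - w z

/-- reflection -/
def Rf (i : Fin d) (w : Om d) : Om d := fun y => w (refl i y)

lemma loc_Tz (z y : V d) : Loc (fun f : Om d => Tz z f y) :=
  (loc_eval (y + z)).comp₂ (loc_eval z) (· - ·)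

lemma loc_Rf (i : Fin d) (y : V d) : Loc (fun f : Om d => Rf i f y) := loc_eval (refl i y)

lemma continuous_of_loc {g : Om d → Om d} (hg : ∀ x, Loc (fun f => g f x)) : Continuous g :=
  continuous_pi fun x => (hg x).continuous

lemma refl_zero (i : Fin d) : refl i (0 : V d) = 0 := by
  funext k
  by_cases hk : k = i
  · subst hk
    simp [refl]
  · simp [refl, hk]

lemma Tz_recentre (z : V d) (f : Om d) :
    Tz z (recentre f) = recentre (fun y => f (y + z) - z 0) := by
  funext y
  simp [Tz, recentre]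

lemma Rf_recentre (i : Fin d) (f : Om d) :
    Rf i (recentre f) = recentre (fun y => f (refl i y)) := by
  funext y
  simp [Rf, recentre, refl_zero]

namespace Seq.Lim

variable {K : ℝ} {s : Seq d K} {μ : Measure (Om d)}

lemma tendsto_loc (h : s.Lim μ) {φ : Om d → ℝ} (hφ : Loc φ) {C : ℝ} (hC : ∀ f, |φ f| ≤ C) :
    Tendsto (fun N => ∫ f, φ (recentre f) ∂(s.ρ N)) (hyperfilter ℕ : Filter ℕ)
      (𝓝 (∫ f, φ f ∂μ)) :=
  h.conv φ hφ.continuous ⟨C, hC⟩

lemma map_eq (h : s.Lim μ) {T : Om d → Om d} (hT : Continuous T)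
    (hinv : ∀ N, ∀ φ : Om d → ℝ, Measurable φ →
      ∫ f, φ (T (recentre f)) ∂(s.ρ N) = ∫ f, φ (recentre f) ∂(s.ρ N)) : μ.map T = μ := by
  have := h.prob
  have : IsProbabilityMeasure (μ.map T) :=
    Measure.isProbabilityMeasure_map hT.measurable.aemeasurable
  refine ext_of_forall_integral_eq_of_IsFiniteMeasure fun φ => ?_
  rw [integral_map hT.measurable.aemeasurable φ.continuous.measurable.aestronglyMeasurable]
  have h1 := h.conv (fun w => φ (T w)) (φ.continuous.comp hT) ⟨‖φ‖, fun f => φ.norm_coe_le_norm _⟩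
  have h2 := h.conv φ φ.continuous ⟨‖φ‖, fun f => φ.norm_coe_le_norm _⟩
  refine tendsto_nhds_unique (h1.congr fun N => ?_) h2
  exact hinv N φ φ.continuous.measurable

lemma map_Tz (h : s.Lim μ) (z : V d) : μ.map (Tz z) = μ := by
  refine h.map_eq (continuous_of_loc (loc_Tz z)) fun N φ hφ => ?_
  simp only [Tz_recentre]
  exact (s.good N).trans z (fun f => φ (recentre f)) (hφ.comp measurable_recentre)

lemma map_Rf (h : s.Lim μ) {i : Fin d} (hi : i ≠ 0) : μ.map (Rf i) = μ := by
  refine h.map_eq (continuous_of_loc (loc_Rf i)) fun N φ hφ => ?_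
  simp only [Rf_recentre]
  exact (s.good N).refl i hi (fun f => φ (recentre f)) (hφ.comp measurable_recentre)

lemma zero_ae (h : s.Lim μ) : ∀ᵐ w ∂μ, w 0 = 0 := by
  have := h.prob
  have h1 := h.tendsto_loc (φ := fun w : Om d => if w 0 = 0 then (0 : ℝ) else 1)
    ((loc_eval 0).comp (fun k : ℤ => if k = 0 then (0 : ℝ) else 1)) (C := 1) (fun f => by
      split_ifs <;> simp)
  have h2 : ∀ f : Om d, (if recentre f 0 = 0 then (0 : ℝ) else 1) = 0 := by
    intro f
    simp [recentre]
  simp only [h2, integral_zero] at h1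
  have h3 := tendsto_nhds_unique h1 tendsto_const_nhds
  rw [eq_comm] at h3
  have h4 : ∫ w : Om d, (if w 0 = 0 then (0 : ℝ) else 1) ∂μ = 0 := h3.symm
  rw [integral_eq_zero_iff_of_nonneg] at h4
  · filter_upwards [h4] with w hw
    by_contra h5
    simp [h5] at hw
  · intro w
    simp only [Pi.zero_apply]
    split_ifs <;> simp
  · refine Integrable.of_bound (C := 1) ?_ ?_
    · exact ((loc_eval 0).comp (fun k : ℤ => if k = 0 then (0 : ℝ) else 1)).measurable.aestronglyMeasurable
    · refine Eventually.of_forall fun w => ?_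
      split_ifs <;> simp

lemma integrable_eval (h : s.Lim μ) (y : V d) : Integrable (fun w : Om d => (w y : ℝ)) μ := by
  have := h.prob
  obtain ⟨C, hC⟩ := exists_l1_bound d (2 * K)
  have hm : Measurable (fun w : Om d => (w y : ℝ)) := ((loc_eval y).comp (fun k : ℤ => (k : ℝ))).measurable
  refine ⟨hm.aestronglyMeasurable, ?_⟩
  have h1 : ∀ R : ℕ, ∫ w : Om d, min |(w y : ℝ)| R ∂μ ≤ C y := by
    intro R
    have hl : Loc (fun w : Om d => min |(w y : ℝ)| (R : ℝ)) :=
      (loc_eval y).comp (fun k : ℤ => min |(k : ℝ)| (R : ℝ))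
    have h2 := h.tendsto_loc hl (C := R) (fun f => by
      rw [abs_of_nonneg (le_min (abs_nonneg _) (Nat.cast_nonneg _))]
      exact min_le_right _ _)
    refine le_of_tendsto h2 (Eventually.of_forall fun N => ?_)
    refine le_trans ?_ (hC (s.ρ N) (s.good N) 0 y)
    refine integral_mono ((s.good N).int _ hl.recentre.measurable) ((s.good N).int _
      ((loc_eval (0 + y)).comp₂ (loc_eval 0) (fun a b : ℤ => |(a : ℝ) - b|)).measurable) ?_
    intro f
    simp only [recentre, zero_add]
    push_cast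
    exact min_le_left _ _
  have h3 : ∀ w : Om d, ‖(w y : ℝ)‖ₑ = ⨆ R : ℕ, ENNReal.ofReal (min |(w y : ℝ)| R) := by
    intro w
    apply le_antisymm
    · obtain ⟨R, hR⟩ := exists_nat_ge |(w y : ℝ)|
      refine le_iSup_of_le R ?_
      rw [min_eq_left hR, ← Real.norm_eq_abs, ofReal_norm]
    · refine iSup_le fun R => ?_
      rw [← ofReal_norm, Real.norm_eq_abs]
      exact ENNReal.ofReal_le_ofReal (min_le_left _ _)
  unfold HasFiniteIntegral
  simp only [h3]
  rw [lintegral_iSup]
  · refine lt_of_le_of_lt (iSup_le fun R => ?_) (ENNReal.ofReal_lt_top (r := C y))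
    rw [← ofReal_integral_eq_lintegral_ofReal]
    · exact ENNReal.ofReal_le_ofReal (h1 R)
    · refine Integrable.of_bound (C := R) ?_ ?_
      · exact ((loc_eval y).comp (fun k : ℤ => min |(k : ℝ)| (R : ℝ))).measurable.aestronglyMeasurable
      · refine Eventually.of_forall fun w => ?_
        rw [Real.norm_eq_abs, abs_of_nonneg (le_min (abs_nonneg _) (Nat.cast_nonneg _))]
        exact min_le_right _ _
    · refine Eventually.of_forall fun w => ?_
      exact le_min (abs_nonneg _) (Nat.cast_nonneg _)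
  · intro R
    exact ((loc_eval y).comp (fun k : ℤ => ENNReal.ofReal (min |(k : ℝ)| (R : ℝ)))).measurable
  · intro R R' hRR w
    refine ENNReal.ofReal_le_ofReal (min_le_min_left _ ?_)
    exact_mod_cast hRR

/-- the slope -/
noncomputable def slope (μ : Measure (Om d)) : ℝ := ∫ w, (w (Pi.single 0 1) : ℝ) ∂μ

lemma mean_add (h : s.Lim μ) (y z : V d) :
    ∫ w, (w (y + z) : ℝ) ∂μ = ∫ w, (w y : ℝ) ∂μ + ∫ w, (w z : ℝ) ∂μ := by
  have h1 : ∫ w, (w y : ℝ) ∂μ = ∫ w, (w y : ℝ) ∂(μ.map (Tz z)) := by rw [h.map_Tz]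
  rw [integral_map (measurable_of_loc (loc_Tz z)).aemeasurable] at h1
  · simp only [Tz, Int.cast_sub] at h1
    rw [integral_sub (h.integrable_eval _) (h.integrable_eval _)] at h1
    linarith
  · exact ((loc_eval y).comp (fun k : ℤ => (k : ℝ))).measurable.aestronglyMeasurable

/-- The mean heights under the limit law. -/
theorem mean (h : s.Lim μ) (y : V d) : ∫ w, (w y : ℝ) ∂μ = slope μ * y 0 := by
  let m : V d →+ ℝ := AddMonoidHom.mk' (fun y => ∫ w, (w y : ℝ) ∂μ) (fun y z => h.mean_add y z)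
  have hm : ∀ y, m y = ∫ w, (w y : ℝ) ∂μ := fun y => rfl
  have h1 : ∀ i : Fin d, i ≠ 0 → m (Pi.single i 1) = 0 := by
    intro i hi
    have h2 : m (refl i (Pi.single i 1)) = m (Pi.single i 1) := by
      rw [hm, hm]
      have h3 : ∫ w, (w (Pi.single i 1) : ℝ) ∂μ
          = ∫ w, (w (Pi.single i 1) : ℝ) ∂(μ.map (Rf i)) := by rw [h.map_Rf hi]
      rw [integral_map (measurable_of_loc (loc_Rf i)).aemeasurable] at h3
      · exact h3.symm
      · exact ((loc_eval _).comp (fun k : ℤ => (k : ℝ))).measurable.aestronglyMeasurable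
    have h4 : refl i (Pi.single i 1 : V d) = - Pi.single i 1 := by
      funext k
      by_cases hk : k = i
      · subst hk
        simp [refl]
      · simp [refl, hk]
    rw [h4, map_neg] at h2
    linarith
  have h2 : y = ∑ i, (y i) • (Pi.single i 1 : V d) := by
    funext k
    simp [Finset.sum_apply, Pi.single_apply]
  rw [← hm]
  conv_lhs => rw [h2]
  rw [map_sum, Finset.sum_eq_single 0]
  · rw [map_zsmul, hm]
    simp [slope, mul_comm]
  · intro i _ hi
    rw [map_zsmul, h1 i hi]
    simp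
  · simp

/-- Almost stationarity becomes stationarity (for a sum over sufficiently many sites). -/
theorem sum_eq_zero (h : s.Lim μ) {S : Finset (V d)} {Φ : Om d → ℝ}
    (hΦ : DependsOn Φ (S : Set (V d))) {C : ℝ} (hC : ∀ f, |Φ f| ≤ C)
    (hinv : ∀ f, Φ (recentre f) = Φ f) : ∫ f, ∑ x ∈ S, (Φ (upd x f) - Φ f) ∂μ = 0 := by
  have hloc : Loc Φ := ⟨S, hΦ⟩
  have h1 : Loc (fun f => ∑ x ∈ S, (Φ (upd x f) - Φ f)) :=
    loc_sum S fun x _ => (hloc.upd x).comp₂ hloc (· - ·)
  have h2 := h.tendsto_loc h1 (C := S.card * (2 * C)) (fun f => by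
    refine (Finset.abs_sum_le_sum_abs _ _).trans ?_
    rw [← nsmul_eq_mul]
    refine Finset.sum_le_card_nsmul _ _ _ fun x _ => ?_
    have h3 := abs_sub (Φ (upd x f)) (Φ f)
    have := hC (upd x f)
    have := hC f
    linarith)
  have h3 : ∀ f : Om d, ∑ x ∈ S, (Φ (upd x (recentre f)) - Φ (recentre f))
      = ∑ x ∈ S, (Φ (upd x f) - Φ f) := by
    intro f
    refine Finset.sum_congr rfl fun x _ => ?_
    rw [hinv f]
    congr 1
    have h4 : recentre f = fun y => f y + (- f 0) := by
      funext y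
      simp [recentre, sub_eq_add_neg]
    rw [h4, upd_add_const, ← hinv, recentre_add_const, hinv]
  simp only [h3] at h2
  refine tendsto_nhds_unique h2 ?_
  have h5 := s.bdd hΦ hC
  have h6 : Tendsto (fun N => ∫ f, ∑ x ∈ S, (Φ (upd x f) - Φ f) ∂(s.ρ N)) atTop (𝓝 0) := by
    rw [tendsto_zero_iff_abs_tendsto_zero]
    refine tendsto_of_tendsto_of_tendsto_of_le_of_le' tendsto_const_nhds ?_
      (Eventually.of_forall fun N => abs_nonneg _) h5
    have h7 : Tendsto (fun N : ℕ => (N : ℝ) + 1) atTop atTop :=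
      tendsto_atTop_add_const_right _ _ tendsto_natCast_atTop_atTop
    exact Tendsto.div_atTop tendsto_const_nhds h7
  exact h6.mono_left Nat.hyperfilter_le_atTop

end Seq.Lim

end Pool.Agent.W833.BD
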