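import Pool.Agent.W833.BD.Lim

/-! Stationarity of the limit law. -/

namespace Pool.Agent.W833.BD

set_option linter.unusedSectionVars false

open MeasureTheory Filter Topology

variable {d : ℕ} [NeZero d]

lemma iter_add_const {L : ℕ} {Φ : Om d → ℝ} (h : ∀ f, Φ (recentre f) = Φ f) (n : ℕ) :
    ∀ (c : ℤ) (f : Om d), (boxStep L)^[n] Φ (fun y => f y + c) = (boxStep L)^[n] Φ f := by
  induction n with
  | zero =>
    intro c f
    simp only [Function.iterate_zero, id_eq]
    rw [← h, recentre_add_const, h]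
  | succ n ih =>
    intro c f
    simp only [Function.iterate_succ_apply']
    unfold boxStep at ih ⊢
    congr 1
    refine Finset.sum_congr rfl fun x _ => ?_
    rw [upd_add_const]
    exact ih c _

lemma iter_recentre {L : ℕ} {Φ : Om d → ℝ} (h : ∀ f, Φ (recentre f) = Φ f) (n : ℕ) (f : Om d) :
    (boxStep L)^[n] Φ (recentre f) = (boxStep L)^[n] Φ f := by
  have h4 : recentre f = fun y => f y + (- f 0) := by
    funext y
    simp [recentre, sub_eq_add_neg]
  rw [h4, iter_add_const h]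

lemma iter_dependsOn {L : ℕ} {Φ : Om d → ℝ} (h : DependsOn Φ (box d (L + 1) : Set (V d))) (n : ℕ) :
    DependsOn ((boxStep L)^[n] Φ) (box d (L + 1) : Set (V d)) := by
  induction n with
  | zero => exact h
  | succ n ih =>
    rw [Function.iterate_succ_apply']
    intro f g hfg
    unfold boxStep
    congr 1
    refine Finset.sum_congr rfl fun x hx => ih fun y hy => ?_
    by_cases hyx : y = x
    · subst hyx
      rw [upd_same, upd_same]
      exact newh_congr' fun z hz => hfg z (nbhd_subset_box hx hz)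
    · rw [upd_ne hyx, upd_ne hyx]
      exact hfg y hy

lemma dependsOn_mono {β : Type*} {S T : Finset (V d)} (hST : S ⊆ T) {φ : Om d → β}
    (h : DependsOn φ (S : Set (V d))) : DependsOn φ (T : Set (V d)) :=
  fun _ _ hfg => h fun y hy => hfg y (hST hy)

lemma integrable_of_loc {μ : Measure (Om d)} [IsProbabilityMeasure μ] {φ : Om d → ℝ} (h : Loc φ)
    {C : ℝ} (hC : ∀ f, |φ f| ≤ C) : Integrable φ μ :=
  Integrable.of_bound h.measurable.aestronglyMeasurable C (Eventually.of_forall fun f => by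
    simpa using hC f)

lemma boxStep_sub (L : ℕ) (Ψ : Om d → ℝ) (f : Om d) :
    boxStep L Ψ f - Ψ f = ((box d L).card : ℝ)⁻¹ * ∑ x ∈ box d L, (Ψ (upd x f) - Ψ f) := by
  have hc : (0 : ℝ) < (box d L).card := by exact_mod_cast card_box_pos L
  unfold boxStep
  rw [Finset.sum_sub_distrib, Finset.sum_const, nsmul_eq_mul]
  field_simp

lemma boxStep_abs_le {L : ℕ} {Ψ : Om d → ℝ} {C : ℝ} (hC : ∀ f, |Ψ f| ≤ C) (f : Om d) :
    |boxStep L Ψ f| ≤ C := by
  rw [boxStep_eq_lz]
  exact lz_bound hC f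

lemma iter_abs_le {L : ℕ} {Φ : Om d → ℝ} {C : ℝ} (hC : ∀ f, |Φ f| ≤ C) (n : ℕ) (f : Om d) :
    |(boxStep L)^[n] Φ f| ≤ C := by
  rw [boxStep_eq_lz]
  exact lz_iter_bound hC n f

/-- the weak form of the stationarity which is inherited from the approximation -/
structure WStat (μ : Measure (Om d)) : Prop where
  prob : IsProbabilityMeasure μ
  zero : ∀ᵐ w ∂μ, w 0 = 0
  sum : ∀ {S : Finset (V d)} {Φ : Om d → ℝ}, DependsOn Φ (S : Set (V d)) →
    (∃ C, ∀ f, |Φ f| ≤ C) → (∀ f, Φ (recentre f) = Φ f) →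
    ∫ f, ∑ x ∈ S, (Φ (upd x f) - Φ f) ∂μ = 0

lemma Seq.Lim.wstat {K : ℝ} {s : Seq d K} {μ : Measure (Om d)} (h : s.Lim μ) : WStat μ where
  prob := h.prob
  zero := h.zero_ae
  sum := fun hΦ ⟨_, hC⟩ hinv => h.sum_eq_zero hΦ hC hinv

namespace WStat

variable {μ : Measure (Om d)}

lemma iter_step (h : WStat μ) {A : Finset (V d)} {L R m : ℕ} (hL : 0 < L) (hRL : R ≤ L + 1)
    (hA : A ⊆ box d R) (hAm : A.card ≤ m) (hRm : R ≤ m) (hm : 1 ≤ m)
    {Φ : Om d → ℝ} (hΦ : DependsOn Φ (A : Set (V d))) {C : ℝ} (hC : ∀ f, |Φ f| ≤ C)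
    (hinv : ∀ f, Φ (recentre f) = Φ f) (n : ℕ) :
    |∫ f, (boxStep L)^[n + 1] Φ f ∂μ - ∫ f, (boxStep L)^[n] Φ f ∂μ|
      ≤ ((box d L).card : ℝ)⁻¹ * (4 * d * C * m ^ 2 / L *
        (1 + 6 * d / ((box d L).card : ℝ)) ^ n) := by
  have := h.prob
  have hc : (0 : ℝ) < (box d L).card := by exact_mod_cast card_box_pos L
  set Ψ : Om d → ℝ := (boxStep L)^[n] Φ with hΨ
  have hdep : DependsOn Ψ (box d (L + 1) : Set (V d)) :=
    iter_dependsOn (dependsOn_mono (hA.trans (box_mono' hRL)) hΦ) n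
  have hloc : Loc Ψ := ⟨_, hdep⟩
  have hΨC : ∀ f, |Ψ f| ≤ C := iter_abs_le hC n
  have hsum := h.sum hdep ⟨C, hΨC⟩ (iter_recentre hinv n)
  have hint : ∀ x : V d, Integrable (fun f => Ψ (upd x f) - Ψ f) μ := fun x =>
    (integrable_of_loc (hloc.upd x) (fun f => hΨC _)).sub (integrable_of_loc hloc hΨC)
  have hsub : box d L ⊆ box d (L + 1) := box_mono' (Nat.le_succ L)
  have h1 : ∫ f, ∑ x ∈ box d L, (Ψ (upd x f) - Ψ f) ∂μ
      = - ∫ f, ∑ x ∈ box d (L + 1) \ box d L, (Ψ (upd x f) - Ψ f) ∂μ := by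
    have h2 : ∀ f : Om d, ∑ x ∈ box d (L + 1), (Ψ (upd x f) - Ψ f)
        = ∑ x ∈ box d (L + 1) \ box d L, (Ψ (upd x f) - Ψ f)
          + ∑ x ∈ box d L, (Ψ (upd x f) - Ψ f) := fun f => (Finset.sum_sdiff hsub).symm
    simp only [h2] at hsum
    rw [integral_add (integrable_finsetSum _ fun x _ => hint x)
      (integrable_finsetSum _ fun x _ => hint x)] at hsum
    linarith
  have h0 : (boxStep L)^[n + 1] Φ = boxStep L Ψ := Function.iterate_succ_apply' _ _ _
  have h2 : ∫ f, (boxStep L)^[n + 1] Φ f ∂μ - ∫ f, Ψ f ∂μ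
      = ((box d L).card : ℝ)⁻¹ * ∫ f, ∑ x ∈ box d L, (Ψ (upd x f) - Ψ f) ∂μ := by
    rw [h0, ← integral_const_mul, ← integral_sub (integrable_of_loc hloc.boxStep
      (boxStep_abs_le hΨC)) (integrable_of_loc hloc hΨC)]
    congr 1
    funext f
    exact boxStep_sub L Ψ f
  rw [h2, h1, abs_mul, abs_neg, abs_of_nonneg (by positivity)]
  refine mul_le_mul_of_nonneg_left ?_ (by positivity)
  have h3 : ∀ f, |∑ x ∈ box d (L + 1) \ box d L, (Ψ (upd x f) - Ψ f)|
      ≤ 4 * d * C * m ^ 2 / L * (1 + 6 * d / ((box d L).card : ℝ)) ^ n := by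
    intro f
    refine (Finset.abs_sum_le_sum_abs _ _).trans ?_
    rw [hΨ, boxStep_eq_lz]
    exact dep_bound (Finset.card_pos.1 (card_box_pos L)) hL
      (fun x hx => (Finset.mem_sdiff.1 hx).2) hA hAm hRm hm hΦ hC n f
  have h4 := norm_integral_le_of_norm_le_const (μ := μ)
    (f := fun f => ∑ x ∈ box d (L + 1) \ box d L, (Ψ (upd x f) - Ψ f))
    (C := 4 * d * C * m ^ 2 / L * (1 + 6 * d / ((box d L).card : ℝ)) ^ n)
    (Eventually.of_forall fun f => by simpa using h3 f)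
  simpa using h4

lemma iter_bound (h : WStat μ) {A : Finset (V d)} {L R m : ℕ} (hL : 0 < L) (hRL : R ≤ L + 1)
    (hA : A ⊆ box d R) (hAm : A.card ≤ m) (hRm : R ≤ m) (hm : 1 ≤ m)
    {Φ : Om d → ℝ} (hΦ : DependsOn Φ (A : Set (V d))) {C : ℝ} (hC : ∀ f, |Φ f| ≤ C)
    (hinv : ∀ f, Φ (recentre f) = Φ f) (n : ℕ) :
    |∫ f, (boxStep L)^[n] Φ f ∂μ - ∫ f, Φ f ∂μ|
      ≤ n * ((box d L).card : ℝ)⁻¹ * (4 * d * C * m ^ 2 / L) *
        (1 + 6 * d / ((box d L).card : ℝ)) ^ n := by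
  have hc : (0 : ℝ) < (box d L).card := by exact_mod_cast card_box_pos L
  have hC0 : 0 ≤ C := (abs_nonneg _).trans (hC 0)
  set E : ℝ := 4 * d * C * m ^ 2 / L with hE
  have hE0 : 0 ≤ E := by positivity
  set q : ℝ := 1 + 6 * d / ((box d L).card : ℝ) with hq
  have hq1 : 1 ≤ q := by
    have : (0 : ℝ) ≤ 6 * d / ((box d L).card : ℝ) := by positivity
    linarith
  induction n with
  | zero => simp
  | succ n ih =>
    have h1 := h.iter_step hL hRL hA hAm hRm hm hΦ hC hinv n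
    have h2 := abs_sub_le (∫ f, (boxStep L)^[n + 1] Φ f ∂μ) (∫ f, (boxStep L)^[n] Φ f ∂μ)
      (∫ f, Φ f ∂μ)
    calc _ ≤ _ := h2
      _ ≤ ((box d L).card : ℝ)⁻¹ * (E * q ^ n) + n * ((box d L).card : ℝ)⁻¹ * E * q ^ n :=
          add_le_add h1 ih
      _ = ((n + 1 : ℕ) : ℝ) * ((box d L).card : ℝ)⁻¹ * E * q ^ n * 1 := by
          push_cast
          ring
      _ ≤ ((n + 1 : ℕ) : ℝ) * ((box d L).card : ℝ)⁻¹ * E * q ^ n * q :=
          mul_le_mul_of_nonneg_left hq1 (by positivity)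
      _ = _ := by
          rw [pow_succ]
          ring

lemma loc_boxExp {L : ℕ} {t : ℝ} {Φ : Om d → ℝ} (h : Loc Φ) : Loc (boxExp L t Φ) := by
  obtain ⟨S, hS⟩ := h
  obtain ⟨R, hR⟩ := exists_box S
  -- all iterates depend on the heights in a fixed box
  refine ⟨S ∪ box d (L + 1), ?_⟩
  have h1 : ∀ n, DependsOn ((boxStep L)^[n] Φ) ((S ∪ box d (L + 1) : Finset (V d)) : Set (V d)) := by
    intro n
    induction n with
    | zero => exact dependsOn_mono Finset.subset_union_left hS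
    | succ n ih =>
      rw [Function.iterate_succ_apply']
      intro f g hfg
      unfold boxStep
      congr 1
      refine Finset.sum_congr rfl fun x hx => ih fun y hy => ?_
      by_cases hyx : y = x
      · subst hyx
        rw [upd_same, upd_same]
        refine newh_congr' fun z hz => hfg z ?_
        rw [Finset.mem_coe, Finset.mem_union]
        exact Or.inr (nbhd_subset_box hx hz)
      · rw [upd_ne hyx, upd_ne hyx]
        exact hfg y hy
  intro f g hfg
  unfold boxExp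
  refine tsum_congr fun n => ?_
  rw [h1 n hfg]

lemma boxExp_bound {L : ℕ} {t : ℝ} (ht : 0 ≤ t) {Φ : Om d → ℝ} {C : ℝ} (hC : ∀ f, |Φ f| ≤ C)
    (f : Om d) : |boxExp L t Φ f| ≤ C := by
  rw [boxExp_eq]
  unfold lzExp
  have h1 := (pw_bound (l := (box d L).card * t) (by positivity)
    (a := fun n => (lz (box d L) (box d L))^[n] Φ f) (E := C) (q := 1) (fun n => by
      rw [one_pow, mul_one]
      exact lz_iter_bound hC n f)).2
  simpa using h1

/-- The expectations in a box under a weakly stationary law. -/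
lemma integral_boxExp (h : WStat μ) {A : Finset (V d)} {L R m : ℕ} (hL : 0 < L) (hRL : R ≤ L + 1)
    (hA : A ⊆ box d R) (hAm : A.card ≤ m) (hRm : R ≤ m) (hm : 1 ≤ m)
    {Φ : Om d → ℝ} (hΦ : DependsOn Φ (A : Set (V d))) {C : ℝ} (hC : ∀ f, |Φ f| ≤ C)
    (hinv : ∀ f, Φ (recentre f) = Φ f) {t : ℝ} (ht : 0 ≤ t) :
    |∫ f, boxExp L t Φ f ∂μ - ∫ f, Φ f ∂μ|
      ≤ 4 * d * C * m ^ 2 / L * Real.exp ((12 * d + 1) * t) := by
  have := h.prob
  have hC0 : 0 ≤ C := (abs_nonneg _).trans (hC 0)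
  have hk : (1 : ℝ) ≤ (box d L).card := by
    have : 1 ≤ (box d L).card := card_box_pos L
    exact_mod_cast this
  set l : ℝ := (box d L).card * t with hl
  have hl0 : 0 ≤ l := by positivity
  have hE : (0 : ℝ) ≤ 4 * d * C * m ^ 2 / L := by positivity
  have hloc : Loc Φ := ⟨A, hΦ⟩
  have hbd : ∀ n f, |(boxStep L)^[n] Φ f| ≤ C := iter_abs_le hC
  have hint : ∀ n, Integrable (fun f => pw l n * (boxStep L)^[n] Φ f) μ := fun n =>
    (integrable_of_loc (hloc.boxStep_iter n) (hbd n)).const_mul _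
  have h1 : ∫ f, boxExp L t Φ f ∂μ = ∑' n, pw l n * ∫ f, (boxStep L)^[n] Φ f ∂μ := by
    have h2 : ∀ f, boxExp L t Φ f = ∑' n, pw l n * (boxStep L)^[n] Φ f := fun f => rfl
    simp only [h2]
    rw [← integral_tsum_of_summable_integral_norm hint]
    · exact tsum_congr fun n => integral_const_mul _ _
    · refine Summable.of_nonneg_of_le (fun n => integral_nonneg fun f => norm_nonneg _)
        (fun n => ?_) ((pw_sum_one l).summable.mul_right C)
      have h3 : ∀ f, ‖pw l n * (boxStep L)^[n] Φ f‖ ≤ pw l n * C := by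
        intro f
        rw [norm_mul, Real.norm_eq_abs, Real.norm_eq_abs, abs_of_nonneg (pw_nonneg hl0 n)]
        exact mul_le_mul_of_nonneg_left (hbd n f) (pw_nonneg hl0 n)
      calc ∫ f, ‖pw l n * (boxStep L)^[n] Φ f‖ ∂μ ≤ ∫ _, pw l n * C ∂μ :=
            integral_mono (hint n).norm (integrable_const _) h3
        _ = pw l n * C := by simp
  have h2 : ∫ f, Φ f ∂μ = ∑' n, pw l n * ∫ f, Φ f ∂μ := by
    rw [tsum_mul_right, (pw_sum_one l).tsum_eq, one_mul]
  have hb1 : ∀ n, |∫ f, (boxStep L)^[n] Φ f ∂μ| ≤ C * 1 ^ n := by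
    intro n
    have h4 := norm_integral_le_of_norm_le_const (μ := μ) (f := (boxStep L)^[n] Φ)
      (C := C) (Eventually.of_forall fun f => by simpa using hbd n f)
    simpa using h4
  have hb2 : ∀ n : ℕ, |∫ f, Φ f ∂μ| ≤ C * 1 ^ n := by
    intro n
    have h4 := norm_integral_le_of_norm_le_const (μ := μ) (f := Φ)
      (C := C) (Eventually.of_forall fun f => by simpa using hC f)
    simpa using h4
  rw [h1, h2, ← (pw_bound hl0 hb1).1.tsum_sub (pw_bound hl0 hb2).1]
  simp only [← mul_sub]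
  refine (pw_bound hl0 (fun n => ?_)).2.trans
    (mul_le_mul_of_nonneg_left (exp_le (d := d) hk ht) hE)
  exact (h.iter_bound hL hRL hA hAm hRm hm hΦ hC hinv n).trans (geom_bound hk hE n)

/-- Weak stationarity implies stationarity. -/
theorem stationary (h : WStat μ) : Stationary μ := by
  intro t ht S φ hφ ⟨C, hC⟩
  have := h.prob
  have hC0 : 0 ≤ C := (abs_nonneg _).trans (hC 0)
  have hlocφ : Loc φ := ⟨S, hφ⟩
  set Φ : Om d → ℝ := fun f => φ (recentre f) with hΦdef
  have hlocΦ : Loc Φ := hlocφ.recentre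
  obtain ⟨A, hA⟩ := hlocΦ
  have hΦC : ∀ f, |Φ f| ≤ C := fun f => hC _
  have hinv : ∀ f, Φ (recentre f) = Φ f := by
    intro f
    simp only [hΦdef]
    congr 1
    funext y
    simp [recentre]
  obtain ⟨R, hR⟩ := exists_box A
  set m := A.card + R + 1 with hm
  have hlim : ∀ f, Tendsto (fun L => boxExp L t Φ f) atTop (𝓝 (semi t Φ f)) := fun f =>
    tendsto_boxExp hA ⟨C, hΦC⟩ ht.le f
  have hsemi : Measurable (semi t Φ : Om d → ℝ) := by
    refine measurable_of_tendsto_metrizable (fun L => (loc_boxExp (L := L) (t := t) ⟨A, hA⟩).measurable) ?_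
    rw [tendsto_pi_nhds]
    exact hlim
  have hsemiC : ∀ f, |semi t Φ f| ≤ C := fun f =>
    le_of_tendsto (hlim f).abs (Eventually.of_forall fun L => boxExp_bound ht.le hΦC f)
  refine ⟨semi t Φ, hlim, Integrable.of_bound hsemi.aestronglyMeasurable C
    (Eventually.of_forall fun f => by simpa using hsemiC f), ?_⟩
  -- the integral of `φ`
  have h1 : ∫ w, φ w ∂μ = ∫ w, Φ w ∂μ := by
    refine integral_congr_ae ?_
    filter_upwards [h.zero] with w hw
    simp only [hΦdef]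
    congr 1
    funext y
    simp [recentre, hw]
  rw [h1]
  -- the two limits
  have h2 : Tendsto (fun L => ∫ w, boxExp L t Φ w ∂μ) atTop (𝓝 (∫ w, semi t Φ w ∂μ)) := by
    refine tendsto_integral_of_dominated_convergence (fun _ => C)
      (fun L => (loc_boxExp ⟨A, hA⟩).measurable.aestronglyMeasurable) (integrable_const C) ?_ ?_
    · intro L
      exact Eventually.of_forall fun f => by simpa using boxExp_bound ht.le hΦC f
    · exact Eventually.of_forall fun f => tendsto_boxExp hA ⟨C, hΦC⟩ ht.le f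
  have h3 : Tendsto (fun L => ∫ w, boxExp L t Φ w ∂μ) atTop (𝓝 (∫ w, Φ w ∂μ)) := by
    rw [tendsto_iff_norm_sub_tendsto_zero]
    have h4 : Tendsto (fun L : ℕ => (4 * d * C * m ^ 2 * Real.exp ((12 * d + 1) * t)) / (L : ℝ))
        atTop (𝓝 0) := Tendsto.div_atTop tendsto_const_nhds tendsto_natCast_atTop_atTop
    refine tendsto_of_tendsto_of_tendsto_of_le_of_le' tendsto_const_nhds h4
      (Eventually.of_forall fun L => norm_nonneg _) ?_
    filter_upwards [eventually_gt_atTop 0, eventually_ge_atTop R] with L hL0 hLR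
    rw [Real.norm_eq_abs]
    refine (h.integral_boxExp hL0 (by omega) hR (by omega : A.card ≤ m) (by omega) (by omega) hA hΦC
      hinv ht.le).trans (le_of_eq ?_)
    ring
  exact tendsto_nhds_unique h2 h3

end WStat

end Pool.Agent.W833.BD
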