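import Pool.Agent.W833.BD.Stat

/-! Symmetries of the lattice and final form of the existence theorem. -/

namespace Pool.Agent.W833.BD

set_option linter.unusedSectionVars false

open MeasureTheory Filter Topology

variable {d : ℕ} [NeZero d]

/-- The signed permutation `y ↦ (s_k y_{π k})_k` of the coordinates. -/
def sp (π : Equiv.Perm (Fin d)) (s : Fin d → ℤˣ) : V d ≃ V d where
  toFun y k := (s k : ℤ) * y (π k)
  invFun y k := (s (π.symm k) : ℤ) * y (π.symm k)
  left_inv y := by
    funext k
    simp only [Equiv.apply_symm_apply]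
    rw [← mul_assoc]
    simp
  right_inv y := by
    funext k
    simp only [Equiv.symm_apply_apply]
    rw [← mul_assoc]
    simp

/-- The action of a signed permutation on height functions. -/
def Sp (π : Equiv.Perm (Fin d)) (s : Fin d → ℤˣ) (f : Om d) : Om d := fun y => f (sp π s y)

variable (π : Equiv.Perm (Fin d)) (s : Fin d → ℤˣ)

lemma sp_zero : sp π s (0 : V d) = 0 := by
  funext k
  simp [sp]

lemma sp_add (x y : V d) : sp π s (x + y) = sp π s x + sp π s y := by
  funext k
  simp [sp, mul_add]

lemma sp_stp (p : Fin d × Bool) : ∃ q : Fin d × Bool, sp π s (stp p) = stp q := by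
  obtain ⟨i, b⟩ := p
  have h1 : ∀ v : ℤ, sp π s (Pi.single i v) = Pi.single (π.symm i) ((s (π.symm i) : ℤ) * v) := by
    intro v
    funext k
    simp only [sp, Equiv.coe_fn_mk, Pi.single_apply]
    by_cases hk : k = π.symm i
    · subst hk
      simp
    · have : π k ≠ i := fun h => hk (by rw [← h]; simp)
      simp [hk, this]
  unfold stp
  simp only [h1]
  rcases Int.units_eq_one_or (s (π.symm i)) with h | h
  · exact ⟨(π.symm i, b), by rw [h]; cases b <;> simp⟩
  · exact ⟨(π.symm i, !b), by rw [h]; cases b <;> simp⟩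

lemma sp_stp' (q : Fin d × Bool) : ∃ p : Fin d × Bool, sp π s (stp p) = stp q := by
  -- an injective self-map of a finite set
  have h := sp_stp π s
  choose g hg using h
  have hinj : Function.Injective g := by
    intro p p' hpp
    have : sp π s (stp p) = sp π s (stp p') := by rw [hg, hg, hpp]
    exact stp_injective ((sp π s).injective this)
  obtain ⟨p, hp⟩ := (Finite.injective_iff_surjective.1 hinj) q
  exact ⟨p, by rw [hg, hp]⟩

lemma newh_Sp (f : Om d) (x : V d) : newh (Sp π s f) x = newh f (sp π s x) := by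
  apply le_antisymm
  · refine newh_le (add_one_le_newh f (sp π s x)) fun p => ?_
    obtain ⟨q, hq⟩ := sp_stp π s p
    show f (sp π s (x + stp p)) ≤ _
    rw [sp_add, hq]
    exact nbr_le_newh f _ q
  · refine newh_le (add_one_le_newh (Sp π s f) x) fun q => ?_
    obtain ⟨p, hp⟩ := sp_stp' π s q
    have h := nbr_le_newh (Sp π s f) x p
    unfold Sp at h
    rw [sp_add, hp] at h
    exact h

lemma upd_Sp (f : Om d) (x : V d) : upd x (Sp π s f) = Sp π s (upd (sp π s x) f) := by
  funext y
  by_cases h : y = x
  · subst h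
    rw [upd_same, newh_Sp]
    show _ = upd _ f (sp π s y)
    rw [upd_same]
  · rw [upd_ne h]
    show f (sp π s y) = upd _ f (sp π s y)
    rw [upd_ne]
    exact fun h' => h ((sp π s).injective h')

lemma loc_Sp (y : V d) : Loc (fun f : Om d => Sp π s f y) := loc_eval _

lemma measurable_Sp : Measurable (Sp π s : Om d → Om d) := measurable_of_loc (loc_Sp π s)

lemma recentre_Sp (f : Om d) : recentre (Sp π s f) = Sp π s (recentre f) := by
  funext y
  simp [recentre, Sp, sp_zero]

/-- the image of a weakly stationary law under a symmetry of the lattice -/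
lemma WStat.map_Sp {μ : Measure (Om d)} (h : WStat μ) : WStat (μ.map (Sp π s)) where
  prob := by
    have := h.prob
    exact Measure.isProbabilityMeasure_map (measurable_Sp π s).aemeasurable
  zero := by
    have h1 : MeasurableSet {w : Om d | w 0 = 0} := by
      have : {w : Om d | w 0 = 0} = (fun f : Om d => f 0) ⁻¹' {0} := rfl
      rw [this]
      exact (measurable_pi_apply 0) (measurableSet_singleton 0)
    rw [ae_map_iff (measurable_Sp π s).aemeasurable h1]
    filter_upwards [h.zero] with w hw
    show w (sp π s 0) = 0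
    rw [sp_zero, hw]
  sum := by
    classical
    intro S Φ hΦ hC hinv
    obtain ⟨C, hC⟩ := hC
    have hloc : Loc Φ := ⟨S, hΦ⟩
    have hm : Loc (fun f => ∑ x ∈ S, (Φ (upd x f) - Φ f)) :=
      loc_sum S fun x _ => (hloc.upd x).comp₂ hloc (· - ·)
    rw [integral_map (measurable_Sp π s).aemeasurable hm.measurable.aestronglyMeasurable]
    set Ψ : Om d → ℝ := fun f => Φ (Sp π s f) with hΨ
    have hΨdep : DependsOn Ψ ((S.image (sp π s) : Finset (V d)) : Set (V d)) := by
      intro f g hfg
      refine hΦ fun y hy => ?_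
      refine hfg _ ?_
      rw [Finset.coe_image]
      exact ⟨y, hy, rfl⟩
    have h2 := h.sum hΨdep ⟨C, fun f => hC _⟩ (fun f => by
      simp only [hΨ]
      rw [← recentre_Sp, hinv])
    rw [← h2]
    congr 1
    funext f
    rw [Finset.sum_image (fun x _ y _ hxy => (sp π s).injective hxy)]
    refine Finset.sum_congr rfl fun x _ => ?_
    rw [upd_Sp]

/-- all the properties of the stationary laws of the main theorem -/
structure Nice (μ : Measure (Om d)) : Prop where
  wstat : WStat μ
  int : ∀ x : V d, Integrable (fun w : Om d => (w x : ℝ)) μ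
  trans : ∀ z : V d, μ.map (Tz z) = μ

lemma Tz_Sp (z : V d) (f : Om d) : Tz z (Sp π s f) = Sp π s (Tz (sp π s z) f) := by
  funext y
  simp only [Tz, Sp, sp_add]

lemma Nice.map_Sp {μ : Measure (Om d)} (h : Nice μ) : Nice (μ.map (Sp π s)) where
  wstat := h.wstat.map_Sp π s
  int := fun x => by
    rw [integrable_map_measure ((loc_eval x).comp (fun k : ℤ => (k : ℝ))).measurable.aestronglyMeasurable
      (measurable_Sp π s).aemeasurable]
    exact h.int (sp π s x)
  trans := fun z => by
    rw [Measure.map_map (measurable_of_loc (loc_Tz z)) (measurable_Sp π s)]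
    have : Tz z ∘ Sp π s = Sp π s ∘ Tz (sp π s z) := by
      funext f
      exact Tz_Sp π s z f
    rw [this, ← Measure.map_map (measurable_Sp π s) (measurable_of_loc (loc_Tz _)), h.trans]

lemma integral_map_Sp (μ : Measure (Om d)) (x : V d) :
    ∫ w, (w x : ℝ) ∂(μ.map (Sp π s)) = ∫ w, (w (sp π s x) : ℝ) ∂μ := by
  rw [integral_map (measurable_Sp π s).aemeasurable
    ((loc_eval x).comp (fun k : ℤ => (k : ℝ))).measurable.aestronglyMeasurable]
  rfl

/-- Existence of a stationary law with a positive slope in large dimension. -/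
theorem exists_nice (hd : 100000 ≤ d) : ∃ (μ : Measure (Om d)) (a : ℝ), Nice μ ∧ 0 < a ∧
    (∀ x : V d, ∫ w, (w x : ℝ) ∂μ = a * x 0) := by
  obtain ⟨θ, c, φ, hθ, hc, hφ1, hmono, hle, hφ, hκ⟩ := exists_params hd
  obtain ⟨sq⟩ := exists_seq (d := d) hθ
  obtain ⟨μ, hμ⟩ := sq.exists_lim
  exact ⟨μ, Seq.Lim.slope μ, ⟨hμ.wstat, hμ.integrable_eval, hμ.map_Tz⟩,
    hμ.slope_pos hc hφ1 hmono hle hφ hκ, hμ.mean⟩

end Pool.Agent.W833.BD
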