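import Pool.Agent.W833.BD.Loc

/-! Class updates (ballistic deposition on the torus, started from the slope one). -/

namespace Pool.Agent.W833.BD

set_option linter.unusedSectionVars false

open MeasureTheory Filter Topology
open scoped ENNReal

variable {d : ℕ}

/-- the residue classes -/
abbrev Cl (N d : ℕ) := Fin d → ZMod N

/-- the class of a site -/
def cls (N : ℕ) (y : V d) : Cl N d := fun i => (y i : ZMod N)

/-- simultaneous update of all the sites of a class -/
noncomputable def updT {N : ℕ} (c : Cl N d) (f : Om d) : Om d :=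
  fun y => if cls N y = c then newh f y else f y

lemma loc_updT {N : ℕ} (c : Cl N d) (y : V d) : Loc (fun f : Om d => updT c f y) := by
  by_cases h : cls N y = c
  · simpa [updT, h] using loc_newh y
  · simpa [updT, h] using loc_eval y

lemma measurable_updT {N : ℕ} (c : Cl N d) : Measurable (updT c : Om d → Om d) :=
  measurable_of_loc (loc_updT c)

lemma le_updT {N : ℕ} (c : Cl N d) (f : Om d) : f ≤ updT c f := by
  intro y
  unfold updT
  split_ifs
  · exact (lt_newh f y).le
  · exact le_rfl

lemma upd_le_updT {N : ℕ} (x : V d) (f : Om d) : upd x f ≤ updT (cls N x) f := by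
  intro y
  by_cases h : y = x
  · subst h
    simp [updT]
  · rw [upd_ne h]
    exact le_updT _ f y

variable [NeZero d]

/-- the initial condition: the slope one -/
def f0 : Om d := fun y => y 0

/-- the law after `n` class updates -/
noncomputable def Mn (N : ℕ) [NeZero N] : ℕ → Measure (Om d)
  | 0 => Measure.dirac f0
  | n + 1 => (Fintype.card (Cl N d) : ℝ≥0∞)⁻¹ • ∑ c : Cl N d, (Mn N n).map (updT c)

variable {N : ℕ} [NeZero N]

lemma Mn_zero : (Mn N 0 : Measure (Om d)) = Measure.dirac f0 := rfl

lemma Mn_succ (n : ℕ) : (Mn N (n + 1) : Measure (Om d))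
    = (Fintype.card (Cl N d) : ℝ≥0∞)⁻¹ • ∑ c : Cl N d, (Mn N n).map (updT c) := rfl

lemma kc_pos : (0 : ℝ) < Fintype.card (Cl N d) := by
  have : 0 < Fintype.card (Cl N d) := Fintype.card_pos
  exact_mod_cast this

lemma kc_toReal : ((Fintype.card (Cl N d) : ℝ≥0∞)⁻¹).toReal = (Fintype.card (Cl N d) : ℝ)⁻¹ := by
  rw [ENNReal.toReal_inv, ENNReal.toReal_natCast]

lemma kc_ne_top : (Fintype.card (Cl N d) : ℝ≥0∞)⁻¹ ≠ ∞ := by
  rw [ENNReal.inv_ne_top]
  have : 0 < Fintype.card (Cl N d) := Fintype.card_pos
  exact_mod_cast this.ne'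

instance (n : ℕ) : IsProbabilityMeasure (Mn N n : Measure (Om d)) := by
  induction n with
  | zero => rw [Mn_zero]; infer_instance
  | succ n ih =>
    constructor
    rw [Mn_succ]
    simp only [Measure.smul_apply, Measure.coe_finsetSum, Finset.sum_apply, smul_eq_mul]
    have : ∀ c : Cl N d, (Measure.map (updT c) (Mn N n : Measure (Om d))) Set.univ = 1 := by
      intro c
      have := Measure.isProbabilityMeasure_map (μ := (Mn N n : Measure (Om d)))
        (measurable_updT c).aemeasurable
      exact measure_univ
    simp only [this, Finset.sum_const, Finset.card_univ, nsmul_eq_mul, mul_one]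
    apply ENNReal.inv_mul_cancel
    · have : 0 < Fintype.card (Cl N d) := Fintype.card_pos
      exact_mod_cast this.ne'
    · exact ENNReal.natCast_ne_top _

lemma integrable_Mn (n : ℕ) : ∀ {φ : Om d → ℝ}, Measurable φ → Integrable φ (Mn N n) := by
  induction n with
  | zero =>
    intro φ hφ
    rw [Mn_zero]
    exact integrable_dirac (by simp)
  | succ n ih =>
    intro φ hφ
    rw [Mn_succ]
    refine Integrable.smul_measure ?_ kc_ne_top
    rw [integrable_finsetSum_measure]
    intro c _
    rw [integrable_map_measure hφ.aestronglyMeasurable (measurable_updT c).aemeasurable]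
    exact ih (hφ.comp (measurable_updT c))

lemma integral_Mn_zero {φ : Om d → ℝ} : ∫ f, φ f ∂(Mn N 0 : Measure (Om d)) = φ f0 := by
  rw [Mn_zero]
  exact integral_dirac _ _

lemma integral_Mn_succ (n : ℕ) {φ : Om d → ℝ} (hφ : Measurable φ) :
    ∫ f, φ f ∂(Mn N (n + 1) : Measure (Om d))
      = (Fintype.card (Cl N d) : ℝ)⁻¹ * ∑ c : Cl N d, ∫ f, φ (updT c f) ∂(Mn N n) := by
  rw [Mn_succ, integral_smul_measure, kc_toReal, integral_finsetSum_measure]
  · congr 1
    refine Finset.sum_congr rfl fun c _ => ?_
    rw [integral_map (measurable_updT c).aemeasurable hφ.aestronglyMeasurable]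
  · intro c _
    rw [integrable_map_measure hφ.aestronglyMeasurable (measurable_updT c).aemeasurable]
    exact integrable_Mn n (hφ.comp (measurable_updT c))

/-! ## Symmetries -/

/-- maps `f ↦ f ∘ σ + k` with `σ` an automorphism of the graph -/
structure Sym (N : ℕ) (d : ℕ) [NeZero d] where
  σ : V d → V d
  k : ℤ
  fwd : ∀ y p, ∃ q, σ (y + stp p) = σ y + stp q
  bwd : ∀ y q, ∃ p, σ (y + stp p) = σ y + stp q
  zero : ∀ y, σ y 0 + k = y 0
  π : Cl N d ≃ Cl N d
  cl : ∀ y c, cls N (σ y) = c ↔ cls N y = π c

/-- the action on height functions -/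
def Sym.act (g : Sym N d) (f : Om d) : Om d := fun y => f (g.σ y) + g.k

lemma newh_act (g : Sym N d) (f : Om d) (x : V d) :
    newh (g.act f) x = newh f (g.σ x) + g.k := by
  apply le_antisymm
  · refine newh_le ?_ ?_
    · have := add_one_le_newh f (g.σ x)
      simp only [Sym.act]
      omega
    · intro p
      obtain ⟨q, hq⟩ := g.fwd x p
      have := nbr_le_newh f (g.σ x) q
      simp only [Sym.act, hq]
      omega
  · have : newh f (g.σ x) ≤ newh (g.act f) x - g.k := by
      refine newh_le ?_ ?_
      · have := add_one_le_newh (g.act f) x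
        simp only [Sym.act] at this ⊢
        omega
      · intro q
        obtain ⟨p, hp⟩ := g.bwd x q
        have := nbr_le_newh (g.act f) x p
        simp only [Sym.act, hp] at this ⊢
        omega
    omega

lemma act_updT (g : Sym N d) (c : Cl N d) (f : Om d) :
    g.act (updT c f) = updT (g.π c) (g.act f) := by
  funext y
  show updT c f (g.σ y) + g.k = _
  unfold updT
  by_cases h : cls N (g.σ y) = c
  · rw [if_pos h, if_pos ((g.cl y c).1 h), newh_act]
  · rw [if_neg h, if_neg (fun h' => h ((g.cl y c).2 h'))]
    rfl

lemma act_f0 (g : Sym N d) : g.act f0 = f0 := by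
  funext y
  exact g.zero y

lemma loc_act (g : Sym N d) (y : V d) : Loc (fun f : Om d => g.act f y) :=
  (loc_eval (g.σ y)).comp (· + g.k)

lemma measurable_act (g : Sym N d) : Measurable (g.act : Om d → Om d) :=
  measurable_of_loc (loc_act g)

lemma integral_act (g : Sym N d) (n : ℕ) : ∀ {φ : Om d → ℝ}, Measurable φ →
    ∫ f, φ (g.act f) ∂(Mn N n : Measure (Om d)) = ∫ f, φ f ∂(Mn N n) := by
  induction n with
  | zero =>
    intro φ _
    rw [integral_Mn_zero (φ := fun f => φ (g.act f)), integral_Mn_zero, act_f0]
  | succ n ih =>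
    intro φ hφ
    rw [integral_Mn_succ n (φ := fun f => φ (g.act f)) (hφ.comp (measurable_act g)),
      integral_Mn_succ n hφ]
    congr 1
    rw [← Equiv.sum_comp g.π (fun c => ∫ f, φ (updT c f) ∂(Mn N n : Measure (Om d)))]
    refine Finset.sum_congr rfl fun c _ => ?_
    rw [← ih (φ := fun f => φ (updT (g.π c) f)) (hφ.comp (measurable_updT _))]
    simp only [act_updT]

/-- translations -/
def Sym.trans (z : V d) : Sym N d where
  σ := fun y => y + z
  k := - z 0
  fwd := fun y p => ⟨p, by abel⟩
  bwd := fun y p => ⟨p, by abel⟩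
  zero := fun y => by simp
  π := Equiv.subRight (cls N z)
  cl := fun y c => by
    have : cls N (y + z) = cls N y + cls N z := by
      funext i
      simp [cls]
    rw [this]
    simp only [Equiv.subRight_apply]
    exact ⟨fun h => by rw [← h]; simp, fun h => by rw [h]; simp⟩

/-- reflection of the coordinate `i` -/
def refl (i : Fin d) (y : V d) : V d := Function.update y i (-y i)

lemma refl_stp (i : Fin d) (y : V d) (p : Fin d × Bool) :
    refl i (y + stp p) = refl i y + stp (p.1, if p.1 = i then !p.2 else p.2) := by
  obtain ⟨j, b⟩ := p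
  funext k
  simp only [refl, stp, Pi.add_apply, Function.update_apply, Pi.single_apply]
  by_cases hk : k = i
  · subst hk
    by_cases hj : k = j
    · subst hj
      cases b <;> simp <;> ring
    · simp [hj]
  · by_cases hj : k = j
    · subst hj
      simp [hk]
    · simp [hk, hj]

/-- reflections of the coordinates different from the first one -/
def Sym.refl (i : Fin d) (hi : i ≠ 0) : Sym N d where
  σ := BD.refl i
  k := 0
  fwd := fun y p => ⟨_, refl_stp i y p⟩
  bwd := fun y q => by
    refine ⟨(q.1, if q.1 = i then !q.2 else q.2), ?_⟩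
    rw [refl_stp]
    congr 2
    ext
    · rfl
    · simp only
      split_ifs <;> simp
  zero := fun y => by simp [BD.refl, Function.update_of_ne (Ne.symm hi)]
  π := ⟨fun c => Function.update c i (-c i), fun c => Function.update c i (-c i),
    fun c => by simp, fun c => by simp⟩
  cl := fun y c => by
    have h1 : cls N (BD.refl i y) = Function.update (cls N y) i (-(cls N y i)) := by
      funext k
      simp only [cls, BD.refl, Function.update_apply]
      by_cases hk : k = i
      · subst hk
        simp
      · simp [hk]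
    rw [h1]
    constructor
    · intro h
      rw [← h]
      simp
    · intro h
      rw [h]
      simp

end Pool.Agent.W833.BD
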