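import Pool.Agent.W833.BD.Chain

/-! Lower bounds for the height at the origin by the exploration chains. -/

namespace Pool.Agent.W833.BD

set_option linter.unusedSectionVars false

variable {d : ℕ}

lemma boxStep_mono {L : ℕ} {Φ Ψ : Om d → ℝ} (h : ∀ f, Φ f ≤ Ψ f) (f : Om d) :
    boxStep L Φ f ≤ boxStep L Ψ f := by
  unfold boxStep
  refine mul_le_mul_of_nonneg_left ?_ (by positivity)
  exact Finset.sum_le_sum fun x _ => h _

lemma boxStep_iter_mono {L : ℕ} {Φ Ψ : Om d → ℝ} (h : ∀ f, Φ f ≤ Ψ f) (n : ℕ) (f : Om d) :
    (boxStep L)^[n] Φ f ≤ (boxStep L)^[n] Ψ f := by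
  induction n generalizing f with
  | zero => exact h f
  | succ n ih =>
    rw [Function.iterate_succ_apply', Function.iterate_succ_apply']
    exact boxStep_mono ih f

lemma boxStep_iter_sum {L : ℕ} {ι : Type*} (s : Finset ι) (c : ℝ) (Φ : ι → Om d → ℝ) (n : ℕ)
    (f : Om d) :
    (boxStep L)^[n] (fun f => c * ∑ i ∈ s, Φ i f) f = c * ∑ i ∈ s, (boxStep L)^[n] (Φ i) f := by
  induction n generalizing f with
  | zero => rfl
  | succ n ih =>
    simp only [Function.iterate_succ_apply']
    have h1 : boxStep L ((boxStep L)^[n] fun f => c * ∑ i ∈ s, Φ i f) f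
        = ((box d L).card : ℝ)⁻¹ * ∑ x ∈ box d L, c * ∑ i ∈ s, (boxStep L)^[n] (Φ i) (upd x f) := by
      rw [boxStep]
      congr 1
      exact Finset.sum_congr rfl fun x _ => ih _
    rw [h1, ← Finset.mul_sum, mul_left_comm, Finset.sum_comm, Finset.mul_sum]
    rfl

/-- one step of the box dynamics taken first -/
lemma boxStep_iter_succ {L : ℕ} (n : ℕ) (Φ : Om d → ℝ) (f : Om d) :
    (boxStep L)^[n + 1] Φ f
      = ((box d L).card : ℝ)⁻¹ * ∑ x ∈ box d L, (boxStep L)^[n] (fun f => Φ (upd x f)) f := by
  rw [Function.iterate_succ_apply]
  exact boxStep_iter_sum (box d L) ((box d L).card : ℝ)⁻¹ (fun x f => Φ (upd x f)) n f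

variable [NeZero d]

lemma boxStep_ge_Av {σ : Type*} {L : ℕ} {tr : σ → V d → σ} {R : (Om d → ℝ) → σ → Prop}
    (hR : ∀ Φ s x, R Φ s → R (fun f => Φ (upd x f)) (tr s x)) {w : Om d} {g : σ → ℝ}
    (hg : ∀ Φ s, R Φ s → g s ≤ Φ w) (n : ℕ) :
    ∀ Φ s, R Φ s → (Av (box d L) tr)^[n] g s ≤ (boxStep L)^[n] Φ w := by
  induction n with
  | zero => exact hg
  | succ n ih =>
    intro Φ s h
    rw [Function.iterate_succ_apply', boxStep_iter_succ]
    unfold Av at ih ⊢
    refine mul_le_mul_of_nonneg_left ?_ (by positivity)
    exact Finset.sum_le_sum fun x _ => ih _ _ (hR Φ s x h)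

/-- the functional `Φ` dominates the one described by the state -/
def Valid (b : Bool) (Φ : Om d → ℝ) (st : St d) : Prop :=
  ∀ w : Om d, (w 0 : ℝ) ≤ Φ w ∧
    (∀ y ∈ st.C, (if b then 0 else (st.M : ℝ)) + w (y + sv b) ≤ Φ w) ∧
    (∀ y ∈ st.C, ∀ p ∈ hdirs d, (if b then 0 else (st.M : ℝ) - 1) + w (y + stp p) ≤ Φ w)

lemma sv_true : (sv true : V d) = stp (0, true) := by
  simp [sv, stp]

lemma valid_step {b : Bool} {Φ : Om d → ℝ} {st : St d} (h : Valid b Φ st) (x : V d) :
    Valid b (fun f => Φ (upd x f)) (stepC b st x) := by
  classical
  intro w
  obtain ⟨h1, h2, h3⟩ := h (upd x w)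
  have hle : ∀ y, (w y : ℝ) ≤ upd x w y := fun y => by exact_mod_cast le_upd x w y
  have hn1 : (w x : ℝ) + 1 ≤ newh w x := by exact_mod_cast add_one_le_newh w x
  have hn2 : ∀ p, (w (x + stp p) : ℝ) ≤ newh w x := fun p => by exact_mod_cast nbr_le_newh w x p
  refine ⟨(hle 0).trans h1, ?_⟩
  dsimp only
  by_cases h4 : st.C = ∅
  · by_cases h5 : x = 0
    · have hst : stepC b st x = ⟨1, {0}, st.S + 1⟩ := by simp [stepC, h4, h5]
      rw [hst]
      subst h5
      rw [upd_same] at h1
      constructor
      · intro y hy
        simp only [Finset.mem_singleton] at hy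
        subst hy
        cases b
        · simp only [sv, Bool.false_eq_true, if_false, add_zero]
          push_cast
          linarith
        · simp only [if_true, sv_true]
          have := hn2 (0, true)
          linarith
      · intro y hy p hp
        simp only [Finset.mem_singleton] at hy
        subst hy
        have := hn2 p
        cases b
        · simp only [Bool.false_eq_true, if_false]
          push_cast
          linarith
        · simp only [if_true]
          linarith
    · have hst : stepC b st x = st := by simp [stepC, h4, h5]
      rw [hst, h4]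
      simp
  · by_cases h6 : x - sv b ∈ st.C
    · have hst : stepC b st x = ⟨st.M + 1, {x}, st.S + 1⟩ := by simp [stepC, h4, h6]
      rw [hst]
      have h7 := h2 _ h6
      rw [sub_add_cancel, upd_same] at h7
      constructor
      · intro y hy
        simp only [Finset.mem_singleton] at hy
        subst hy
        cases b
        · simp only [sv, Bool.false_eq_true, if_false, add_zero] at h7 ⊢
          push_cast
          linarith
        · simp only [if_true, sv_true] at h7 ⊢
          have := hn2 (0, true)
          linarith
      · intro y hy p hp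
        simp only [Finset.mem_singleton] at hy
        subst hy
        have := hn2 p
        cases b
        · simp only [Bool.false_eq_true, if_false] at h7 ⊢
          push_cast
          linarith
        · simp only [if_true] at h7 ⊢
          linarith
    · by_cases h7 : x ∈ hn st.C \ st.C
      · have hst : stepC b st x = ⟨st.M, insert x st.C, st.S + 1⟩ := by
          unfold stepC
          rw [if_neg h4, if_neg h6, if_pos h7]
        rw [hst]
        have h8 := (Finset.mem_sdiff.1 h7).1
        rw [mem_hn] at h8
        obtain ⟨z, hz, q, hq, hxz⟩ := h8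
        have h9 := h3 z hz q hq
        rw [← hxz, upd_same] at h9
        constructor
        · intro y hy
          dsimp only at hy ⊢
          rw [Finset.mem_insert] at hy
          rcases hy with hyx | hy
          · rw [hyx]
            cases b
            · simp only [sv, Bool.false_eq_true, if_false, add_zero] at h9 ⊢
              linarith
            · simp only [if_true, sv_true] at h9 ⊢
              have := hn2 (0, true)
              linarith
          · have := h2 y hy
            have := hle (y + sv b)
            linarith
        · intro y hy p hp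
          dsimp only at hy ⊢
          rw [Finset.mem_insert] at hy
          rcases hy with hyx | hy
          · rw [hyx]
            have := hn2 p
            cases b
            · simp only [Bool.false_eq_true, if_false] at h9 ⊢
              linarith
            · simp only [if_true] at h9 ⊢
              linarith
          · have := h3 y hy p hp
            have := hle (y + stp p)
            linarith
      · have hst : stepC b st x = st := by
          unfold stepC
          rw [if_neg h4, if_neg h6, if_neg h7]
        rw [hst]
        constructor
        · intro y hy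
          have := h2 y hy
          have := hle (y + sv b)
          linarith
        · intro y hy p hp
          have := h3 y hy p hp
          have := hle (y + stp p)
          linarith

lemma valid_st0 (b : Bool) : Valid b (fun f : Om d => (f 0 : ℝ)) (st0 d) := by
  intro w
  refine ⟨le_rfl, ?_, ?_⟩ <;> simp [st0]

/-- a site at the top -/
noncomputable def site (b : Bool) (st : St d) : V d :=
  if h : st.C.Nonempty then h.choose + sv b else 0

lemma site_false_zero {st : St d} (h : Inv false st) : (site false st) 0 = 0 := by
  unfold site
  split_ifs with h1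
  · have := h.level _ h1.choose_spec
    simpa [sv] using this
  · rfl

lemma site_true_zero {st : St d} (h : Inv true st) : (site true st) 0 = st.M := by
  unfold site
  split_ifs with h1
  · have := h.level _ h1.choose_spec
    simp only [if_true] at this
    simp only [Pi.add_apply, this, sv_zero, if_true]
    ring
  · rw [h.empty (Finset.not_nonempty_iff_eq_empty.1 h1)]
    rfl

lemma le_of_valid_false {Φ : Om d → ℝ} {st : St d} (h : Valid false Φ st) (hI : Inv false st)
    (w : Om d) : (st.M : ℝ) + w (site false st) ≤ Φ w := by
  unfold site
  split_ifs with h1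
  · have := (h w).2.1 _ h1.choose_spec
    simpa using this
  · rw [hI.empty (Finset.not_nonempty_iff_eq_empty.1 h1)]
    have := (h w).1
    simpa using this

lemma le_of_valid_true {Φ : Om d → ℝ} {st : St d} (h : Valid true Φ st) (w : Om d) :
    (w (site true st) : ℝ) ≤ Φ w := by
  unfold site
  split_ifs with h1
  · have := (h w).2.1 _ h1.choose_spec
    simpa using this
  · exact (h w).1

end Pool.Agent.W833.BD
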